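import Mathlib

/-!
# SMITH-L, block C, module AbsC (version of `GBU/H/AbsC.lean` for a cyclic group of order `n`)

PROOF (counting): `N = ∑_{i < n} F^i`, `T = F - 1`; `N.range = T.ker` by `hs`, so
`#T.range = #A / #T.ker = #A / #N.range = #N.ker`, and `T.range ≤ N.ker`.
-/

set_option autoImplicit false

namespace Pool.Agent.SmL.C

theorem absC {A : Type*} [AddCommGroup A] [Finite A] {n : ℕ} (F : A →+ A)
    (hF : ∀ x, F^[n] x = x)
    (hs : ∀ x, F x = x → ∃ y, x = ∑ i ∈ Finset.range n, F^[i] y) (x : A)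
    (hx : ∑ i ∈ Finset.range n, F^[i] x = 0) : ∃ y, x = F y - y := by
  classical
  obtain ⟨N, hN⟩ : ∃ N : A →+ A, ∀ y, N y = ∑ i ∈ Finset.range n, F^[i] y := by
    refine ⟨AddMonoidHom.mk' (fun y => ∑ i ∈ Finset.range n, F^[i] y) ?_, fun _ => rfl⟩
    intro a b
    change ∑ i ∈ Finset.range n, F^[i] (a + b) =
      ∑ i ∈ Finset.range n, F^[i] a + ∑ i ∈ Finset.range n, F^[i] b
    rw [← Finset.sum_add_distrib]
    refine Finset.sum_congr rfl fun i _ => ?_
    exact iterate_map_add F i a b
  obtain ⟨T, hT⟩ : ∃ T : A →+ A, ∀ y, T y = F y - y := by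
    refine ⟨F - AddMonoidHom.id A, fun y => rfl⟩
  have hFN : ∀ y, F (∑ i ∈ Finset.range n, F^[i] y) = ∑ i ∈ Finset.range n, F^[i] y := by
    intro y
    have h1 : F (∑ i ∈ Finset.range n, F^[i] y) = ∑ i ∈ Finset.range n, F^[i + 1] y := by
      rw [map_sum]
      refine Finset.sum_congr rfl fun i _ => ?_
      rw [Function.iterate_succ_apply']
    have h2 := Finset.sum_range_succ (fun i => F^[i] y) n
    have h3 := Finset.sum_range_succ' (fun i => F^[i] y) n
    rw [h2, hF y] at h3
    rw [h1]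
    simp only [Function.iterate_zero, id_eq] at h3
    exact (add_right_cancel h3).symm
  have hNF : ∀ y, ∑ i ∈ Finset.range n, F^[i] (F y) = ∑ i ∈ Finset.range n, F^[i] y := by
    intro y
    have h1 : ∑ i ∈ Finset.range n, F^[i] (F y) = ∑ i ∈ Finset.range n, F^[i + 1] y := by
      refine Finset.sum_congr rfl fun i _ => ?_
      rw [Function.iterate_succ_apply]
    have h2 := Finset.sum_range_succ (fun i => F^[i] y) n
    have h3 := Finset.sum_range_succ' (fun i => F^[i] y) n
    rw [h2, hF y] at h3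
    rw [h1]
    simp only [Function.iterate_zero, id_eq] at h3
    exact (add_right_cancel h3).symm
  -- `N.range = T.ker`
  have e1 : N.range = T.ker := by
    ext z
    rw [AddMonoidHom.mem_ker, hT, sub_eq_zero, AddMonoidHom.mem_range]
    constructor
    · rintro ⟨y, rfl⟩
      rw [hN]
      exact hFN y
    · intro h
      obtain ⟨y, hy⟩ := hs z h
      exact ⟨y, by rw [hN]; exact hy.symm⟩
  have e2 : T.range ≤ N.ker := by
    rintro z ⟨y, rfl⟩
    rw [AddMonoidHom.mem_ker, hT, map_sub, hN, hN, hNF, sub_self]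
  have c1 : Nat.card T.range * Nat.card T.ker = Nat.card A := by
    rw [← Nat.card_congr (QuotientAddGroup.quotientKerEquivRange T).toEquiv]
    exact (AddSubgroup.card_eq_card_quotient_mul_card_addSubgroup T.ker).symm
  have c2 : Nat.card N.range * Nat.card N.ker = Nat.card A := by
    rw [← Nat.card_congr (QuotientAddGroup.quotientKerEquivRange N).toEquiv]
    exact (AddSubgroup.card_eq_card_quotient_mul_card_addSubgroup N.ker).symm
  have c3 : Nat.card T.range = Nat.card N.ker := by
    rw [e1] at c2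
    have h0 : 0 < Nat.card T.ker := Nat.card_pos
    refine Nat.eq_of_mul_eq_mul_left h0 ?_
    rw [c2, mul_comm, c1]
  have e3 : T.range = N.ker := AddSubgroup.eq_of_le_of_card_ge e2 (le_of_eq c3.symm)
  have h4 : x ∈ N.ker := by
    rw [AddMonoidHom.mem_ker, hN]
    exact hx
  rw [← e3] at h4
  obtain ⟨y, hy⟩ := h4
  exact ⟨y, by rw [← hy, hT]⟩

end Pool.Agent.SmL.C
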