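import Pool.Agent.Lib.GBU.H.AbsS

/-!
# SMITH-L, block C, module AbsN (abstract; version of `GBU/H/AbsS.lean` for `n` instead of `2`)

`O` = the closed points, `d` = degrees, `P` = the principal divisors. If for large degree the number
of effective divisors in a class depends only on the degree, then every divisor of degree zero is
the sum of a principal divisor and of a divisor `B` with `n ∣ d o * B o` for all `o`.

PROOF. `𝔅` = the group of the `B` with `n ∣ d o * B o` (it contains `n Div`). If `D₀ ∉ P + 𝔅` there is a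
character `χ : Div → ℂ^*` with values in the `n`-th roots of unity, trivial on `P` and `𝔅`, `χ D₀ ≠ 1`
(the quotient is killed by `n`: e.g. the subgroup generated by the class of `D₀` is finite cyclic and a
character extends, `AddCircle`/`CharacterModule` is divisible: `CharacterModule.exists_character_apply_ne_zero_of_ne_zero`
gives `c : Div / (P + 𝔅) → AddCircle (1 : ℚ)` with `c D₀ ≠ 0`; compose with `x ↦ exp (2 π i x)`).
(1) `a_j = ∑ χ(E)` over the effective divisors of degree `j` is `0` for `j ≥ N0`: as in `absS`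
(`∑_{E, E'} [E' - E - D₀ ∈ P] χ(E)` in two ways gives `c a_j = χ(D₀)⁻¹ c a_j`, `c ≠ 0`).
(2) `ζ` = a primitive `n`-th root of unity in `ℂ`. For `N ≥ 0` let `S` = the finite set of the `o`
with `d o ≤ N`. Coefficient of `T ^ N` in the formal power series `∏_{i < n} A(ζ ^ i T)`,
`A = ∑ a_j T ^ j`: (a) it is `0` for `N ≥ n N0`, as `A` is a polynomial of degree `< N0`; (b) up to order
`N` the series `A` is `∏_{o ∈ S} (1 - χ(o) T ^ {d o})⁻¹`, so it is the coefficient of `T ^ N` of
`∏_{o ∈ S} ∏_{i < n} (1 - χ(o) ζ ^ {i d o} T ^ {d o})⁻¹ = ∏_{o ∈ S} ((1 - T ^ {d o n / g_o}) ^ {g_o})⁻¹`,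
`g_o = gcd(n, d o)`, since `χ(o) ^ {n / g_o} = χ((n / g_o) o) = 1` (`(n / g_o) o ∈ 𝔅`). (c) All these
factors have coefficients `≥ 0`, constant term `1`, and for `N = m d_{o1} n / g_{o1}` the factor of
`o1` has a coefficient `≥ 1` at `T ^ N`. Contradiction for `m` large.
(An alternative to (2): direct combinatorics as in `absS` with
`λ(E) = ∏_{o} fac (d o) (E o)`, `fac d m` = coefficient of `T ^ m` in `∏_{i < n} (1 - ζ ^ {i d} T)⁻¹`.)
-/

set_option autoImplicit false

namespace Pool.Agent.SmL.C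

open Pool.Agent.GBUH

section

open PowerSeries

/-- The geometric series with ratio `z`. -/
private noncomputable def absN_geo (z : ℂ) : PowerSeries ℂ := PowerSeries.mk fun m => z ^ m

private theorem absN_geo_mul (z : ℂ) : (1 - C z * X) * absN_geo z = 1 := by
  ext m
  rw [sub_mul, one_mul, map_sub, mul_assoc, coeff_C_mul, mul_comm X]
  rcases m with _ | m
  · simp [absN_geo]
  · rw [coeff_succ_mul_X, absN_geo, coeff_mk, coeff_mk, coeff_one, pow_succ]
    simp
    ring

/-- `∏ (1 - ω ^ r T) = 1 - T ^ k`, `ω` a primitive `k`-th root of unity. -/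
private theorem absN_prod1 {ω : ℂ} {k : ℕ} (hk : 0 < k) (h : IsPrimitiveRoot ω k) :
    ∏ r ∈ Finset.range k, (1 - C (ω ^ r) * X) = (1 - X ^ k : PowerSeries ℂ) := by
  have hk' : NeZero k := ⟨hk.ne'⟩
  have h1 : IsPrimitiveRoot (C ω : PowerSeries ℂ) k := h.map_of_injective C_injective
  have h2 := h1.pow_sub_pow_eq_prod_sub_mul (1 : PowerSeries ℂ) X hk
  rw [one_pow] at h2
  rw [h2]
  refine Finset.prod_bij (fun r _ => (C ω : PowerSeries ℂ) ^ r) ?_ ?_ ?_ ?_
  · intro r _
    rw [Polynomial.mem_nthRootsFinset hk, ← pow_mul, mul_comm, pow_mul, h1.pow_eq_one, one_pow]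
  · intro r hr r' hr' e
    exact h1.pow_inj (Finset.mem_range.1 hr) (Finset.mem_range.1 hr') e
  · intro x hx
    rw [Polynomial.mem_nthRootsFinset hk] at hx
    obtain ⟨i, hi, rfl⟩ := h1.eq_pow_of_pow_eq_one hx
    exact ⟨i, Finset.mem_range.2 hi, rfl⟩
  · intro r _
    rw [map_pow]

private theorem absN_prod2 {ω : ℂ} {k : ℕ} (hk : 0 < k) (h : IsPrimitiveRoot ω k) (g : ℕ) :
    ∏ r ∈ Finset.range (k * g), (1 - C (ω ^ r) * X) = (1 - X ^ k : PowerSeries ℂ) ^ g := by
  induction g with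
  | zero => simp
  | succ g ih =>
    rw [mul_add, mul_one, Finset.prod_range_add, ih, pow_succ, ← absN_prod1 hk h]
    congr 1
    refine Finset.prod_congr rfl fun r _ => ?_
    rw [pow_add, pow_mul, h.pow_eq_one, one_pow, one_mul]

/-- The coefficients are natural numbers, not zero exactly at the multiples of `k`. -/
private def absN_good (k : ℕ) (F : PowerSeries ℂ) : Prop :=
  ∀ m, ∃ c : ℕ, coeff m F = c ∧ (¬ k ∣ m → c = 0) ∧ (k ∣ m → 1 ≤ c)

private noncomputable def absN_geok (k : ℕ) : PowerSeries ℂ :=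
  PowerSeries.mk fun m => if k ∣ m then 1 else 0

private theorem absN_geok_mul {k : ℕ} (hk : 0 < k) : (1 - X ^ k) * absN_geok k = 1 := by
  ext m
  rw [sub_mul, one_mul, map_sub, mul_comm (X ^ k), coeff_mul_X_pow', absN_geok, coeff_mk,
    coeff_one]
  by_cases h : k ≤ m
  · have h0 : ¬ m = 0 := by omega
    have h1 : k ∣ m - k ↔ k ∣ m := by
      refine ⟨fun h' => ?_, fun h' => Nat.dvd_sub h' (dvd_refl k)⟩
      have h2 := dvd_add h' (dvd_refl k)
      rwa [Nat.sub_add_cancel h] at h2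
    rw [if_pos h, if_neg h0, coeff_mk]
    simp only [h1, sub_self]
  · rw [if_neg h, sub_zero]
    by_cases hm : m = 0
    · rw [if_pos hm, if_pos (by rw [hm]; exact dvd_zero k)]
    · rw [if_neg hm, if_neg]
      intro h2
      exact h (Nat.le_of_dvd (Nat.pos_of_ne_zero hm) h2)

private theorem absN_good_mul {k : ℕ} {F G : PowerSeries ℂ} (hF : absN_good k F)
    (hG : absN_good k G) : absN_good k (F * G) := by
  intro m
  choose f hf1 hf2 hf3 using hF
  choose g hg1 hg2 hg3 using hG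
  refine ⟨∑ p ∈ Finset.HasAntidiagonal.antidiagonal m, f p.1 * g p.2, ?_, ?_, ?_⟩
  · rw [coeff_mul]
    push_cast
    exact Finset.sum_congr rfl fun p _ => by rw [hf1, hg1]
  · intro h
    refine Finset.sum_eq_zero fun p hp => ?_
    rw [Finset.HasAntidiagonal.mem_antidiagonal] at hp
    by_cases h1 : k ∣ p.1
    · have h2 : ¬ k ∣ p.2 := fun h2 => h (hp ▸ dvd_add h1 h2)
      rw [hg2 _ h2, mul_zero]
    · rw [hf2 _ h1, zero_mul]
  · intro h
    have h1 : f 0 * g m ≤ ∑ p ∈ Finset.HasAntidiagonal.antidiagonal m, f p.1 * g p.2 :=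
      Finset.single_le_sum (f := fun p : ℕ × ℕ => f p.1 * g p.2) (fun _ _ => Nat.zero_le _)
        (a := (0, m)) (by rw [Finset.HasAntidiagonal.mem_antidiagonal]; exact zero_add m)
    have h2 := hf3 0 (dvd_zero k)
    have h3 := hg3 m h
    have h4 : 1 * 1 ≤ f 0 * g m := Nat.mul_le_mul h2 h3
    omega

private theorem absN_good_geok (k : ℕ) : absN_good k (absN_geok k) := by
  intro m
  by_cases h : k ∣ m
  · exact ⟨1, by rw [absN_geok, coeff_mk, if_pos h, Nat.cast_one], fun h' => absurd h h',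
      fun _ => le_rfl⟩
  · exact ⟨0, by rw [absN_geok, coeff_mk, if_neg h, Nat.cast_zero], fun _ => rfl,
      fun h' => absurd h' h⟩

private theorem absN_good_pow (k g : ℕ) : absN_good k (absN_geok k ^ (g + 1)) := by
  induction g with
  | zero =>
    rw [zero_add, pow_one]
    exact absN_good_geok k
  | succ g ih =>
    rw [pow_succ]
    exact absN_good_mul ih (absN_good_geok k)

/-- The local factor. -/
private noncomputable def absN_F (ζ : ℂ) (d k : ℕ) : PowerSeries ℂ :=
  ∏ i ∈ Finset.range k, absN_geo (ζ ^ (i * d))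

private theorem absN_F_good {ζ : ℂ} {n : ℕ} (hn : 0 < n) (hζ : IsPrimitiveRoot ζ n) (d : ℕ) :
    absN_good (n / n.gcd d) (absN_F ζ d n) := by
  have hg : 0 < n.gcd d := Nat.gcd_pos_of_pos_left d hn
  set k := n / n.gcd d with hk
  have hkn : k * n.gcd d = n := Nat.div_mul_cancel (Nat.gcd_dvd_left n d)
  have hk0 : 0 < k := Nat.div_pos (Nat.le_of_dvd hn (Nat.gcd_dvd_left n d)) hg
  have hω : IsPrimitiveRoot (ζ ^ d) k := by
    have h1 := IsPrimitiveRoot.orderOf (ζ ^ d)
    rwa [IsOfFinOrder.orderOf_pow ζ d (isOfFinOrder_iff_pow_eq_one.2 ⟨n, hn, hζ.pow_eq_one⟩),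
      ← hζ.eq_orderOf] at h1
  have h1 : (∏ i ∈ Finset.range n, (1 - C (ζ ^ (i * d)) * X)) * absN_F ζ d n = 1 := by
    rw [absN_F, ← Finset.prod_mul_distrib, Finset.prod_eq_one]
    intro i _
    exact absN_geo_mul _
  have h2 : (∏ i ∈ Finset.range n, (1 - C (ζ ^ (i * d)) * X)) = (1 - X ^ k) ^ n.gcd d := by
    rw [← absN_prod2 hk0 hω, hkn]
    refine Finset.prod_congr rfl fun i _ => ?_
    rw [mul_comm i d, pow_mul]
  have h3 : (1 - X ^ k : PowerSeries ℂ) ^ n.gcd d * absN_geok k ^ n.gcd d = 1 := by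
    rw [← mul_pow, absN_geok_mul hk0, one_pow]
  rw [h2] at h1
  have h4 : absN_F ζ d n = absN_geok k ^ n.gcd d := by
    calc absN_F ζ d n = ((1 - X ^ k) ^ n.gcd d * absN_geok k ^ n.gcd d) * absN_F ζ d n := by
          rw [h3, one_mul]
      _ = absN_geok k ^ n.gcd d * ((1 - X ^ k) ^ n.gcd d * absN_F ζ d n) := by ring
      _ = _ := by rw [h1, mul_one]
  rw [h4]
  obtain ⟨g, hg'⟩ := Nat.exists_eq_succ_of_ne_zero hg.ne'
  rw [hg']
  exact absN_good_pow k g

end

private theorem absN_e : ∃ e : AddCircle (1 : ℚ) → ℂ, (∀ x y, e (x + y) = e x * e y) ∧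
    e 0 = 1 ∧ ∀ x, e x = 1 → x = 0 := by
  let f : ℚ →+ Additive ℂˣ :=
    { toFun := fun q => Additive.ofMul (Units.mk0 (Complex.exp (2 * Real.pi * Complex.I * q))
        (Complex.exp_ne_zero _))
      map_zero' := by
        apply Additive.toMul.injective
        ext
        simp
      map_add' := fun q r => by
        apply Additive.toMul.injective
        ext
        simp [mul_add, Complex.exp_add] }
  have hf : ∀ q : ℚ, ((Additive.toMul (f q) : ℂˣ) : ℂ) =
      Complex.exp (2 * Real.pi * Complex.I * q) := fun q => rfl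
  have hker : AddSubgroup.zmultiples (1 : ℚ) ≤ f.ker := by
    rw [AddSubgroup.zmultiples_le]
    change f 1 = 0
    apply Additive.toMul.injective
    ext
    rw [hf]
    simp [Complex.exp_two_pi_mul_I]
  let F : AddCircle (1 : ℚ) →+ Additive ℂˣ :=
    QuotientAddGroup.lift (AddSubgroup.zmultiples (1 : ℚ)) f hker
  refine ⟨fun x => ((Additive.toMul (F x) : ℂˣ) : ℂ), fun x y => ?_, ?_, fun x hx => ?_⟩
  · simp only [map_add, toMul_add, Units.val_mul]
  · simp only [map_zero, toMul_zero, Units.val_one]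
  · obtain ⟨q, rfl⟩ := QuotientAddGroup.mk_surjective x
    have h1 : F (QuotientAddGroup.mk q) = f q := rfl
    have hx' : ((Additive.toMul (F (QuotientAddGroup.mk q)) : ℂˣ) : ℂ) = 1 := hx
    rw [h1, hf, Complex.exp_eq_one_iff] at hx'
    obtain ⟨n, hn⟩ := hx'
    refine (QuotientAddGroup.eq_zero_iff _).2 (AddSubgroup.mem_zmultiples_iff.2 ⟨n, ?_⟩)
    have h2 : (2 * Real.pi * Complex.I : ℂ) ≠ 0 := Complex.two_pi_I_ne_zero
    have h3 : (q : ℂ) = n := by
      apply mul_left_cancel₀ h2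
      rw [hn]
      ring
    rw [zsmul_one]
    exact_mod_cast h3.symm

variable {O : Type}

/-- Sums of products over the divisors below `E`. -/
private theorem absN_box (E : O →₀ ℕ) (f : O → ℕ → ℂ) :
    ∑ E' ∈ box E, ∏ o ∈ E.support, f o (E' o) =
      ∏ o ∈ E.support, ∑ a ∈ Finset.range (E o + 1), f o a := by
  classical
  rw [Finset.prod_sum]
  unfold box Finset.finsupp
  rw [Finset.sum_map]
  refine Finset.sum_congr rfl fun p hp => ?_
  change ∏ o ∈ E.support, f o (Finsupp.indicator E.support p o) = _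
  rw [← Finset.prod_attach]
  refine Finset.prod_congr rfl fun x _ => ?_
  congr 1
  exact Finsupp.indicator_of_mem x.2 _

private theorem absN_F_zero (ζ : ℂ) (d k : ℕ) : PowerSeries.coeff 0 (absN_F ζ d k) = 1 := by
  rw [absN_F, PowerSeries.coeff_zero_eq_constantCoeff, map_prod, Finset.prod_eq_one]
  intro i _
  rw [← PowerSeries.coeff_zero_eq_constantCoeff_apply, absN_geo, PowerSeries.coeff_mk, pow_zero]

private theorem absN_F_succ (ζ : ℂ) (d k m : ℕ) : PowerSeries.coeff m (absN_F ζ d (k + 1)) =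
    ∑ a ∈ Finset.range (m + 1), PowerSeries.coeff (m - a) (absN_F ζ d k) * ζ ^ (k * (a * d)) := by
  rw [absN_F, Finset.prod_range_succ, mul_comm, PowerSeries.coeff_mul,
    Finset.Nat.sum_antidiagonal_eq_sum_range_succ (fun i j => PowerSeries.coeff i
      (absN_geo (ζ ^ (k * d))) * PowerSeries.coeff j (∏ x ∈ Finset.range k, absN_geo (ζ ^ (x * d))))]
  refine Finset.sum_congr rfl fun a _ => ?_
  rw [absN_geo, PowerSeries.coeff_mk, mul_comm, ← pow_mul]
  congr 2
  ring

open Classical in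
/-- `λ_k(E)`, recursively. -/
private noncomputable def absN_lam (ζ : ℂ) (d : O → ℕ) : ℕ → (O →₀ ℕ) → ℂ
  | 0 => fun E => if E = 0 then 1 else 0
  | k + 1 => fun E => ∑ E' ∈ box E, absN_lam ζ d k (E - E') * ζ ^ (k * dgn d E')

private theorem absN_lam_eq (ζ : ℂ) (d : O → ℕ) (k : ℕ) (E : O →₀ ℕ) : absN_lam ζ d k E =
    ∏ o ∈ E.support, PowerSeries.coeff (E o) (absN_F ζ (d o) k) := by
  classical
  induction k generalizing E with
  | zero =>
    change (if E = 0 then (1 : ℂ) else 0) = _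
    by_cases hE : E = 0
    · rw [if_pos hE, hE]
      simp
    · rw [if_neg hE]
      obtain ⟨o, ho⟩ := Finsupp.support_nonempty_iff.2 hE
      symm
      apply Finset.prod_eq_zero ho
      rw [absN_F, Finset.prod_range_zero, PowerSeries.coeff_one,
        if_neg (Finsupp.mem_support_iff.1 ho)]
  | succ k ih =>
    change ∑ E' ∈ box E, absN_lam ζ d k (E - E') * ζ ^ (k * dgn d E') = _
    have h1 : ∀ E' ∈ box E, absN_lam ζ d k (E - E') * ζ ^ (k * dgn d E') =
        ∏ o ∈ E.support, (PowerSeries.coeff (E o - E' o) (absN_F ζ (d o) k) *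
          ζ ^ (k * (E' o * d o))) := by
      intro E' hE'
      rw [mem_box] at hE'
      rw [ih, Finset.prod_mul_distrib]
      congr 1
      · have h2 : (E - E').support ⊆ E.support := by
          intro o ho
          rw [Finsupp.mem_support_iff] at ho ⊢
          intro h
          apply ho
          rw [Finsupp.tsub_apply, h, Nat.zero_sub]
        rw [Finset.prod_subset h2]
        · rfl
        · intro o _ ho
          rw [Finsupp.notMem_support_iff] at ho
          rw [ho]
          exact absN_F_zero _ _ _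
      · rw [Finset.prod_pow_eq_pow_sum, ← Finset.mul_sum]
        congr 2
        unfold dgn
        exact Finsupp.sum_of_support_subset _ (Finsupp.support_mono hE') _
          (fun o _ => zero_mul _)
    rw [Finset.sum_congr rfl h1, absN_box E (fun o a => PowerSeries.coeff (E o - a)
      (absN_F ζ (d o) k) * ζ ^ (k * (a * d o)))]
    exact Finset.prod_congr rfl fun o _ => (absN_F_succ ζ (d o) k (E o)).symm

/-- The sums over the divisors of degree `N` of a convolution. -/
private theorem absN_conv (d : O → ℕ) (X : ℕ → Finset (O →₀ ℕ))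
    (hX : ∀ n E, E ∈ X n ↔ dgn d E = n) (u v : (O →₀ ℕ) → ℂ) (N : ℕ) :
    ∑ E ∈ X N, ∑ E' ∈ box E, u (E - E') * v E' =
      ∑ p ∈ Finset.HasAntidiagonal.antidiagonal N, (∑ E ∈ X p.1, u E) * ∑ E ∈ X p.2, v E := by
  classical
  have h1 : ∀ p ∈ Finset.HasAntidiagonal.antidiagonal N,
      (∑ E ∈ X p.1, u E) * ∑ E ∈ X p.2, v E = ∑ q ∈ X p.1 ×ˢ X p.2, u q.1 * v q.2 := by
    intro p _
    rw [Finset.sum_mul_sum, ← Finset.sum_product']
  rw [Finset.sum_congr rfl h1, Finset.sum_sigma', Finset.sum_sigma']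
  symm
  refine Finset.sum_bij' (fun x _ => (⟨x.2.1 + x.2.2, x.2.2⟩ : Σ _ : O →₀ ℕ, O →₀ ℕ))
    (fun y _ => (⟨(dgn d (y.1 - y.2), dgn d y.2), (y.1 - y.2, y.2)⟩ :
      Σ _ : ℕ × ℕ, (O →₀ ℕ) × (O →₀ ℕ))) ?_ ?_ ?_ ?_ ?_
  · rintro ⟨p, q⟩ h
    rw [Finset.mem_sigma, Finset.HasAntidiagonal.mem_antidiagonal, Finset.mem_product] at h
    rw [Finset.mem_sigma, hX, dgn_add, mem_box]
    refine ⟨?_, ?_⟩
    · change dgn d q.1 + dgn d q.2 = N
      rw [(hX _ _).1 h.2.1, (hX _ _).1 h.2.2]
      exact h.1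
    · exact le_add_self
  · rintro ⟨E, E'⟩ h
    rw [Finset.mem_sigma, hX, mem_box] at h
    rw [Finset.mem_sigma, Finset.HasAntidiagonal.mem_antidiagonal, Finset.mem_product]
    refine ⟨?_, (hX _ _).2 rfl, (hX _ _).2 rfl⟩
    change dgn d (E - E') + dgn d E' = N
    rw [← dgn_add, tsub_add_cancel_of_le h.2]
    exact h.1
  · rintro ⟨⟨i, j⟩, ⟨E, E'⟩⟩ h
    rw [Finset.mem_sigma, Finset.HasAntidiagonal.mem_antidiagonal, Finset.mem_product, hX, hX] at h
    simp only [add_tsub_cancel_right]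
    have h1 : dgn d E = i := h.2.1
    have h2 : dgn d E' = j := h.2.2
    rw [h1, h2]
  · rintro ⟨E, E'⟩ h
    rw [Finset.mem_sigma, hX, mem_box] at h
    simp only [tsub_add_cancel_of_le h.2]
  · rintro ⟨p, q⟩ h
    simp only [add_tsub_cancel_right]

theorem absN {O : Type} (n : ℕ) (hn0 : 0 < n) (d : O → ℕ) (hd : ∀ o, 0 < d o)
    (hfin : ∀ m, {o | d o ≤ m}.Finite) [hO : Nonempty O] (P : AddSubgroup (O →₀ ℤ))
    (hP : ∀ D ∈ P, dg d D = 0) (N0 : ℕ)
    (hn : ∀ D D' : O →₀ ℤ, dg d D = dg d D' → (N0 : ℤ) ≤ dg d D →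
      Nat.card {E : O →₀ ℕ // toZ E - D ∈ P} = Nat.card {E : O →₀ ℕ // toZ E - D' ∈ P})
    (D₀ : O →₀ ℤ) (hD₀ : dg d D₀ = 0) :
    ∃ A ∈ P, ∃ B : O →₀ ℤ, (∀ o, (n : ℤ) ∣ d o * B o) ∧ D₀ = A + B := by
  classical
  by_contra hcon
  push Not at hcon
  -- the subgroup of the divisors `B` with `n ∣ d o * B o`
  let B : AddSubgroup (O →₀ ℤ) :=
    { carrier := {D | ∀ o, (n : ℤ) ∣ d o * D o}
      zero_mem' := fun o => by simp
      add_mem' := fun {D D'} h h' o => by
        rw [Finsupp.add_apply, mul_add]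
        exact dvd_add (h o) (h' o)
      neg_mem' := fun {D} h o => by
        rw [Finsupp.neg_apply, mul_neg]
        exact (dvd_neg).2 (h o) }
  have hnot : D₀ ∉ P ⊔ B := by
    intro h
    obtain ⟨A, hA, C, hC, h⟩ := AddSubgroup.mem_sup.1 h
    exact hcon A hA C hC h.symm
  -- the character
  have hne : (QuotientAddGroup.mk D₀ : (O →₀ ℤ) ⧸ (P ⊔ B)) ≠ 0 :=
    fun h => hnot ((QuotientAddGroup.eq_zero_iff _).1 h)
  obtain ⟨c, hc⟩ := CharacterModule.exists_character_apply_ne_zero_of_ne_zero hne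
  obtain ⟨e, he1, he2, he3⟩ := absN_e
  let η : (O →₀ ℤ) → ℂ := fun D => e (c (QuotientAddGroup.mk D : (O →₀ ℤ) ⧸ (P ⊔ B)))
  have hηadd : ∀ D D', η (D + D') = η D * η D' := fun D D' => by
    change e (c (QuotientAddGroup.mk (D + D'))) = _
    rw [QuotientAddGroup.mk_add, map_add, he1]
  have hη0 : ∀ D ∈ P ⊔ B, η D = 1 := by
    intro D hD
    change e (c (QuotientAddGroup.mk D)) = 1
    rw [(QuotientAddGroup.eq_zero_iff _).2 hD, map_zero, he2]
  have hηP : ∀ D ∈ P, η D = 1 := fun D hD => hη0 D ((le_sup_left : P ≤ P ⊔ B) hD)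
  have hηB : ∀ D ∈ B, η D = 1 := fun D hD => hη0 D ((le_sup_right : B ≤ P ⊔ B) hD)
  have hηD : η D₀ ≠ 1 := fun h => hc (he3 _ h)
  -- the finite sets
  let X : ℕ → Finset (O →₀ ℕ) := fun n => (finite_eff d hd hfin n).toFinset
  have hX : ∀ n E, E ∈ X n ↔ dgn d E = n := fun n E => by
    rw [Set.Finite.mem_toFinset]
    exact Iff.rfl
  let χ : (O →₀ ℕ) → ℂ := fun E => η (toZ E)
  have hχadd : ∀ E E', χ (E + E') = χ E * χ E' := fun E E' => by
    change η (toZ (E + E')) = _
    rw [toZ_add, hηadd]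
  let a : ℕ → ℂ := fun j => ∑ E ∈ X j, χ E
  -- claim 1
  have ha : ∀ j, N0 ≤ j → a j = 0 := by
    intro j hj
    rcases (X j).eq_empty_or_nonempty with he | ⟨E₁, hE₁⟩
    · change ∑ E ∈ X j, χ E = 0
      rw [he, Finset.sum_empty]
    set m : ℕ := Nat.card {E : O →₀ ℕ // toZ E - toZ E₁ ∈ P} with hmdef
    have hcard : ∀ D : O →₀ ℤ, dg d D = j → ((X j).filter fun E => toZ E - D ∈ P).card = m := by
      intro D hD
      rw [hmdef, ← hn D (toZ E₁) (by rw [hD, dg_toZ, (hX j E₁).1 hE₁])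
        (by rw [hD]; exact_mod_cast hj)]
      symm
      apply Nat.subtype_card
      intro E
      rw [Finset.mem_filter, hX]
      refine ⟨fun h => h.2, fun h => ⟨?_, h⟩⟩
      have h1 := hP _ h
      rw [dg_sub, dg_toZ, hD, sub_eq_zero] at h1
      exact_mod_cast h1
    have hm0 : m ≠ 0 := by
      rw [← hcard (toZ E₁) (by rw [dg_toZ, (hX j E₁).1 hE₁])]
      apply Finset.card_ne_zero_of_mem (a := E₁)
      rw [Finset.mem_filter, sub_self]
      exact ⟨hE₁, P.zero_mem⟩
    have h1 : ∑ E ∈ X j, ∑ E' ∈ X j, (if toZ E' - toZ E - D₀ ∈ P then χ E else 0) = m * a j := by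
      have : ∀ E ∈ X j, ∑ E' ∈ X j, (if toZ E' - toZ E - D₀ ∈ P then χ E else 0) = m * χ E := by
        intro E hE
        rw [← Finset.sum_filter, Finset.sum_const, nsmul_eq_mul]
        congr 2
        rw [← hcard (toZ E + D₀) (by rw [dg_add, hD₀, dg_toZ, (hX j E).1 hE, add_zero])]
        congr 1
        ext E'
        rw [Finset.mem_filter, Finset.mem_filter, sub_sub]
      rw [Finset.sum_congr rfl this, ← Finset.mul_sum]
    have h2 : (∑ E ∈ X j, ∑ E' ∈ X j, (if toZ E' - toZ E - D₀ ∈ P then χ E else 0)) * η D₀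
        = m * a j := by
      rw [Finset.sum_comm, Finset.sum_mul]
      have : ∀ E' ∈ X j, (∑ E ∈ X j, (if toZ E' - toZ E - D₀ ∈ P then χ E else 0)) * η D₀
          = m * χ E' := by
        intro E' hE'
        have h3 : ∀ E ∈ X j, (if toZ E' - toZ E - D₀ ∈ P then χ E else 0) * η D₀
            = if toZ E' - toZ E - D₀ ∈ P then χ E' else 0 := by
          intro E _
          split_ifs with h
          · have h4 := hηP _ h
            have h5 : toZ E' = (toZ E' - toZ E - D₀) + (toZ E + D₀) := by abel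
            change η (toZ E) * η D₀ = η (toZ E')
            rw [h5, hηadd, h4, one_mul, hηadd]
          · rw [zero_mul]
        rw [Finset.sum_mul, Finset.sum_congr rfl h3, ← Finset.sum_filter, Finset.sum_const,
          nsmul_eq_mul]
        congr 2
        rw [← hcard (toZ E' - D₀) (by rw [dg_sub, hD₀, dg_toZ, (hX j E').1 hE', sub_zero])]
        congr 1
        ext E
        rw [Finset.mem_filter, Finset.mem_filter]
        refine and_congr_right fun _ => ?_
        rw [← P.neg_mem_iff]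
        have : -(toZ E' - toZ E - D₀) = toZ E - (toZ E' - D₀) := by abel
        rw [this]
      rw [Finset.sum_congr rfl this, ← Finset.mul_sum]
    rw [h1] at h2
    have h3 : (m : ℂ) * a j * (η D₀ - 1) = 0 := by
      rw [mul_sub, h2, mul_one, sub_self]
    rcases mul_eq_zero.1 h3 with h4 | h4
    · rcases mul_eq_zero.1 h4 with h5 | h5
      · exact absurd (by exact_mod_cast h5) hm0
      · exact h5
    · exact absurd (sub_eq_zero.1 h4) hηD
  -- a primitive root of unity
  obtain ⟨ζ, hζ⟩ : ∃ ζ : ℂ, IsPrimitiveRoot ζ n := ⟨_, Complex.isPrimitiveRoot_exp n hn0.ne'⟩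
  -- claim 2
  have hb : ∀ k N, k * N0 < N → ∑ E ∈ X N, χ E * absN_lam ζ d k E = 0 := by
    intro k
    induction k with
    | zero =>
      intro N hN
      refine Finset.sum_eq_zero fun E hE => ?_
      change χ E * (if E = 0 then (1 : ℂ) else 0) = 0
      rw [if_neg, mul_zero]
      rintro rfl
      have h1 := (hX N 0).1 hE
      have h2 : dgn d (0 : O →₀ ℕ) = 0 := Finsupp.sum_zero_index
      omega
    | succ k ih =>
      intro N hN
      have h1 : ∀ E ∈ X N, χ E * absN_lam ζ d (k + 1) E =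
          ∑ E' ∈ box E, (χ (E - E') * absN_lam ζ d k (E - E')) *
            (χ E' * ζ ^ (k * dgn d E')) := by
        intro E _
        change χ E * ∑ E' ∈ box E, absN_lam ζ d k (E - E') * ζ ^ (k * dgn d E') = _
        rw [Finset.mul_sum]
        refine Finset.sum_congr rfl fun E' hE' => ?_
        rw [mem_box] at hE'
        have h2 : χ E = χ (E - E') * χ E' := by
          rw [← hχadd, tsub_add_cancel_of_le hE']
        rw [h2]
        ring
      rw [Finset.sum_congr rfl h1, absN_conv d X hX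
        (fun E => χ E * absN_lam ζ d k E) (fun E' => χ E' * ζ ^ (k * dgn d E')) N]
      refine Finset.sum_eq_zero fun p hp => ?_
      rw [Finset.HasAntidiagonal.mem_antidiagonal] at hp
      rcases lt_or_ge (k * N0) p.1 with h | h
      · rw [ih _ h, zero_mul]
      · have h3 : N0 ≤ p.2 := by
          rw [add_mul, one_mul] at hN
          omega
        have h4 : ∑ E ∈ X p.2, χ E * ζ ^ (k * dgn d E) = ζ ^ (k * p.2) * a p.2 := by
          change _ = ζ ^ (k * p.2) * ∑ E ∈ X p.2, χ E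
          rw [Finset.mul_sum]
          refine Finset.sum_congr rfl fun E hE => ?_
          rw [(hX _ _).1 hE, mul_comm]
        rw [h4, ha _ h3, mul_zero, mul_zero]
  -- conclusion
  obtain ⟨o⟩ := hO
  have hloc := fun d' => absN_F_good hn0 hζ d'
  choose cf hcf1 hcf2 hcf3 using hloc
  have hlam : ∀ E : O →₀ ℕ, absN_lam ζ d n E = ((∏ o ∈ E.support, cf (d o) (E o) : ℕ) : ℂ) := by
    intro E
    rw [absN_lam_eq]
    push_cast
    exact Finset.prod_congr rfl fun o _ => hcf1 _ _
  have hdvd : ∀ d' m : ℕ, n / n.gcd d' ∣ m → n ∣ d' * m := by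
    intro d' m ⟨t, ht⟩
    obtain ⟨s, hs⟩ := Nat.gcd_dvd_right n d'
    refine ⟨s * t, ?_⟩
    have h1 : n / n.gcd d' * n.gcd d' = n := Nat.div_mul_cancel (Nat.gcd_dvd_left n d')
    calc d' * m = (n.gcd d' * s) * (n / n.gcd d' * t) := by rw [← hs, ← ht]
      _ = (n / n.gcd d' * n.gcd d') * (s * t) := by ring
      _ = n * (s * t) := by rw [h1]
  have hχ1 : ∀ E : O →₀ ℕ, (∀ o, n / n.gcd (d o) ∣ E o) → χ E = 1 := by
    intro E hE
    apply hηB
    intro o
    rw [toZ_apply]
    exact_mod_cast hdvd _ _ (hE o)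
  have hterm : ∀ E : O →₀ ℕ, χ E * absN_lam ζ d n E =
      ((∏ o ∈ E.support, cf (d o) (E o) : ℕ) : ℂ) := by
    intro E
    by_cases hE : ∀ o, n / n.gcd (d o) ∣ E o
    · rw [hχ1 E hE, one_mul, hlam]
    · push Not at hE
      obtain ⟨o, ho⟩ := hE
      have h1 : (∏ o ∈ E.support, cf (d o) (E o)) = 0 := by
        apply Finset.prod_eq_zero (i := o)
        · rw [Finsupp.mem_support_iff]
          intro h
          rw [h] at ho
          exact ho (dvd_zero _)
        · exact hcf2 _ _ ho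
      rw [hlam, h1, Nat.cast_zero, mul_zero]
  let E₁ : O →₀ ℕ := Finsupp.single o (n * (N0 + 1))
  have hE₁ : 1 ≤ ∏ o' ∈ E₁.support, cf (d o') (E₁ o') := by
    refine Finset.one_le_prod' fun o' ho' => ?_
    have h3 : o' = o := Finset.mem_singleton.1 (Finsupp.support_single_subset ho')
    rw [h3]
    change 1 ≤ cf (d o) (Finsupp.single o (n * (N0 + 1)) o)
    rw [Finsupp.single_eq_same]
    apply hcf3
    exact (Nat.div_dvd_of_dvd (Nat.gcd_dvd_left n (d o))).trans (Nat.dvd_mul_right _ _)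
  have hmem : E₁ ∈ X (n * (N0 + 1) * d o) := by
    rw [hX]
    change (Finsupp.single o (n * (N0 + 1))).sum (fun o m => m * d o) = _
    rw [Finsupp.sum_single_index (zero_mul _)]
  have hN : n * N0 < n * (N0 + 1) * d o := by
    have h1 : n * (N0 + 1) ≤ n * (N0 + 1) * d o := Nat.le_mul_of_pos_right _ (hd o)
    have h2 : n * N0 < n * (N0 + 1) := Nat.mul_lt_mul_of_pos_left (Nat.lt_succ_self N0) hn0
    omega
  have hfinal := hb n _ hN
  rw [Finset.sum_congr rfl fun E _ => hterm E, ← Nat.cast_sum] at hfinal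
  have h5 : ∑ E ∈ X (n * (N0 + 1) * d o), ∏ o ∈ E.support, cf (d o) (E o) = 0 := by
    exact_mod_cast hfinal
  have h6 := Finset.sum_eq_zero_iff.1 h5 E₁ hmem
  omega

end Pool.Agent.SmL.C
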