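import Pool.Agent.Lib.RD.Krull

/-!
# SMITH-L, block C, module C1 (Tsen)

A finite extension `F` of `κ(t)`, `κ` algebraically closed, is a `C1` field: a homogeneous
polynomial of degree `d` in `n > d > 0` variables has a nontrivial zero.
-/

set_option autoImplicit false

namespace Pool.Agent.SmL.C

private theorem c1_coeff_mul {κ A σ : Type} [Field κ] [CommRing A] [Algebra κ A]
    (V V' : Submodule κ A) (f g : MvPolynomial σ A) (hf : ∀ μ, f.coeff μ ∈ V)
    (hg : ∀ μ, g.coeff μ ∈ V') (μ : σ →₀ ℕ) : (f * g).coeff μ ∈ V * V' := by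
  classical
  rw [MvPolynomial.coeff_mul]
  exact Submodule.sum_mem _ fun x _ => Submodule.mul_mem_mul (hf _) (hg _)

private theorem c1_coeff_one {κ A σ : Type} [Field κ] [CommRing A] [Algebra κ A] (μ : σ →₀ ℕ) :
    (1 : MvPolynomial σ A).coeff μ ∈ (1 : Submodule κ A) := by
  classical
  rw [MvPolynomial.coeff_one]
  split_ifs
  · exact Submodule.mem_one.2 ⟨1, by simp⟩
  · exact Submodule.zero_mem _

private theorem c1_coeff_pow {κ A σ : Type} [Field κ] [CommRing A] [Algebra κ A]
    (V : Submodule κ A) (f : MvPolynomial σ A) (hf : ∀ μ, f.coeff μ ∈ V) (k : ℕ) :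
    ∀ μ, (f ^ k).coeff μ ∈ V ^ k := by
  induction k with
  | zero =>
    intro μ
    rw [pow_zero, pow_zero]
    exact c1_coeff_one μ
  | succ k ih =>
    intro μ
    rw [pow_succ, pow_succ]
    exact c1_coeff_mul _ _ _ _ ih hf μ

private theorem c1_coeff_prod {κ A σ τ : Type} [Field κ] [CommRing A] [Algebra κ A]
    (V : Submodule κ A) (L : τ → MvPolynomial σ A) (hL : ∀ i μ, (L i).coeff μ ∈ V) (m : τ → ℕ)
    (T : Finset τ) : ∀ μ, (∏ i ∈ T, L i ^ m i).coeff μ ∈ V ^ (∑ i ∈ T, m i) := by
  classical
  induction T using Finset.induction_on with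
  | empty =>
    intro μ
    rw [Finset.prod_empty, Finset.sum_empty, pow_zero]
    exact c1_coeff_one μ
  | insert i T hi ih =>
    intro μ
    rw [Finset.prod_insert hi, Finset.sum_insert hi, pow_add]
    exact c1_coeff_mul _ _ _ _ (c1_coeff_pow V (L i) (hL i) (m i)) ih μ

/-- counting argument: forms of degree `d` in more variables than equations -/
private theorem c1_count {κ A ι R : Type} [Field κ] [IsAlgClosed κ] [CommRing A] [Algebra κ A]
    [Fintype ι] [Fintype R] (w : ι → A) (hw : LinearIndependent κ w) (u : R → A) {n d : ℕ}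
    (hcard : Fintype.card R < n * Fintype.card ι) (P : MvPolynomial (Fin n) A)
    (hP : P.IsHomogeneous d) (hd : 0 < d)
    (hS : ∀ m, ∀ y ∈ (Submodule.span κ (Set.range w)) ^ d,
      P.coeff m * y ∈ Submodule.span κ (Set.range u)) :
    ∃ x : Fin n → A, x ≠ 0 ∧ MvPolynomial.eval x P = 0 := by
  classical
  set s := Fintype.card R with hs
  obtain ⟨e⟩ : Nonempty (Fin (s + 1) ↪ Fin n × ι) := by
    rw [Function.Embedding.nonempty_iff_card_le, Fintype.card_fin, Fintype.card_prod,
      Fintype.card_fin]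
    omega
  let eR : R ≃ Fin s := Fintype.equivFin R
  let S : Submodule κ A := Submodule.span κ (Set.range w)
  let L : Fin n → MvPolynomial (Fin (s + 1)) A := fun i =>
    ∑ q, if (e q).1 = i then MvPolynomial.C (w (e q).2) * MvPolynomial.X q else 0
  have hL1 : ∀ i, (L i).IsHomogeneous 1 := by
    intro i
    refine MvPolynomial.IsHomogeneous.sum _ _ _ fun q _ => ?_
    split_ifs
    · have := (MvPolynomial.isHomogeneous_C (Fin (s + 1)) (w (e q).2)).mul
        (MvPolynomial.isHomogeneous_X A q)
      simpa using this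
    · exact MvPolynomial.isHomogeneous_zero _ _ _
  have hLc : ∀ i μ, (L i).coeff μ ∈ S := by
    intro i μ
    simp only [L, MvPolynomial.coeff_sum]
    refine Submodule.sum_mem _ fun q _ => ?_
    split_ifs
    · rw [MvPolynomial.coeff_C_mul, MvPolynomial.coeff_X]
      split_ifs
      · rw [mul_one]
        exact Submodule.subset_span ⟨_, rfl⟩
      · rw [mul_zero]
        exact Submodule.zero_mem _
    · rw [MvPolynomial.coeff_zero]
      exact Submodule.zero_mem _
  let P' : MvPolynomial (Fin (s + 1)) A :=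
    ∑ m ∈ P.support, MvPolynomial.C (P.coeff m) * ∏ i, L i ^ m i
  have hdeg : ∀ m ∈ P.support, ∑ i, m i = d := by
    intro m hm
    have h1 := hP (MvPolynomial.mem_support_iff.1 hm)
    rw [← h1, Finsupp.weight_apply, Finsupp.sum_fintype _ _ (fun i => by simp)]
    simp
  have hP' : P'.IsHomogeneous d := by
    refine MvPolynomial.IsHomogeneous.sum _ _ _ fun m hm => ?_
    have h1 : (∏ i, L i ^ m i).IsHomogeneous (∑ i, 1 * m i) :=
      MvPolynomial.IsHomogeneous.prod _ _ _ fun i _ => (hL1 i).pow (m i)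
    have h2 := (MvPolynomial.isHomogeneous_C (Fin (s + 1)) (P.coeff m)).mul h1
    simpa [hdeg m hm] using h2
  have hc : ∀ μ, P'.coeff μ ∈ Submodule.span κ (Set.range u) := by
    intro μ
    simp only [P', MvPolynomial.coeff_sum]
    refine Submodule.sum_mem _ fun m hm => ?_
    rw [MvPolynomial.coeff_C_mul]
    apply hS m
    have h1 := c1_coeff_prod S L hLc (fun i => m i) Finset.univ μ
    rw [hdeg m hm] at h1
    exact h1
  simp only [Submodule.mem_span_range_iff_exists_fun] at hc
  choose γ hγ using hc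
  let g : Fin s → MvPolynomial (Fin (s + 1)) κ := fun r =>
    ∑ μ ∈ P'.support, MvPolynomial.monomial μ (γ μ (eR.symm r))
  obtain ⟨v, hv0, hv⟩ := Pool.Agent.RD.exists_common_zero g (fun _ => d) (fun _ => hd) (by
    intro r
    refine MvPolynomial.IsHomogeneous.sum _ _ _ fun μ hμ => ?_
    refine MvPolynomial.isHomogeneous_monomial _ ?_
    have h1 := hP' (MvPolynomial.mem_support_iff.1 hμ)
    rw [← h1, Finsupp.weight_apply, Finsupp.degree_eq_sum,
      Finsupp.sum_fintype _ _ (fun i => by simp)]
    simp)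
  let x : Fin n → A := fun i => ∑ q, if (e q).1 = i then v q • w (e q).2 else 0
  have hxL : ∀ i, MvPolynomial.eval (fun q => algebraMap κ A (v q)) (L i) = x i := by
    intro i
    simp only [L, x, map_sum]
    refine Finset.sum_congr rfl fun q _ => ?_
    split_ifs
    · rw [map_mul, MvPolynomial.eval_C, MvPolynomial.eval_X, Algebra.smul_def, mul_comm]
    · simp
  refine ⟨x, ?_, ?_⟩
  · intro hx
    apply hv0
    funext q
    have h1 : x (e q).1 = 0 := by rw [hx]; rfl
    -- the coordinates
    let ξ : ι → κ := fun p => ∑ q' : Fin (s + 1), if e q' = ((e q).1, p) then v q' else 0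
    have h2 : x (e q).1 = ∑ p, ξ p • w p := by
      simp only [x, ξ, Finset.sum_smul]
      rw [Finset.sum_comm]
      refine Finset.sum_congr rfl fun q' _ => ?_
      by_cases h3 : (e q').1 = (e q).1
      · rw [if_pos h3, Finset.sum_eq_single (e q').2]
        · have h5 : e q' = ((e q).1, (e q').2) := Prod.ext h3 rfl
          rw [if_pos h5]
        · intro p _ hp
          rw [if_neg (fun h => hp (by rw [h])), zero_smul]
        · intro h
          exact absurd (Finset.mem_univ _) h
      · rw [if_neg h3]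
        symm
        refine Finset.sum_eq_zero fun p _ => ?_
        rw [if_neg (fun h => h3 (by rw [h])), zero_smul]
    rw [h2] at h1
    have h4 := Fintype.linearIndependent_iff.1 hw ξ h1 (e q).2
    simp only [ξ] at h4
    rw [Finset.sum_eq_single q] at h4
    · simpa using h4
    · intro q' _ hq'
      rw [if_neg (fun h => hq' (e.injective (by rw [h])))]
    · intro h
      exact absurd (Finset.mem_univ _) h
  · have h1 : MvPolynomial.eval x P =
        MvPolynomial.eval (fun q => algebraMap κ A (v q)) P' := by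
      rw [MvPolynomial.eval_eq']
      simp only [P', map_sum, map_mul, MvPolynomial.eval_C, map_prod, map_pow, hxL]
    rw [h1, MvPolynomial.eval_eq']
    have h2 : ∀ μ ∈ P'.support, P'.coeff μ * ∏ i, (algebraMap κ A (v i)) ^ μ i =
        ∑ r, (γ μ r * ∏ i, v i ^ μ i) • u r := by
      intro μ _
      rw [← hγ μ, Finset.sum_mul]
      refine Finset.sum_congr rfl fun r _ => ?_
      rw [mul_smul, Algebra.smul_def (γ μ r) (u r), Algebra.smul_def (γ μ r),
        Algebra.smul_def (∏ i, v i ^ μ i), map_prod]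
      simp only [map_pow]
      ring
    rw [Finset.sum_congr rfl h2, Finset.sum_comm]
    refine Finset.sum_eq_zero fun r _ => ?_
    rw [← Finset.sum_smul]
    have h3 := hv (eR r)
    simp only [g, map_sum, Equiv.symm_apply_apply] at h3
    have h4 : ∀ μ, MvPolynomial.eval v (MvPolynomial.monomial μ (γ μ r)) =
        γ μ r * ∏ i, v i ^ μ i := by
      intro μ
      rw [MvPolynomial.eval_monomial, Finsupp.prod_fintype _ _ (fun i => by simp)]
    simp only [h4] at h3
    rw [h3, zero_smul]

open Polynomial in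
/-- Tsen: a finite extension of `κ(t)`, `κ` algebraically closed, is a `C1` field. -/
theorem c1_zero {κ F : Type} [Field κ] [IsAlgClosed κ] [Field F] [Algebra (RatFunc κ) F]
    [FiniteDimensional (RatFunc κ) F] {n d : ℕ} (P : MvPolynomial (Fin n) F)
    (hP : P.IsHomogeneous d) (hd : 0 < d) (hdn : d < n) :
    ∃ x : Fin n → F, x ≠ 0 ∧ MvPolynomial.eval x P = 0 := by
  classical
  letI : Algebra κ F := ((algebraMap (RatFunc κ) F).comp (algebraMap κ (RatFunc κ))).toAlgebra
  have : IsScalarTower κ (RatFunc κ) F := IsScalarTower.of_algebraMap_eq fun _ => rfl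
  set e := Module.finrank (RatFunc κ) F with he
  have hepos : 0 < e := Module.finrank_pos
  let ω : Module.Basis (Fin e) (RatFunc κ) F := Module.finBasis (RatFunc κ) F
  let Y : (P.support ⊕ (Fin e × Fin e)) → F :=
    Sum.elim (fun m => P.coeff m.1) (fun p => ω p.1 * ω p.2)
  obtain ⟨δ, hδ⟩ := IsLocalization.exist_integer_multiples_of_finite (nonZeroDivisors κ[X])
    (fun i : (P.support ⊕ (Fin e × Fin e)) × Fin e => (ω.repr (Y i.1) i.2 : RatFunc κ))
  choose f hf using hδ
  set c := Finset.univ.sup fun i => (f i).natDegree with hc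
  have hdeg : ∀ i, (f i).natDegree ≤ c := fun i =>
    Finset.le_sup (f := fun i => (f i).natDegree) (Finset.mem_univ i)
  set D : RatFunc κ := algebraMap κ[X] (RatFunc κ) δ with hD
  have hd0 : D ≠ 0 := by
    rw [hD, Ne, map_eq_zero_iff _ (RatFunc.algebraMap_injective κ)]
    exact nonZeroDivisors.coe_ne_zero δ
  let w : (k N : ℕ) → Fin (N + 1) × Fin e → F := fun k N p =>
    ((RatFunc.X : RatFunc κ) ^ (p.1 : ℕ) / D ^ k) • ω p.2
  let T : ℕ → ℕ → Submodule κ F := fun k N => Submodule.span κ (Set.range (w k N))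
  have hspan : ∀ (k N : ℕ) (g : κ[X]) (l : Fin e), g.natDegree ≤ N →
      ((algebraMap κ[X] (RatFunc κ) g) / D ^ k) • ω l ∈ T k N := by
    intro k N g l hg
    rw [g.as_sum_range' (N + 1) (by omega), map_sum, Finset.sum_div, Finset.sum_smul]
    refine Submodule.sum_mem _ fun m hm => ?_
    have h6 : ((algebraMap κ[X] (RatFunc κ) (monomial m (g.coeff m))) / D ^ k) • ω l
        = g.coeff m • w k N (⟨m, Finset.mem_range.1 hm⟩, l) := by
      rw [← C_mul_X_pow_eq_monomial, map_mul, map_pow, RatFunc.algebraMap_X,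
        RatFunc.algebraMap_C, ← algebraMap_smul (RatFunc κ) (g.coeff m)]
      simp only [w]
      rw [smul_smul, RatFunc.algebraMap_eq_C, mul_div_assoc]
    rw [h6]
    exact Submodule.smul_mem _ _ (Submodule.subset_span ⟨_, rfl⟩)
  have hrepr : ∀ i l, (ω.repr (Y i) l : RatFunc κ) = algebraMap κ[X] (RatFunc κ) (f (i, l)) / D := by
    intro i l
    rw [eq_div_iff hd0, hf (i, l), Algebra.smul_def, mul_comm]
  have hY : ∀ i, Y i ∈ T 1 c := by
    intro i
    rw [← ω.sum_repr (Y i)]
    refine Submodule.sum_mem _ fun l _ => ?_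
    rw [hrepr i l]
    have := hspan 1 c (f (i, l)) l (hdeg _)
    rwa [pow_one] at this
  have hmul : ∀ k N s, T k N * T 0 s ≤ T (k + 1) (N + s + c) := by
    intro k N s
    simp only [T]
    rw [Submodule.span_mul_span, Submodule.span_le]
    rintro _ ⟨_, ⟨p, rfl⟩, _, ⟨q, rfl⟩, rfl⟩
    have h7 : w k N p * w 0 s q = ((RatFunc.X : RatFunc κ) ^ ((p.1 : ℕ) + (q.1 : ℕ)) / D ^ k) •
        Y (Sum.inr (p.2, q.2)) := by
      simp only [w, Y, Sum.elim_inr, pow_zero, div_one]
      rw [smul_mul_smul_comm, pow_add]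
      congr 1
      ring
    show w k N p * w 0 s q ∈ _
    rw [h7, ← ω.sum_repr (Y (Sum.inr (p.2, q.2))), Finset.smul_sum]
    refine Submodule.sum_mem _ fun l _ => ?_
    rw [hrepr, smul_smul]
    have h9 : (RatFunc.X : RatFunc κ) ^ ((p.1 : ℕ) + (q.1 : ℕ)) / D ^ k *
          (algebraMap κ[X] (RatFunc κ) (f (Sum.inr (p.2, q.2), l)) / D)
        = algebraMap κ[X] (RatFunc κ) (X ^ ((p.1 : ℕ) + (q.1 : ℕ)) * f (Sum.inr (p.2, q.2), l)) /
          D ^ (k + 1) := by
      rw [map_mul, map_pow, RatFunc.algebraMap_X, div_mul_div_comm, pow_succ]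
    rw [h9]
    apply hspan
    have h10 := natDegree_mul_le (p := (X : κ[X]) ^ ((p.1 : ℕ) + (q.1 : ℕ)))
      (q := f (Sum.inr (p.2, q.2), l))
    rw [natDegree_X_pow] at h10
    have h11 := hdeg (Sum.inr (p.2, q.2), l)
    have h12 := p.1.isLt
    have h13 := q.1.isLt
    omega
  set s := (d + 1) * c with hs
  have hpow : ∀ m ∈ P.support, ∀ j : ℕ,
      Submodule.span κ {P.coeff m} * (T 0 s) ^ j ≤ T (j + 1) (c + j * (s + c)) := by
    intro m hm j
    induction j with
    | zero =>
      rw [pow_zero, mul_one, Submodule.span_le]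
      rintro _ rfl
      have := hY (Sum.inl ⟨m, hm⟩)
      simpa [Y] using this
    | succ j ih =>
      rw [pow_succ, ← mul_assoc]
      refine (mul_le_mul_left ih _).trans ?_
      have h1 := hmul (j + 1) (c + j * (s + c)) s
      have h2 : c + j * (s + c) + s + c = c + (j + 1) * (s + c) := by ring
      rw [h2] at h1
      exact h1
  have hli0 : LinearIndependent κ (fun j : Fin (s + 1) => (RatFunc.X : RatFunc κ) ^ (j : ℕ)) := by
    have h1 : LinearIndependent κ (fun n : ℕ => (X : κ[X]) ^ n) := by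
      have := (Polynomial.basisMonomials κ).linearIndependent
      simpa [Polynomial.coe_basisMonomials, ← Polynomial.X_pow_eq_monomial] using this
    have h3 := h1.map' ((IsScalarTower.toAlgHom κ κ[X] (RatFunc κ)).toLinearMap)
      (LinearMap.ker_eq_bot.2 (RatFunc.algebraMap_injective κ))
    have h4 := h3.comp (fun j : Fin (s + 1) => (j : ℕ)) Fin.val_injective
    have h5 : (fun j : Fin (s + 1) => (RatFunc.X : RatFunc κ) ^ (j : ℕ))
        = ((IsScalarTower.toAlgHom κ κ[X] (RatFunc κ)).toLinearMap ∘ (fun n : ℕ => (X : κ[X]) ^ n))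
          ∘ (fun j : Fin (s + 1) => (j : ℕ)) := by
      funext j
      simp [RatFunc.algebraMap_X]
    rw [h5]
    exact h4
  have hli : LinearIndependent κ (w 0 s) := by
    have h1 : w 0 s = fun p : Fin (s + 1) × Fin e =>
        ((RatFunc.X : RatFunc κ) ^ (p.1 : ℕ)) • ω p.2 := by
      funext p
      simp [w]
    rw [h1]
    exact linearIndependent_smul hli0 ω.linearIndependent
  refine c1_count (w 0 s) hli (w (d + 1) (c + d * (s + c))) ?_ P hP hd ?_
  · simp only [Fintype.card_prod, Fintype.card_fin]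
    have h1 : c + d * (s + c) + 1 = (d + 1) * s + 1 := by
      rw [hs]
      ring
    rw [h1]
    have h2 : (d + 1) * s + 1 < n * (s + 1) := by
      have h3 : (d + 1) * (s + 1) ≤ n * (s + 1) := Nat.mul_le_mul_right _ hdn
      nlinarith
    calc ((d + 1) * s + 1) * e < (n * (s + 1)) * e := Nat.mul_lt_mul_of_pos_right h2 hepos
      _ = n * ((s + 1) * e) := by ring
  · intro m y hy
    by_cases hm : m ∈ P.support
    · exact hpow m hm d (Submodule.mul_mem_mul (Submodule.mem_span_singleton_self _) hy)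
    · rw [MvPolynomial.notMem_support_iff.1 hm, zero_mul]
      exact Submodule.zero_mem _

end Pool.Agent.SmL.C
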