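import Pool.Agent.Lib.GBU.Pic
import Pool.Agent.Lib.GBU.H.FPl

/-!
# SMITH-L, block C: constant extensions, interface

`CExt k K L n F`: `L / K` is the constant extension of degree `n` of the global function field `K / k`,
`F` = the automorphism which is the Frobenius on the constants, `bel u` = the place of `K` below the
place `u` of `L`.
-/

set_option autoImplicit false

namespace Pool.Agent.SmL.C

open Pool.Agent.BSDFF Pool.Agent.GBC Pool.Agent.GBU Pool.Agent.GBUH

structure CExt (k K L : Type) [Field k] [Field K] [Field L] [Algebra k K] [Algebra k L]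
    [Algebra K L] (n : ℕ) (F : L ≃ₐ[k] L) where
  /-- the place below -/
  bel : Place k L → Place k K
  npos : 0 < n
  surj : Function.Surjective bel
  /-- unramified -/
  ord_bel : ∀ (u : Place k L) (x : K), x ≠ 0 → ord u (algebraMap K L x) = ord (bel u) x
  bel_fp : ∀ u, bel (fp F u) = bel u
  /-- the places above the same place are conjugate -/
  conj : ∀ u u', bel u = bel u' → ∃ i : ℕ, u' = fp (F ^ i) u
  /-- the number of the places above `v` is a multiple of `gcd (n, deg v)` -/
  stab : ∀ u (i : ℕ), fp (F ^ i) u = u → Nat.gcd n (bel u).degree ∣ i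
  comm : ∀ y : K, F (algebraMap K L y) = algebraMap K L y
  fix : ∀ x : L, F x = x → ∃ y : K, algebraMap K L y = x
  pow : F ^ n = 1
  order : ∀ i : ℕ, F ^ i = 1 → n ∣ i
  /-- norms of constants -/
  cst : ∀ c : L, c ≠ 0 → (∀ u : Place k L, ord u c = 0) → F c = c →
    ∃ d : L, d ≠ 0 ∧ (∀ u : Place k L, ord u d = 0) ∧ c = ∏ i ∈ Finset.range n, (F ^ i) d

end Pool.Agent.SmL.C
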