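import Mathlib

/-!
# SMITH-L, block C, module CstN: the norm is surjective for a finite field

`R` a finite field, `F` an automorphism with `F ^ n = 1` and `F ^ i = 1 → n ∣ i`, `c` fixed by `F`:
`c = ∏_{i < n} F^i d`.

PROOF. `S` = the fixed field of `F`, `Q = #S`; `R / S` is Galois with group `⟨F⟩` of order `n`
(Artin), `#R = Q ^ n` and the powers of `F` are the powers of `x ↦ x ^ Q` in some order, so
`∏_{i < n} F^i d = ∏_{i < n} d ^ {Q ^ i} = d ^ {(Q ^ n - 1) / (Q - 1)}`; `Rˣ` is cyclic of order `Q ^ n - 1`,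
so this power map is onto the subgroup of order `Q - 1`, which is `Sˣ`. (Or: Mathlib's surjectivity
of `Algebra.norm` for finite fields and `Algebra.norm_eq_prod_automorphisms`.)
-/

set_option autoImplicit false

namespace Pool.Agent.SmL.C

theorem norm_fin {R : Type*} [Field R] [Finite R] {n : ℕ} (hn : 0 < n) (F : R ≃+* R)
    (hF : F ^ n = 1) (hord : ∀ i : ℕ, F ^ i = 1 → n ∣ i) {c : R} (hc : F c = c) :
    ∃ d : R, c = ∏ i ∈ Finset.range n, (F ^ i) d := by
  classical
  have hfin : IsOfFinOrder F := isOfFinOrder_iff_pow_eq_one.2 ⟨n, hn, hF⟩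
  have hn' : orderOf F = n := Nat.dvd_antisymm (orderOf_dvd_of_pow_eq_one hF)
    (hord _ (pow_orderOf_eq_one F))
  let G : Subgroup (R ≃+* R) := Subgroup.zpowers F
  have hG : Finite G := Finite.of_equiv _ (finEquivZPowers hfin)
  let S : Subfield R := FixedPoints.subfield G R
  have hcS : c ∈ S := by
    rintro ⟨g, hg⟩
    obtain ⟨i, hi⟩ := (finEquivZPowers hfin).surjective ⟨g, hg⟩
    have h1 : g = F ^ (i : ℕ) := by
      have h2 := congrArg Subtype.val hi
      rw [finEquivZPowers_apply] at h2
      exact h2.symm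
    change g c = c
    rw [h1]
    have h2 : ∀ j : ℕ, (F ^ j) c = c := by
      intro j
      induction j with
      | zero => rfl
      | succ j ih => rw [pow_succ, RingAut.mul_apply, hc, ih]
    exact h2 i
  have hGf : Fintype G := Fintype.ofFinite G
  obtain ⟨d, hd⟩ := FiniteField.norm_surjective S R (⟨c, hcS⟩ : S)
  refine ⟨d, ?_⟩
  have h1 : c = algebraMap S R (Algebra.norm S d) := by
    rw [hd]
    rfl
  rw [h1, Algebra.norm_eq_prod_automorphisms,
    ← Equiv.prod_comp (FixedPoints.toAlgAutMulEquiv G R).toEquiv,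
    ← Equiv.prod_comp (finEquivZPowers hfin), Finset.prod_range]
  subst hn'
  rfl

end Pool.Agent.SmL.C
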