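import Pool.Agent.Lib.SmL.C.Def
import Pool.Agent.Lib.SmL.C.CstN
import Pool.Agent.Lib.Ht.RK.Deg
import Pool.Agent.Lib.GBU.H.Const

/-!
# SMITH-L, block C, module CxAlg: the constant extension `L / K` of degree `n`, algebraic part

`L` = the fixed field of `HcK k K Ω n` (`hL`), `F` = the restriction of `fr` to `L` (`hF`).

PROOFS. `cx_pow`: `fr ^ n ∈ HcK n` (`IsFrC.pow`). `cx_order`: the constants `x` of level `n`
(`x ^ (q ^ n) = x`) are in `L` and `fr ^ i x = x ^ (q ^ i)`; if `F ^ i = 1` then `x ^ (q ^ i) = x` for a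
generator of the constants of level `n`, so `n ∣ i` (`exists_genK`, `frob_expK` in `Ht/RK/Deg.lean` for
`n = 2 ^ e`; the proofs work for every `n > 0`). `cx_fix`: every `g ∈ Gal(Om / K)` is `h fr ^ j` with
`h ∈ HcK n`, so `x` is fixed by `Gal(Om / K)` (`InfiniteGalois.mem_bot_iff_fixed`). `cx_cst`: the `x ∈ L`
with `x = 0` or `ord u x = 0` for all `u` form a finite field `R = cstF G'` (`finite_cstF`), stable under `F`
(`F_mem_cstF`), and `F ^ i = 1` on `R` implies `n ∣ i` as before (constants of level `n` have a power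
equal to `1`, so `ord u x = 0`); `norm_fin`.
-/

set_option autoImplicit false

namespace Pool.Agent.SmL.C

open Pool.Agent.BSDFF Pool.Agent.Lib.SmD Pool.Agent.GBU Pool.Agent.GBC Pool.Agent.GBUH

variable {k K L : Type} [Field k] [Finite k] [Field K] [Algebra k K]
  [Field L] [Algebra k L] [Algebra K L]
  {Om : Type} [Field Om] [Algebra K Om] [IsSepClosure K Om] [Algebra L Om]
  [IsScalarTower K L Om] {n : ℕ}
  (hL : ∀ g : Om ≃ₐ[K] Om, g ∈ HcK k K Om n ↔ ∀ x : L, g (algebraMap L Om x) = algebraMap L Om x)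
  (hL' : ∀ x : Om, (∀ g ∈ HcK k K Om n, g x = x) → ∃ y : L, algebraMap L Om y = x)
  {fr : Om ≃ₐ[K] Om} (hfr : IsFrC k fr) {F : L ≃ₐ[k] L}
  (hF : ∀ x : L, algebraMap L Om (F x) = fr (algebraMap L Om x))

include hF in
private theorem CxAlg_it (i : ℕ) (x : L) :
    algebraMap L Om ((F ^ i) x) = (fr ^ i) (algebraMap L Om x) := by
  induction i with
  | zero => rfl
  | succ i ih => rw [pow_succ', pow_succ', AlgEquiv.mul_apply, AlgEquiv.mul_apply, hF, ih]

private theorem CxAlg_gen (k K Om : Type) [Field k] [Finite k] [Field K] [Algebra k K]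
    [Field Om] [Algebra K Om] [IsSepClosed Om] {n : ℕ} (h2 : (2 : k) ≠ 0) (hn : 0 < n) :
    ∃ ζ : Om, ζ ^ (Nat.card k ^ n) = ζ ∧ ζ ≠ 0 ∧ ∀ a b : ℕ,
    ζ ^ (Nat.card k ^ a) = ζ ^ (Nat.card k ^ b) → a ≡ b [MOD n] := by
  obtain ⟨p, f, hp, hf, hq, hOm⟩ := card_eq_pow_C k K Om
  have h3 := Pool.Agent.Ht.RK.three_le h2
  have hQ1 : 1 ≤ Nat.card k ^ n := Nat.one_le_pow _ _ (by omega)
  have hcast : ((Nat.card k ^ n - 1 : ℕ) : Om) = -1 := by
    rw [Nat.cast_sub hQ1, Nat.cast_pow, hq, Nat.cast_pow, CharP.cast_eq_zero, zero_pow hf.ne',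
      zero_pow hn.ne', Nat.cast_one, zero_sub]
  have : NeZero ((Nat.card k ^ n - 1 : ℕ) : Om) := ⟨by
    rw [hcast]
    exact neg_ne_zero.2 one_ne_zero⟩
  obtain ⟨ζ, hζ⟩ := HasEnoughRootsOfUnity.exists_primitiveRoot Om (Nat.card k ^ n - 1)
  have h4 : 2 ≤ Nat.card k ^ n := le_trans (by omega) (Nat.le_self_pow hn.ne' _)
  refine ⟨ζ, ?_, hζ.ne_zero (by omega), fun a b h =>
    Pool.Agent.Ht.RK.frob_expK (k := k) hn hζ h3 h⟩
  have h1 : Nat.card k ^ n = (Nat.card k ^ n - 1) + 1 := by omega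
  rw [h1, pow_succ, hζ.pow_eq_one, one_mul]

include hL' hfr hF in
private theorem CxAlg_y (h2 : (2 : k) ≠ 0) (hn : 0 < n) :
    ∃ y : L, y ^ (Nat.card k ^ n) = y ∧ y ≠ 0 ∧ ∀ i : ℕ, (F ^ i) y = y → n ∣ i := by
  have hsc : IsSepClosed Om := IsSepClosure.sep_closed K
  obtain ⟨ζ, h1, h0, h3⟩ := CxAlg_gen k K Om h2 hn
  obtain ⟨y, hy⟩ := hL' ζ fun g hg => hg ζ h1
  refine ⟨y, ?_, ?_, fun i hi => ?_⟩
  · apply (algebraMap L Om).injective
    rw [map_pow, hy, h1]
  · rintro rfl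
    apply h0
    rw [← hy, map_zero]
  · have h4 := CxAlg_it hF i y
    rw [hi, hy, hfr.pow i ⟨n, hn, h1⟩] at h4
    have h5 : ζ ^ (Nat.card k ^ i) = ζ ^ (Nat.card k ^ 0) := by
      rw [pow_zero, pow_one]; exact h4.symm
    exact (Nat.modEq_zero_iff_dvd).1 (h3 _ _ h5)

include hL hfr hF in
theorem cx_pow (hn : 0 < n) : F ^ n = 1 := by
  have h1 : fr ^ n ∈ HcK k K Om n := by
    intro x hx
    rw [hfr.pow n ⟨n, hn, hx⟩, hx]
  ext x
  apply (algebraMap L Om).injective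
  rw [CxAlg_it hF]
  exact (hL _).1 h1 x

include hL' hfr hF in
theorem cx_order (h2 : (2 : k) ≠ 0) (hn : 0 < n) {i : ℕ} (h : F ^ i = 1) : n ∣ i := by
  obtain ⟨y, _, _, hy⟩ := CxAlg_y hL' hfr hF h2 hn
  exact hy i (by rw [h]; rfl)

include hL hfr hF in
theorem cx_fix (hn : 0 < n) {x : L} (hx : F x = x) : ∃ y : K, algebraMap K L y = x := by
  have h1 : ∀ i : ℕ, (fr ^ i) (algebraMap L Om x) = algebraMap L Om x := by
    intro i
    rw [← CxAlg_it hF]
    congr 1
    induction i with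
    | zero => rfl
    | succ i ih => rw [pow_succ, AlgEquiv.mul_apply, hx, ih]
  have h2 : ∀ g : Om ≃ₐ[K] Om, g (algebraMap L Om x) = algebraMap L Om x := by
    intro g
    obtain ⟨i, hi⟩ := exists_pow_inv_mul_mem hfr hn g
    have h3 := (hL _).1 hi x
    rw [AlgEquiv.mul_apply] at h3
    have h4 := congrArg (fr ^ i) h3
    rw [h1] at h4
    exact ((fr ^ i).apply_symm_apply _).symm.trans h4
  obtain ⟨y, hy⟩ := (InfiniteGalois.mem_bot_iff_fixed (k := K) (K := Om) _).2 h2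
  refine ⟨y, (algebraMap L Om).injective ?_⟩
  rw [← hy]
  exact (IsScalarTower.algebraMap_apply K L Om y).symm

include hL hL' hfr hF in
theorem cx_cst (h2 : (2 : k) ≠ 0) (hn : 0 < n) (G' : Geo k L) {c : L} (hc : c ≠ 0)
    (hcu : ∀ u : Place k L, ord u c = 0) (hFc : F c = c) :
    ∃ d : L, d ≠ 0 ∧ (∀ u : Place k L, ord u d = 0) ∧ c = ∏ i ∈ Finset.range n, (F ^ i) d := by
  classical
  have hfin : Finite (cstF G') := finite_cstF G'
  have hFs : ∀ x : L, x ∈ cstF G' → F.symm x ∈ cstF G' := fun x hx => F_mem_cstF G' F.symm hx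
  let FR : cstF G' ≃+* cstF G' :=
    { toFun := fun x => ⟨F x, F_mem_cstF G' F x.2⟩
      invFun := fun x => ⟨F.symm x, hFs _ x.2⟩
      left_inv := fun x => Subtype.ext (F.symm_apply_apply _)
      right_inv := fun x => Subtype.ext (F.apply_symm_apply _)
      map_mul' := fun x y => Subtype.ext (map_mul F _ _)
      map_add' := fun x y => Subtype.ext (map_add F _ _) }
  have hFR : ∀ (i : ℕ) (x : cstF G'), (((FR ^ i) x : cstF G') : L) = (F ^ i) (x : L) := by
    intro i x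
    induction i with
    | zero => rfl
    | succ i ih =>
      rw [pow_succ', pow_succ', RingAut.mul_apply, AlgEquiv.mul_apply, ← ih]
      rfl
  obtain ⟨y, hy1, hy0, hy⟩ := CxAlg_y hL' hfr hF h2 hn
  have hq2 : 2 ≤ Nat.card k ^ n :=
    le_trans (by have := Pool.Agent.Ht.RK.three_le h2; omega) (Nat.le_self_pow hn.ne' _)
  have hyc : y ∈ cstF G' := by
    right
    intro w
    have h3 := ord_pow w hy0 (Nat.card k ^ n)
    rw [hy1] at h3
    have h4 : (2 : ℤ) ≤ ((Nat.card k ^ n : ℕ) : ℤ) := by exact_mod_cast hq2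
    by_contra h5
    have h6 : (((Nat.card k ^ n : ℕ) : ℤ) - 1) * ord w y = 0 := by linarith
    rcases mul_eq_zero.1 h6 with h7 | h7
    · omega
    · exact h5 h7
  have hpow : FR ^ n = 1 := by
    ext x
    rw [hFR, cx_pow hL hfr hF hn]
    rfl
  have hord : ∀ i : ℕ, FR ^ i = 1 → n ∣ i := by
    intro i hi
    apply hy
    have h3 := hFR i ⟨y, hyc⟩
    rw [hi] at h3
    exact h3.symm
  obtain ⟨d, hd⟩ := norm_fin hn FR hpow hord (c := ⟨c, Or.inr hcu⟩) (Subtype.ext hFc)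
  have hd' : c = ∏ i ∈ Finset.range n, (F ^ i) (d : L) := by
    have h3 := congrArg (fun z : cstF G' => (z : L)) hd
    simp only at h3
    rw [h3]
    push_cast
    exact Finset.prod_congr rfl fun i _ => hFR i d
  have hd0 : (d : L) ≠ 0 := by
    intro h3
    apply hc
    rw [hd', h3]
    refine Finset.prod_eq_zero (Finset.mem_range.2 hn) ?_
    rw [map_zero]
  exact ⟨d, hd0, (mem_cstF_iff G' hd0).1 d.2, hd'⟩

end Pool.Agent.SmL.C
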