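import Pool.Agent.Lib.SmL.C.CExt

/-!
# SMITH-L, block C, module DivK: divisors of a constant extension

`FL F` = `F` on the divisors of `L` (`(FL F D) u = D (fp F u)`), `NL F n D = ∑_{i < n} F^i D`.

PROOFS. `fp` is functorial: `fp (F * F')`, `fp 1` (from `mem_fp`, `place_ext`); so `fp F` is a
permutation of the places with inverse `fp F⁻¹` and `FL F = Finsupp.domCongr`.
`ord (fp F u) x = ord u (F x)` (`ord_fp`), `degree_fp`.
`exists_desc`: `E` invariant, `E₀ v := E u` for any `u` above `v` (`surj`, `conj`); finite support.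
`exists_NL`: for `v` in the support of `B` choose `u` above `v`; the smallest `g > 0` with
`fp (F ^ g) u = u` divides `n` and is a multiple of `gcd (n, deg v)` (`stab`), so
`n ∣ gcd(n, deg v) * B v ∣ g * B v`; `NL F n (single u (g * B v / n)) = B v * ∑ (places above v)`.
(So `D = ∑_v single (u_v) (g_v * B v / n)`.)
-/

set_option autoImplicit false

namespace Pool.Agent.SmL.C

open Pool.Agent.BSDFF Pool.Agent.GBC Pool.Agent.GBU Pool.Agent.GBUH

variable {k L : Type} [Field k] [Field L] [Algebra k L]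

theorem fp_one (u : Place k L) : fp (1 : L ≃ₐ[k] L) u = u := by
  apply place_ext
  ext x
  rw [mem_fp]
  rfl

theorem fp_mul (F F' : L ≃ₐ[k] L) (u : Place k L) : fp (F * F') u = fp F' (fp F u) := by
  apply place_ext
  ext x
  rw [mem_fp, mem_fp, mem_fp]
  rfl

/-- `fp F` as a permutation. -/
noncomputable def fpP (F : L ≃ₐ[k] L) : Place k L ≃ Place k L where
  toFun := fp F
  invFun := fp F⁻¹
  left_inv u := by
    rw [← fp_mul, mul_inv_cancel, fp_one]
  right_inv u := by
    rw [← fp_mul, inv_mul_cancel, fp_one]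

/-- `F` on the divisors. -/
noncomputable def FL (F : L ≃ₐ[k] L) : (Place k L →₀ ℤ) →+ (Place k L →₀ ℤ) :=
  (Finsupp.domCongr (fpP F).symm).toAddMonoidHom

theorem FL_apply (F : L ≃ₐ[k] L) (D : Place k L →₀ ℤ) (u : Place k L) :
    FL F D u = D (fp F u) := rfl

private theorem DivK_iter (F : L ≃ₐ[k] L) (i : ℕ) (u : Place k L) :
    (fp F)^[i] u = fp (F ^ i) u := by
  induction i generalizing u with
  | zero => rw [pow_zero, fp_one, Function.iterate_zero_apply]
  | succ i ih => rw [Function.iterate_succ_apply, ih, pow_succ', fp_mul]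

theorem FL_iter (F : L ≃ₐ[k] L) (i : ℕ) (D : Place k L →₀ ℤ) (u : Place k L) :
    (FL F)^[i] D u = D (fp (F ^ i) u) := by
  induction i generalizing u with
  | zero => rw [pow_zero, fp_one, Function.iterate_zero_apply]
  | succ i ih => rw [Function.iterate_succ_apply', FL_apply, ih, pow_succ', fp_mul]

theorem degD_FL [Finite k] (G : Geo k L) (F : L ≃ₐ[k] L) (D : Place k L →₀ ℤ) :
    degD (FL F D) = degD D := by
  have h : (degHom k L).comp (FL F) = degHom k L := by
    refine Finsupp.addHom_ext fun w n => ?_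
    change degD (FL F (Finsupp.single w n)) = degD (Finsupp.single w n)
    have e : FL F (Finsupp.single w n) = Finsupp.single ((fpP F).symm w) n :=
      Finsupp.equivMapDomain_single _ _ _
    rw [e, degD_single, degD_single]
    change ((fp F⁻¹ w).degree : ℤ) * n = _
    rw [degree_fp G]
  exact DFunLike.congr_fun h D

theorem FL_mem_Prin (F : L ≃ₐ[k] L) {D : Place k L →₀ ℤ} (hD : D ∈ Prin k L) :
    FL F D ∈ Prin k L := by
  obtain ⟨u, hu, hD⟩ := hD
  have hFu : F u ≠ 0 := by
    rw [Ne, map_eq_zero_iff _ F.injective]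
    exact hu
  refine ⟨F u, hFu, fun w => ?_⟩
  rw [FL_apply, ← ord_fp F w hu, hD]

/-- The norm of a divisor. -/
noncomputable def NL (F : L ≃ₐ[k] L) (n : ℕ) (D : Place k L →₀ ℤ) : Place k L →₀ ℤ :=
  ∑ i ∈ Finset.range n, (FL F)^[i] D

theorem NL_apply (F : L ≃ₐ[k] L) (n : ℕ) (D : Place k L →₀ ℤ) (u : Place k L) :
    NL F n D u = ∑ i ∈ Finset.range n, D (fp (F ^ i) u) := by
  rw [NL, Finsupp.finsetSum_apply]
  exact Finset.sum_congr rfl fun i _ => FL_iter F i D u

theorem degD_NL [Finite k] (G : Geo k L) (F : L ≃ₐ[k] L) (n : ℕ) (D : Place k L →₀ ℤ) :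
    degD (NL F n D) = n * degD D := by
  have h1 : ∀ i, degD ((FL F)^[i] D) = degD D := by
    intro i
    induction i with
    | zero => rfl
    | succ i ih => rw [Function.iterate_succ_apply', degD_FL G, ih]
  have h2 : degD (NL F n D) = ∑ i ∈ Finset.range n, degD ((FL F)^[i] D) := by
    change degHom k L _ = ∑ i ∈ Finset.range n, degHom k L _
    rw [NL, map_sum]
  rw [h2, Finset.sum_congr rfl fun i _ => h1 i, Finset.sum_const, Finset.card_range, nsmul_eq_mul]

section

variable {K : Type} [Field K] [Algebra k K] [Algebra K L] {n : ℕ} {F : L ≃ₐ[k] L}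

/-- Invariant divisors come from `K`. -/
theorem exists_desc (C : CExt k K L n F) (E : Place k L →₀ ℤ) (hE : ∀ u, E (fp F u) = E u) :
    ∃ E₀ : Place k K →₀ ℤ, ∀ u, E u = E₀ (C.bel u) := by
  obtain ⟨s, hs⟩ := C.surj.hasRightInverse
  have hE' : ∀ (i : ℕ) (u : Place k L), E (fp (F ^ i) u) = E u := by
    intro i
    induction i with
    | zero =>
      intro u
      rw [pow_zero, fp_one]
    | succ i ih =>
      intro u
      rw [pow_succ', fp_mul, ih, hE]
  refine ⟨E.comapDomain s hs.injective.injOn, fun u => ?_⟩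
  rw [Finsupp.comapDomain_apply]
  obtain ⟨i, hi⟩ := C.conj u (s (C.bel u)) (hs _).symm
  rw [hi, hE']

private theorem DivK_cnt (g m : ℕ) (hg : 0 < g) (c : ℤ) :
    ∑ i ∈ Finset.range (g * m), (if g ∣ i then c else 0) = m * c := by
  induction m with
  | zero => simp
  | succ m ih =>
    rw [Nat.mul_succ, Finset.sum_range_add, ih]
    have h : ∑ i ∈ Finset.range g, (if g ∣ g * m + i then c else 0) = c := by
      rw [Finset.sum_eq_single 0]
      · rw [add_zero, if_pos (dvd_mul_right g m)]
      · intro i hi hi0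
        rw [if_neg]
        intro h1
        have h2 : g ∣ i := (Nat.dvd_add_right (dvd_mul_right g m)).1 h1
        have h3 := Nat.le_of_dvd (Nat.pos_of_ne_zero hi0) h2
        rw [Finset.mem_range] at hi
        omega
      · intro h0
        exact absurd (Finset.mem_range.2 hg) h0
    rw [h]
    push_cast
    ring

/-- The pull back of `B` is a norm if `n ∣ deg v * B v`. -/
theorem exists_NL (C : CExt k K L n F) (B : Place k K →₀ ℤ)
    (hB : ∀ v, (n : ℤ) ∣ v.degree * B v) :
    ∃ D : Place k L →₀ ℤ, ∀ u, B (C.bel u) = NL F n D u := by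
  classical
  obtain ⟨s, hs⟩ := C.surj.hasRightInverse
  have hn : (n : ℤ) ≠ 0 := by exact_mod_cast C.npos.ne'
  have hper : ∀ u, Function.IsPeriodicPt (fp F) n u := by
    intro u
    change (fp F)^[n] u = u
    rw [DivK_iter, C.pow, fp_one]
  obtain ⟨g, hg⟩ : ∃ g : Place k K → ℕ, g = fun v => Function.minimalPeriod (fp F) (s v) := ⟨_, rfl⟩
  have hg0 : ∀ v, 0 < g v := by
    intro v
    rw [hg]
    exact (hper (s v)).minimalPeriod_pos C.npos
  have hg1 : ∀ v, g v ∣ n := by
    intro v
    rw [hg]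
    exact (hper (s v)).minimalPeriod_dvd
  have hg2 : ∀ v, Nat.gcd n v.degree ∣ g v := by
    intro v
    have h1 := C.stab (s v) (g v) (by
      rw [← DivK_iter, hg]
      exact Function.iterate_minimalPeriod)
    rw [hs v] at h1
    exact h1
  have hg3 : ∀ v, ∃ t : ℤ, (g v : ℤ) * B v = n * t := by
    intro v
    obtain ⟨a, ha⟩ := hg2 v
    obtain ⟨b, hb⟩ := hB v
    have h1 := Nat.gcd_eq_gcd_ab n v.degree
    refine ⟨a * (Nat.gcdA n v.degree * B v + Nat.gcdB n v.degree * b), ?_⟩
    have h2 : (g v : ℤ) = (Nat.gcd n v.degree : ℤ) * a := by exact_mod_cast ha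
    rw [h2, h1]
    linear_combination a * Nat.gcdB n v.degree * hb
  choose t ht using hg3
  have hsup : ∀ w : Place k L, (if s (C.bel w) = w then t (C.bel w) else 0) ≠ 0 →
      w ∈ B.support.image s := by
    intro w hw
    split_ifs at hw with h1
    · rw [Finset.mem_image]
      refine ⟨C.bel w, ?_, h1⟩
      rw [Finsupp.mem_support_iff]
      intro h2
      have h3 := ht (C.bel w)
      rw [h2, mul_zero] at h3
      rcases mul_eq_zero.1 h3.symm with h4 | h4
      · exact hn h4
      · exact hw h4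
    · exact absurd rfl hw
  let D : Place k L →₀ ℤ := Finsupp.onFinset (B.support.image s)
    (fun w => if s (C.bel w) = w then t (C.bel w) else 0) hsup
  have hD : ∀ w, D w = if s (C.bel w) = w then t (C.bel w) else 0 := fun w => rfl
  refine ⟨D, fun u => ?_⟩
  -- invariance of the norm
  have hinv : ∀ w, NL F n D (fp F w) = NL F n D w := by
    intro w
    rw [NL_apply, NL_apply]
    have e1 : ∀ i, fp (F ^ i) (fp F w) = fp (F ^ (i + 1)) w := by
      intro i
      rw [pow_succ', fp_mul]
    simp only [e1]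
    have h1 := Finset.sum_range_succ (fun i => D (fp (F ^ i) w)) n
    have h2 := Finset.sum_range_succ' (fun i => D (fp (F ^ i) w)) n
    rw [h1, C.pow, pow_zero] at h2
    exact (add_right_cancel h2).symm
  have hinv' : ∀ (i : ℕ) (w : Place k L), NL F n D (fp (F ^ i) w) = NL F n D w := by
    intro i
    induction i with
    | zero =>
      intro w
      rw [pow_zero, fp_one]
    | succ i ih =>
      intro w
      rw [pow_succ', fp_mul, ih, hinv]
  have hbel : ∀ (i : ℕ) (w : Place k L), C.bel (fp (F ^ i) w) = C.bel w := by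
    intro i
    induction i with
    | zero =>
      intro w
      rw [pow_zero, fp_one]
    | succ i ih =>
      intro w
      rw [pow_succ', fp_mul, ih, C.bel_fp]
  obtain ⟨v, hv⟩ : ∃ v, v = C.bel u := ⟨_, rfl⟩
  obtain ⟨j, hj⟩ := C.conj u (s v) (by rw [hs, hv])
  rw [← hv, ← hinv' j u, ← hj, NL_apply]
  have h1 : ∀ i, D (fp (F ^ i) (s v)) = if g v ∣ i then t v else 0 := by
    intro i
    rw [hD, hbel, hs]
    have h2 : s v = fp (F ^ i) (s v) ↔ g v ∣ i := by
      rw [hg, ← Function.isPeriodicPt_iff_minimalPeriod_dvd, ← DivK_iter]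
      exact eq_comm
    simp only [h2]
  obtain ⟨m, hm⟩ := hg1 v
  rw [Finset.sum_congr rfl fun i _ => h1 i, hm, DivK_cnt _ _ (hg0 v)]
  have h2 := ht v
  have h3 : (n : ℤ) = g v * m := by exact_mod_cast hm
  rw [h3, mul_assoc] at h2
  exact mul_left_cancel₀ (by exact_mod_cast (hg0 v).ne') h2

end

end Pool.Agent.SmL.C
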