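import Mathlib

/-!
# SMITH-L, block C, module H90C: Hilbert 90 for a cyclic group of automorphisms of a field

PROOF. The `F ^ i`, `i < n`, are distinct (`hord`), so linearly independent as functions
(`linearIndependent_monoidHom`): there is `c` with
`y = ∑_{i < n} (∏_{j < i} F^j b) F^i c ≠ 0`; `b * F y = y` as `∏_{j < n} F^j b = 1`, `F ^ n = 1`. Take
`e = y⁻¹`.
-/

set_option autoImplicit false

namespace Pool.Agent.SmL.C

theorem h90_cyc {K : Type*} [Field K] {n : ℕ} (hn : 0 < n) (F : K ≃+* K) (hF : F ^ n = 1)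
    (hord : ∀ i : ℕ, F ^ i = 1 → n ∣ i) {b : K}
    (hb : ∏ i ∈ Finset.range n, (F ^ i) b = 1) : ∃ e : K, e ≠ 0 ∧ F e = b * e := by
  have hinj : Function.Injective fun i : Fin n => ((F ^ (i : ℕ) : K ≃+* K) : K →* K) := by
    have key : ∀ i j : ℕ, i < j → j < n → (F ^ i : K ≃+* K) ≠ F ^ j := by
      intro i j hij hj h
      have h1 : F ^ (j - i) = 1 := by
        have h2 : F ^ j = F ^ i * F ^ (j - i) := by
          rw [← pow_add, Nat.add_sub_cancel' hij.le]
        rw [← h] at h2
        exact (left_eq_mul.mp h2)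
      have h3 := Nat.le_of_dvd (by omega) (hord _ h1)
      omega
    intro i j hij
    have h0 : (F ^ (i : ℕ) : K ≃+* K) = F ^ (j : ℕ) := by
      apply RingEquiv.ext
      intro x
      exact DFunLike.congr_fun hij x
    rcases lt_trichotomy (i : ℕ) (j : ℕ) with h | h | h
    · exact absurd h0 (key _ _ h j.2)
    · exact Fin.ext h
    · exact absurd h0.symm (key _ _ h i.2)
  have hli : LinearIndependent K fun i : Fin n =>
      (((F ^ (i : ℕ) : K ≃+* K) : K →* K) : K → K) :=
    (linearIndependent_monoidHom K K).comp _ hinj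
  let P : ℕ → K := fun i => ∏ j ∈ Finset.range i, (F ^ j) b
  have hP0 : P 0 = 1 := Finset.prod_range_zero _
  have hPn : P n = 1 := hb
  have hPs : ∀ i, b * F (P i) = P (i + 1) := by
    intro i
    simp only [P]
    rw [map_prod, Finset.prod_range_succ', mul_comm]
    congr 1
    refine Finset.prod_congr rfl fun j _ => ?_
    rw [pow_succ']
    rfl
  obtain ⟨c, hc⟩ : ∃ c : K, ∑ i ∈ Finset.range n, P i * (F ^ i) c ≠ 0 := by
    by_contra hcon
    push Not at hcon
    have h1 : ∑ i : Fin n, P i • (((F ^ (i : ℕ) : K ≃+* K) : K →* K) : K → K) = 0 := by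
      funext c
      rw [Finset.sum_apply, Pi.zero_apply, ← hcon c, ← Fin.sum_univ_eq_sum_range]
      rfl
    have h2 := Fintype.linearIndependent_iff.mp hli (fun i => P i) h1 ⟨0, hn⟩
    rw [show ((⟨0, hn⟩ : Fin n) : ℕ) = 0 from rfl, hP0] at h2
    exact one_ne_zero h2
  set y := ∑ i ∈ Finset.range n, P i * (F ^ i) c with hy
  have hyF : b * F y = y := by
    rw [hy, map_sum, Finset.mul_sum]
    have h1 : ∀ i ∈ Finset.range n, b * F (P i * (F ^ i) c) = P (i + 1) * (F ^ (i + 1)) c := by
      intro i _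
      rw [map_mul, ← mul_assoc, hPs, pow_succ']
      rfl
    rw [Finset.sum_congr rfl h1]
    have h2 := Finset.sum_range_succ' (fun i => P i * (F ^ i) c) n
    have h3 := Finset.sum_range_succ (fun i => P i * (F ^ i) c) n
    rw [h3] at h2
    have h4 : P n * (F ^ n) c = P 0 * (F ^ 0) c := by
      rw [hPn, hP0, hF, pow_zero]
    rw [h4] at h2
    exact (add_right_cancel h2).symm
  have hb0 : b ≠ 0 := by
    rintro rfl
    rw [zero_mul] at hyF
    exact hc hyF.symm
  refine ⟨y⁻¹, inv_ne_zero hc, ?_⟩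
  have hFy : F y ≠ 0 := by
    intro h
    rw [h, mul_zero] at hyF
    exact hc hyF.symm
  rw [map_inv₀]
  apply mul_left_cancel₀ hFy
  rw [mul_inv_cancel₀ hFy]
  have h5 : F y * (b * y⁻¹) = b * F y * y⁻¹ := by ring
  rw [h5, hyF, mul_inv_cancel₀ hc]

end Pool.Agent.SmL.C
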