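import Pool.Agent.Lib.SmL.C.NormDiv
import Pool.Agent.Lib.SmL.C.DivK
import Pool.Agent.Lib.SmL.C.AbsC
import Pool.Agent.Lib.SmL.C.H90C

/-!
# SMITH-L, block C, module NormK: the norm theorem for a constant extension `L / K` of degree `n`

`a ∈ K^*` with `n ∣ deg v * ord_v a` for all `v` is a norm from `L`.

PROOF (compare `GBU/H/NormThm.lean`). All divisors on `L`. `div a = NL D₁` (`exists_NL`),
`n deg D₁ = deg (div a) = 0` (`degD_NL`, `degD_prin`), so `deg D₁ = 0`. On the finite group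
`Pic⁰(L)` (`finite_pic0 G'`) with the action of `F`: `(FL F)^[n] = id`.
FIXED CLASSES ARE NORMS: `deg x = 0`, `F x - x = div g`. Then `N g` has divisor `N (F x - x) = 0` and is
fixed by `F`, so `N g = N d`, `d` a constant (`C.cst`); `g / d` has norm `1`, so `F e = (g / d) e`
(`h90_cyc`), `E := x - div e` is `F`-invariant of degree `0`. `E = π^* E₀` (`exists_desc`), and
`deg E₀ = 0`: for `m > 0` the order of the group `Pic⁰(L)` we have `m E = div y`, so
`m n E = div (N y)`, `N y = z ∈ K` (`C.fix`), and by `ord_bel`, `surj` `m n E₀ = div_K z`, so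
`m n deg E₀ = 0`. `normDiv G`: `E₀ = div_K b + B`, `n ∣ deg v * B v`, and `π^* B = NL D₂` (`exists_NL`); so
`x = div (e b) + NL D₂`, and `n deg D₂ = deg x - 0 = 0`. Hence the class of `x` is the norm of that of
`D₂`.
`absC` for the class of `D₁` (`NL D₁ = div a`): `D₁ = F y - y + div c`. So `div a = N (div c)`,
`a / N c` is a constant fixed by `F`, `= N d` (`C.cst`), `b = c d`.
-/

set_option autoImplicit false

namespace Pool.Agent.SmL.C

open Pool.Agent.BSDFF Pool.Agent.GBC Pool.Agent.GBU Pool.Agent.GBUH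

private theorem nk_ne {k L : Type} [Field k] [Field L] [Algebra k L] (F : L ≃ₐ[k] L) {x : L}
    (hx : x ≠ 0) : F x ≠ 0 := by
  rw [Ne, map_eq_zero_iff _ F.injective]
  exact hx

private theorem nk_prod_ne {k L : Type} [Field k] [Field L] [Algebra k L] (F : L ≃ₐ[k] L) (n : ℕ)
    {x : L} (hx : x ≠ 0) : ∏ i ∈ Finset.range n, (F ^ i) x ≠ 0 :=
  Finset.prod_ne_zero_iff.2 fun i _ => nk_ne (F ^ i) hx

private theorem nk_fix {k L : Type} [Field k] [Field L] [Algebra k L] (F : L ≃ₐ[k] L) {n : ℕ}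
    (hF : F ^ n = 1) (x : L) :
    F (∏ i ∈ Finset.range n, (F ^ i) x) = ∏ i ∈ Finset.range n, (F ^ i) x := by
  rw [map_prod]
  have h1 : ∀ i : ℕ, F ((F ^ i) x) = (F ^ (i + 1)) x := by
    intro i
    rw [pow_succ', AlgEquiv.mul_apply]
  simp only [h1]
  have h2 := Finset.prod_range_succ (fun i => (F ^ i) x) n
  have h3 := Finset.prod_range_succ' (fun i => (F ^ i) x) n
  rw [h2, hF, pow_zero] at h3
  by_cases hx : x = 0
  · subst hx
    simp
  · have h4 : (1 : L ≃ₐ[k] L) x ≠ 0 := hx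
    exact (mul_right_cancel₀ h4 h3).symm

private theorem nk_ord {k L : Type} [Field k] [Field L] [Algebra k L] (F : L ≃ₐ[k] L) (n : ℕ)
    {x : L} (hx : x ≠ 0) (u : Place k L) :
    ord u (∏ i ∈ Finset.range n, (F ^ i) x) = ∑ i ∈ Finset.range n, ord (fp (F ^ i) u) x := by
  induction n with
  | zero => simp [ord_one]
  | succ n ih =>
    rw [Finset.prod_range_succ, Finset.sum_range_succ, ord_mul u (nk_prod_ne F n hx)
      (nk_ne _ hx), ih, ord_fp (F ^ n) u hx]

private theorem nk_tel {k L : Type} [Field k] [Field L] [Algebra k L] (F : L ≃ₐ[k] L) {n : ℕ}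
    (hF : F ^ n = 1) (x : Place k L → ℤ) (u : Place k L) :
    ∑ i ∈ Finset.range n, (x (fp F (fp (F ^ i) u)) - x (fp (F ^ i) u)) = 0 := by
  have h1 : ∀ i : ℕ, fp F (fp (F ^ i) u) = fp (F ^ (i + 1)) u := by
    intro i
    rw [← fp_mul, ← pow_succ]
  simp only [h1]
  rw [Finset.sum_range_sub (fun i => x (fp (F ^ i) u)) n, hF, pow_zero, sub_self]

private theorem nk_ringpow {k L : Type} [Field k] [Field L] [Algebra k L] (F : L ≃ₐ[k] L) (i : ℕ)
    (x : L) : ((F : L ≃+* L) ^ i) x = (F ^ i) x := by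
  induction i generalizing x with
  | zero => rfl
  | succ i ih =>
    rw [pow_succ, pow_succ, AlgEquiv.mul_apply]
    change ((F : L ≃+* L) ^ i) (F x) = _
    rw [ih]

/-- The norm of a divisor of degree zero. -/
private theorem nk_NL_deg {k L : Type} [Field k] [Finite k] [Field L] [Algebra k L] (G' : Geo k L)
    (F : L ≃ₐ[k] L) {n : ℕ} (hn : 0 < n) {D : Place k L →₀ ℤ} (h : degD (NL F n D) = 0) :
    degD D = 0 := by
  rw [degD_NL G'] at h
  rcases mul_eq_zero.1 h with h1 | h1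
  · exact absurd h1 (by exact_mod_cast hn.ne')
  · exact h1

theorem normK {k K L : Type} [Field k] [Finite k] [Field K] [Field L] [Algebra k K] [Algebra k L]
    [Algebra K L] {n : ℕ} {F : L ≃ₐ[k] L} (G : Geo k K) (G' : Geo k L) (C : CExt k K L n F)
    {a : K} (ha : a ≠ 0) (h : ∀ v : Place k K, (n : ℤ) ∣ v.degree * ord v a) :
    ∃ b : L, b ≠ 0 ∧ algebraMap K L a = ∏ i ∈ Finset.range n, (F ^ i) b := by
  classical
  have ha' : algebraMap K L a ≠ 0 := by
    rw [Ne, map_eq_zero]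
    exact ha
  -- the divisor of `a`
  obtain ⟨B₀, hB₀⟩ := exists_pdiv G ha
  obtain ⟨D, hD⟩ := exists_pdiv G' ha'
  obtain ⟨D₁, hD₁⟩ := exists_NL C B₀ (fun v => by rw [hB₀]; exact h v)
  have hDD : D = NL F n D₁ := by
    ext u
    rw [hD, C.ord_bel u a ha, ← hB₀, hD₁]
  have hdegD : degD D = 0 := degD_prin G' ⟨_, ha', hD⟩
  have hdeg1 : degD D₁ = 0 := nk_NL_deg G' F C.npos (by rw [← hDD]; exact hdegD)
  -- the group of the classes of degree zero
  let Z := (degHom k L).ker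
  let P : AddSubgroup Z := (Prin k L).addSubgroupOf Z
  have hfin : Finite (Z ⧸ P) := finite_pic0 G'
  have hmap : ∀ x ∈ Z, FL F x ∈ Z := fun x hx => by
    have hx' : degD x = 0 := hx
    change degD (FL F x) = 0
    rw [degD_FL G', hx']
  let FZ : Z →+ Z := ((FL F).comp Z.subtype).codRestrict Z fun x => hmap x x.2
  have hFZ : ∀ x : Z, ((FZ x : Z) : Place k L →₀ ℤ) = FL F (x : Place k L →₀ ℤ) := fun x => rfl
  have hFZi : ∀ (i : ℕ) (x : Z), ((FZ^[i] x : Z) : Place k L →₀ ℤ) =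
      (FL F)^[i] (x : Place k L →₀ ℤ) := by
    intro i
    induction i with
    | zero => intro x; rfl
    | succ i ih =>
      intro x
      rw [Function.iterate_succ_apply', Function.iterate_succ_apply', hFZ, ih]
  let FQ : Z ⧸ P →+ Z ⧸ P := QuotientAddGroup.map P P FZ (by
    intro x hx
    exact FL_mem_Prin F hx)
  have hFQ : ∀ x : Z, FQ (QuotientAddGroup.mk x) = QuotientAddGroup.mk (FZ x) := fun x => rfl
  have hFQi : ∀ (i : ℕ) (x : Z), FQ^[i] (QuotientAddGroup.mk x) =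
      QuotientAddGroup.mk (FZ^[i] x) := by
    intro i
    induction i with
    | zero => intro x; rfl
    | succ i ih =>
      intro x
      rw [Function.iterate_succ_apply', Function.iterate_succ_apply', ih, hFQ]
  have hFQn : ∀ x, FQ^[n] x = x := by
    intro x
    obtain ⟨x, rfl⟩ := QuotientAddGroup.mk_surjective x
    rw [hFQi]
    congr 1
    apply Subtype.ext
    rw [hFZi]
    ext u
    rw [FL_iter, C.pow, fp_one]
  have hmk : ∀ x y : Z, (QuotientAddGroup.mk x : Z ⧸ P) = QuotientAddGroup.mk y ↔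
      ((x : Place k L →₀ ℤ) - y) ∈ Prin k L := by
    intro x y
    rw [eq_comm, QuotientAddGroup.eq]
    change ((-y + x : Z) : Place k L →₀ ℤ) ∈ Prin k L ↔ _
    rw [AddSubgroup.coe_add, AddSubgroup.coe_neg, neg_add_eq_sub]
  -- the norm of a class
  have hsum : ∀ x : Z, ((∑ i ∈ Finset.range n, FZ^[i] x : Z) : Place k L →₀ ℤ) =
      NL F n (x : Place k L →₀ ℤ) := by
    intro x
    rw [AddSubgroup.val_finsetSum]
    unfold NL
    exact Finset.sum_congr rfl fun i _ => hFZi i x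
  have hsumQ : ∀ x : Z, ∑ i ∈ Finset.range n, FQ^[i] (QuotientAddGroup.mk x : Z ⧸ P) =
      QuotientAddGroup.mk (∑ i ∈ Finset.range n, FZ^[i] x) := by
    intro x
    have h1 : (QuotientAddGroup.mk (∑ i ∈ Finset.range n, FZ^[i] x) : Z ⧸ P) =
        ∑ i ∈ Finset.range n, (QuotientAddGroup.mk (FZ^[i] x) : Z ⧸ P) :=
      map_sum (QuotientAddGroup.mk' P) _ _
    rw [h1]
    exact Finset.sum_congr rfl fun i _ => hFQi i x
  -- fixed classes are norms
  have hs : ∀ x, FQ x = x → ∃ y, x = ∑ i ∈ Finset.range n, FQ^[i] y := by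
    intro x hx
    obtain ⟨x, rfl⟩ := QuotientAddGroup.mk_surjective x
    rw [hFQ, hmk, hFZ] at hx
    obtain ⟨g, hg, hgx⟩ := hx
    have hxdeg : degD (x : Place k L →₀ ℤ) = 0 := x.2
    have hgx' : ∀ w, (x : Place k L →₀ ℤ) (fp F w) - (x : Place k L →₀ ℤ) w = ord w g := by
      intro w
      rw [← hgx w, Finsupp.sub_apply, FL_apply]
    -- the norm of `g` is a constant
    have hNg : ∀ u : Place k L, ord u (∏ i ∈ Finset.range n, (F ^ i) g) = 0 := by
      intro u
      rw [nk_ord F n hg]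
      simp only [← hgx']
      exact nk_tel F C.pow (fun w => (x : Place k L →₀ ℤ) w) u
    obtain ⟨d, hd0, hdo, hd⟩ := C.cst _ (nk_prod_ne F n hg) hNg (nk_fix F C.pow g)
    have hgd : ∏ i ∈ Finset.range n, ((F : L ≃+* L) ^ i) (g / d) = 1 := by
      have h1 : ∀ i : ℕ, ((F : L ≃+* L) ^ i) (g / d) = (F ^ i) g / (F ^ i) d := by
        intro i
        rw [nk_ringpow, map_div₀]
      simp only [h1]
      rw [Finset.prod_div_distrib, hd, div_self (nk_prod_ne F n hd0)]
    obtain ⟨e, he0, hee⟩ := h90_cyc C.npos (F : L ≃+* L) (by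
        ext y
        rw [nk_ringpow, C.pow]
        rfl) (fun i hi => C.order i (by
        ext y
        rw [← nk_ringpow, hi]
        rfl)) hgd
    have hee' : F e = g / d * e := hee
    have horde : ∀ w : Place k L, ord w (F e) = ord w g + ord w e := by
      intro w
      rw [hee', ord_mul w (div_ne_zero hg hd0) he0, ord_div w hg hd0, hdo, sub_zero]
    obtain ⟨E, hE⟩ := exists_pdiv G' he0
    have hEdeg : degD E = 0 := degD_prin G' ⟨e, he0, hE⟩
    have hinv : ∀ u, ((x : Place k L →₀ ℤ) - E) (fp F u) = ((x : Place k L →₀ ℤ) - E) u := by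
      intro u
      rw [Finsupp.sub_apply, Finsupp.sub_apply, hE, hE, ord_fp F u he0, horde]
      have := hgx' u
      linarith
    have hinvi : ∀ (i : ℕ) u, ((x : Place k L →₀ ℤ) - E) (fp (F ^ i) u) =
        ((x : Place k L →₀ ℤ) - E) u := by
      intro i
      induction i with
      | zero => intro u; rw [pow_zero, fp_one]
      | succ i ih => intro u; rw [pow_succ, fp_mul, hinv, ih]
    obtain ⟨E₀, hE₀⟩ := exists_desc C _ hinv
    -- the degree of `E₀`
    have hE₀deg : degD E₀ = 0 := by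
      have hz : degD ((x : Place k L →₀ ℤ) - E) = 0 := by
        rw [degD_sub, hxdeg, hEdeg, sub_zero]
      have hm : Nat.card (Z ⧸ P) • (QuotientAddGroup.mk (⟨(x : Place k L →₀ ℤ) - E, hz⟩ : Z) :
          Z ⧸ P) = 0 := card_nsmul_eq_zero'
      have hmpos : 0 < Nat.card (Z ⧸ P) := Nat.card_pos
      have hm' : (QuotientAddGroup.mk (Nat.card (Z ⧸ P) •
          (⟨(x : Place k L →₀ ℤ) - E, hz⟩ : Z)) : Z ⧸ P) = QuotientAddGroup.mk (0 : Z) := hm
      rw [hmk] at hm'
      obtain ⟨y, hy, hyx⟩ := hm'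
      have hyx' : ∀ w, (Nat.card (Z ⧸ P) : ℤ) * ((x : Place k L →₀ ℤ) - E) w = ord w y := by
        intro w
        rw [← hyx w]
        have h1 : ((Nat.card (Z ⧸ P) • (⟨(x : Place k L →₀ ℤ) - E, hz⟩ : Z) : Z) :
            Place k L →₀ ℤ) = Nat.card (Z ⧸ P) • ((x : Place k L →₀ ℤ) - E) := rfl
        rw [h1, AddSubgroup.coe_zero, sub_zero, Finsupp.smul_apply, nsmul_eq_mul]
      obtain ⟨z, hz'⟩ := C.fix _ (nk_fix F C.pow y)
      have hz0 : z ≠ 0 := by
        rintro rfl
        rw [map_zero] at hz'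
        exact nk_prod_ne F n hy hz'.symm
      have hzo : ∀ v, ord v z = ((n * Nat.card (Z ⧸ P) : ℕ) • E₀) v := by
        intro v
        obtain ⟨u, rfl⟩ := C.surj v
        rw [← C.ord_bel u z hz0, hz', nk_ord F n hy]
        simp only [← hyx', hinvi]
        rw [Finset.sum_const, Finset.card_range, hE₀, Finsupp.smul_apply, nsmul_eq_mul,
          nsmul_eq_mul]
        push_cast
        ring
      have h2 : degD ((n * Nat.card (Z ⧸ P) : ℕ) • E₀) = 0 :=
        degD_prin G ⟨z, hz0, fun w => (hzo w).symm⟩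
      rw [degD_nsmul] at h2
      rcases mul_eq_zero.1 h2 with h3 | h3
      · have h4 : 0 < n * Nat.card (Z ⧸ P) := Nat.mul_pos C.npos hmpos
        exact absurd h3 (by exact_mod_cast h4.ne')
      · exact h3
    obtain ⟨b, B, hb, hBn, hbB⟩ := normDiv G C.npos E₀ hE₀deg
    obtain ⟨D₂, hD₂⟩ := exists_NL C B hBn
    have hb' : algebraMap K L b ≠ 0 := by
      rw [Ne, map_eq_zero]
      exact hb
    have hx1 : ∀ w, (x : Place k L →₀ ℤ) w - NL F n D₂ w = ord w (algebraMap K L b * e) := by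
      intro w
      have h1 := hE₀ w
      rw [Finsupp.sub_apply, hE, hbB, ← C.ord_bel w b hb, hD₂] at h1
      rw [ord_mul w hb' he0]
      linarith
    have hD₂deg : degD D₂ = 0 := by
      have h1 : (x : Place k L →₀ ℤ) - NL F n D₂ ∈ Prin k L :=
        ⟨_, mul_ne_zero hb' he0, fun w => by rw [Finsupp.sub_apply]; exact hx1 w⟩
      have h2 := degD_prin G' h1
      rw [degD_sub, hxdeg] at h2
      exact nk_NL_deg G' F C.npos (by linarith)
    refine ⟨QuotientAddGroup.mk (⟨D₂, hD₂deg⟩ : Z), ?_⟩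
    rw [hsumQ, hmk, hsum]
    exact ⟨_, mul_ne_zero hb' he0, fun w => by rw [Finsupp.sub_apply]; exact hx1 w⟩
  -- the class of `D₁`
  obtain ⟨y, hy⟩ := absC FQ hFQn hs (QuotientAddGroup.mk (⟨D₁, hdeg1⟩ : Z)) (by
    rw [hsumQ, ← QuotientAddGroup.mk_zero, hmk, hsum]
    refine ⟨_, ha', fun w => ?_⟩
    rw [← hD w, hDD]
    simp only [AddSubgroup.coe_zero, sub_zero])
  obtain ⟨y, rfl⟩ := QuotientAddGroup.mk_surjective y
  rw [hFQ, ← QuotientAddGroup.mk_sub, hmk] at hy
  obtain ⟨c, hc, hcD⟩ := hy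
  have hcD' : ∀ w, D₁ w - ((y : Place k L →₀ ℤ) (fp F w) - (y : Place k L →₀ ℤ) w) = ord w c := by
    intro w
    rw [← hcD w, Finsupp.sub_apply, AddSubgroup.coe_sub, hFZ, Finsupp.sub_apply, FL_apply]
  have hord : ∀ u : Place k L, ord u (algebraMap K L a / ∏ i ∈ Finset.range n, (F ^ i) c) = 0 := by
    intro u
    rw [ord_div u ha' (nk_prod_ne F n hc), nk_ord F n hc, ← hD u, hDD, NL_apply,
      ← Finset.sum_sub_distrib]
    have h1 : ∀ i ∈ Finset.range n, D₁ (fp (F ^ i) u) - ord (fp (F ^ i) u) c =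
        (y : Place k L →₀ ℤ) (fp F (fp (F ^ i) u)) - (y : Place k L →₀ ℤ) (fp (F ^ i) u) := by
      intro i _
      rw [← hcD']
      ring
    rw [Finset.sum_congr rfl h1]
    exact nk_tel F C.pow (fun w => (y : Place k L →₀ ℤ) w) u
  obtain ⟨d, hd0, _, hd⟩ := C.cst _ (div_ne_zero ha' (nk_prod_ne F n hc)) hord (by
    rw [map_div₀, C.comm, nk_fix F C.pow])
  refine ⟨d * c, mul_ne_zero hd0 hc, ?_⟩
  rw [div_eq_iff (nk_prod_ne F n hc)] at hd
  rw [hd, ← Finset.prod_mul_distrib]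
  exact Finset.prod_congr rfl fun i _ => (map_mul (F ^ i) d c).symm

end Pool.Agent.SmL.C
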