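import Pool.Agent.Lib.SmL.C.CxPl
import Pool.Agent.Lib.SmL.C.CxAlg
import Pool.Agent.Lib.SmL.C.NormK
import Pool.Agent.Lib.GBC.E.Main

/-!
# SMITH-L, block C, module CxMain: the norm theorem for the constant extension of degree `n` in `Ω`

PROOF (compare `normG` in `GBU/H/NormG.lean` for the instances on `L`, and `SmN/F/Fields.lean`,
`LInst.lean`). `L := IntermediateField.fixedField (HcK k K Ω n)` (an intermediate field of `Ω / K`),
`Gal(Ω / L) = HcK n` as `HcK n` is open, so closed (`isOpen_HcK`,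
`InfiniteGalois.fixingSubgroup_fixedField`); `L / K` is finite; `Algebra k L`, `Algebra (RatFunc k) L` through
`K`; `F` = the restriction of `fr` (`HcK` is normal), its inverse is the restriction of `fr⁻¹`.
`CExt k K L n F`: `bel u` := the place of `K` with ring `below K w`, `w` a place of `Ω` above `u`
(`exists_above_place`, `exists_place_below`); `ord_above`, `conj_above`, `stab_above`, `cx_pow`, `cx_order`,
`cx_fix`, `cx_cst`. `exists_geo` gives the two `Geo`s. `normK`.
-/

set_option autoImplicit false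

namespace Pool.Agent.SmL.C

open Pool.Agent.BSDFF Pool.Agent.Lib.SmD Pool.Agent.GBU Pool.Agent.GBC Pool.Agent.GBUH

section aux

variable {k K L : Type} [Field k] [Finite k] [Field K] [Algebra k K] [Algebra (RatFunc k) K]
  [IsScalarTower k (RatFunc k) K] [FiniteDimensional (RatFunc k) K]
  [Algebra.IsSeparable (RatFunc k) K]
  [Field L] [Algebra k L] [Algebra (RatFunc k) L]
  [IsScalarTower k (RatFunc k) L] [FiniteDimensional (RatFunc k) L]
  [Algebra.IsSeparable (RatFunc k) L] [Algebra K L]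
  {Om : Type} [Field Om] [Algebra K Om] [IsSepClosure K Om] [Algebra L Om] [IsSepClosure L Om]
  [IsScalarTower K L Om]

/-- The constant extension. -/
private theorem cext_nonempty (h2 : (2 : k) ≠ 0) {n : ℕ} (hn : 0 < n)
    (hL : ∀ g : Om ≃ₐ[K] Om, g ∈ HcK k K Om n ↔
      ∀ x : L, g (algebraMap L Om x) = algebraMap L Om x)
    (hL' : ∀ x : Om, (∀ g ∈ HcK k K Om n, g x = x) → ∃ y : L, algebraMap L Om y = x)
    {fr : Om ≃ₐ[K] Om} (hfr : IsFrC k fr) {F : L ≃ₐ[k] L}
    (hF : ∀ x : L, algebraMap L Om (F x) = fr (algebraMap L Om x)) (G' : Geo k L) :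
    Nonempty (CExt k K L n F) := by
  have hgalK : IsGalois K Om := IsSepClosure.isGalois
  have hgalL : IsGalois L Om := IsSepClosure.isGalois
  have hbelow : ∀ (w : ValuationSubring Om) (x : K), x ∈ below K w ↔
      algebraMap K L x ∈ below L w := by
    intro w x
    change algebraMap K Om x ∈ w ↔ algebraMap L Om (algebraMap K L x) ∈ w
    rw [← IsScalarTower.algebraMap_apply K L Om x]
  have h0 : ∀ u : Place k L, ∃ v : Place k K, ∃ w : ValuationSubring Om,
      below L w = u.ring ∧ below K w = v.ring := by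
    intro u
    obtain ⟨w, hw, hwu⟩ := exists_above_place Om u
    obtain ⟨v, hv⟩ := exists_place_below k K w hw
    exact ⟨v, w, hwu, hv.symm⟩
  choose bel W hW1 hW2 using h0
  have hmem : ∀ (u : Place k L) (x : K), x ∈ (bel u).ring ↔ algebraMap K L x ∈ u.ring := by
    intro u x
    rw [← hW2 u, hbelow, hW1 u]
  have hcomm : ∀ y : K, F (algebraMap K L y) = algebraMap K L y := by
    intro y
    apply (algebraMap L Om).injective
    rw [hF, ← IsScalarTower.algebraMap_apply K L Om y, fr.commutes]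
  refine ⟨{ bel := bel
            npos := hn
            surj := ?_
            ord_bel := fun u x hx => ord_above h2 hn (fun g hg => (hL g).1 hg) (hW1 u) (hW2 u) hx
            bel_fp := ?_
            conj := ?_
            stab := fun u i h => stab_above h2 hn hL hfr hF (hW1 u) (hW2 u) h
            comm := hcomm
            fix := fun x hx => cx_fix hL hfr hF hn hx
            pow := cx_pow hL hfr hF hn
            order := fun i h => cx_order hL' hfr hF h2 hn h
            cst := fun c hc hcu hFc => cx_cst hL hL' hfr hF h2 hn G' hc hcu hFc }⟩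
  · intro v
    obtain ⟨w, hw, hwv⟩ := exists_above_place Om v
    obtain ⟨u, hu⟩ := exists_place_below k L w hw
    refine ⟨u, place_ext ?_⟩
    ext x
    rw [hmem, hu, ← hbelow, hwv]
  · intro u
    refine place_ext ?_
    ext x
    rw [hmem, hmem, mem_fp, hcomm]
  · intro u u' h
    refine conj_above h2 hn (fun g hg => (hL g).1 hg) hfr hF (hW1 u) (hW1 u') ?_
    rw [hW2, hW2, h]

private theorem normOm_aux (h2 : (2 : k) ≠ 0) {n : ℕ} (hn : 0 < n)
    (hL : ∀ g : Om ≃ₐ[K] Om, g ∈ HcK k K Om n ↔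
      ∀ x : L, g (algebraMap L Om x) = algebraMap L Om x)
    (hL' : ∀ x : Om, (∀ g ∈ HcK k K Om n, g x = x) → ∃ y : L, algebraMap L Om y = x)
    {fr : Om ≃ₐ[K] Om} (hfr : IsFrC k fr) {F : L ≃ₐ[k] L}
    (hF : ∀ x : L, algebraMap L Om (F x) = fr (algebraMap L Om x))
    {a : K} (ha : a ≠ 0) (h : ∀ v : Place k K, (n : ℤ) ∣ v.degree * ord v a) :
    ∃ u : Omˣ, (∀ g ∈ HcK k K Om n, g • u = u) ∧
      algebraMap K Om a = ((∏ i ∈ Finset.range n, (fr ^ i) • u : Omˣ) : Om) := by
  obtain ⟨G, -⟩ := exists_geo k K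
  obtain ⟨G', -⟩ := exists_geo k L
  obtain ⟨C⟩ := cext_nonempty h2 hn hL hL' hfr hF G'
  obtain ⟨b, hb0, hb⟩ := normK G G' C ha h
  have hpow : ∀ i : ℕ, algebraMap L Om ((F ^ i) b) = (fr ^ i) (algebraMap L Om b) := by
    intro i
    induction i with
    | zero => simp
    | succ i ih => rw [pow_succ', pow_succ', AlgEquiv.mul_apply, AlgEquiv.mul_apply, hF, ih]
  have hbOm : algebraMap L Om b ≠ 0 := (map_ne_zero _).2 hb0
  refine ⟨Units.mk0 (algebraMap L Om b) hbOm, fun g hg => Units.ext ((hL g).1 hg b), ?_⟩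
  rw [Units.coe_prod, IsScalarTower.algebraMap_apply K L Om a, hb, map_prod]
  exact Finset.prod_congr rfl fun i _ => hpow i

end aux

variable {k K Ω : Type} [Field k] [Finite k] [Field K] [Algebra k K] [Algebra (RatFunc k) K]
  [IsScalarTower k (RatFunc k) K] [FiniteDimensional (RatFunc k) K]
  [Algebra.IsSeparable (RatFunc k) K] [Field Ω] [Algebra K Ω] [IsSepClosure K Ω]

/-- **The norm theorem** for the constant extension of degree `n`. -/
theorem normOm (h2 : (2 : k) ≠ 0) {fr : Ω ≃ₐ[K] Ω} (hfr : IsFrC k fr) {n : ℕ} (hn : 0 < n)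
    {a : K} (ha : a ≠ 0) (h : ∀ v : Place k K, (n : ℤ) ∣ v.degree * ord v a) :
    ∃ u : Ωˣ, (∀ g ∈ HcK k K Ω n, g • u = u) ∧
      algebraMap K Ω a = ((∏ i ∈ Finset.range n, (fr ^ i) • u : Ωˣ) : Ω) := by
  classical
  have hgal : IsGalois K Ω := IsSepClosure.isGalois
  have hop : IsOpen (HcK k K Ω n : Set (Ω ≃ₐ[K] Ω)) := isOpen_HcK hn
  have hcl : IsClosed (HcK k K Ω n : Set (Ω ≃ₐ[K] Ω)) := Subgroup.isClosed_of_isOpen _ hop
  let L : IntermediateField K Ω := IntermediateField.fixedField (HcK k K Ω n)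
  have hLm : ∀ x : Ω, x ∈ L ↔ ∀ g ∈ HcK k K Ω n, g x = x := fun x =>
    IntermediateField.mem_fixedField_iff _ x
  have hLfix : L.fixingSubgroup = HcK k K Ω n :=
    InfiniteGalois.fixingSubgroup_fixedField (k := K) (K := Ω) ⟨HcK k K Ω n, hcl⟩
  have hfd : FiniteDimensional K L := by
    rw [← InfiniteGalois.isOpen_iff_finite]
    have h1 : (L.fixingSubgroup.carrier : Set (Ω ≃ₐ[K] Ω)) = (HcK k K Ω n : Set (Ω ≃ₐ[K] Ω)) := by
      rw [hLfix]
      rfl
    rw [h1]
    exact hop
  let algkL : Algebra k L := ((algebraMap K L).comp (algebraMap k K)).toAlgebra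
  let algRL : Algebra (RatFunc k) L :=
    ((algebraMap K L).comp (algebraMap (RatFunc k) K)).toAlgebra
  have ht1 : IsScalarTower k (RatFunc k) L := IsScalarTower.of_algebraMap_eq fun x => by
    change algebraMap K L (algebraMap k K x) =
      algebraMap K L (algebraMap (RatFunc k) K (algebraMap k (RatFunc k) x))
    rw [← IsScalarTower.algebraMap_apply k (RatFunc k) K x]
  have ht2 : IsScalarTower (RatFunc k) K L := IsScalarTower.of_algebraMap_eq fun x => rfl
  have hfdR : FiniteDimensional (RatFunc k) L := FiniteDimensional.trans (RatFunc k) K L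
  have hsepKL : Algebra.IsSeparable K L := inferInstance
  have hsepR : Algebra.IsSeparable (RatFunc k) L := Algebra.IsSeparable.trans (RatFunc k) K L
  have hscl : IsSepClosure L Ω := ⟨IsSepClosure.sep_closed K, inferInstance⟩
  have hcj : ∀ s : Ω ≃ₐ[K] Ω, ∀ x ∈ L, s x ∈ L := by
    intro s x hx
    rw [hLm] at hx ⊢
    intro g hg
    have h1 := hx _ ((Ht.RK.HcK_normal (k := k) (K := K) (Ω := Ω) (n := n)).conj_mem g hg s⁻¹)
    rw [inv_inv, AlgEquiv.mul_apply, AlgEquiv.mul_apply] at h1
    have h3 := congrArg s h1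
    have h4 : ∀ y : Ω, s (s⁻¹ y) = y := fun y => s.apply_symm_apply y
    rwa [h4] at h3
  let F : L ≃ₐ[k] L :=
    { toFun := fun x => ⟨fr x, hcj fr x x.2⟩
      invFun := fun x => ⟨fr⁻¹ x, hcj fr⁻¹ x x.2⟩
      left_inv := fun x => Subtype.ext (fr.symm_apply_apply (x : Ω))
      right_inv := fun x => Subtype.ext (fr.apply_symm_apply (x : Ω))
      map_mul' := fun x y => Subtype.ext (map_mul fr _ _)
      map_add' := fun x y => Subtype.ext (map_add fr _ _)
      commutes' := fun x => Subtype.ext (fr.commutes (algebraMap k K x)) }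
  refine normOm_aux (L := L) h2 hn ?_ ?_ hfr (F := F) (fun x => rfl) ha h
  · intro g
    rw [← hLfix, IntermediateField.mem_fixingSubgroup_iff]
    exact ⟨fun h x => h x x.2, fun h x hx => h ⟨x, hx⟩⟩
  · intro x hx
    exact ⟨⟨x, (hLm x).2 hx⟩, rfl⟩

end Pool.Agent.SmL.C
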