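import Pool.Agent.Lib.SmL.C.Def
import Pool.Agent.Lib.SmN.F.LPl
import Pool.Agent.Lib.Ht.RK.Deg
import Pool.Agent.Lib.GBU.H.FPl

/-!
# SMITH-L, block C, module CxPl: places of the constant extension `L / K` of degree `n`

`L` = the fixed field of `HcK k K Ω n` (`hL`), `F` = the restriction of `fr` to `L` (`hF`).

PROOFS. `ord_above`: `w` a place of `Ω` above `u`, `v` the place of `K` below. `iner K w ≤ GeoK ≤ HcK n`
(`iner_le_GeoK`, `GeoK_le_HcK`), so every `x ∈ L^*` is fixed by inertia and `w(x) = w(π) ^ m`, `π` a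
uniformizer of `v` (`value_iner`, `locHyp_of_below`); for `x` a uniformizer of `u` this gives
`ord_u(π) m = 1`, so `ord_u(π) = 1`; and for general `x ∈ K`: `x = π ^ j * unit`.
`conj_above`: `u, u'` above `v`, `w, w'` places of `Ω` above them: `w' = tr g w` (`exists_tr`); on the
constants of level `n` the automorphism `g` acts as `x ↦ x ^ (q ^ j)` (`exists_isDegK`-type lemma,
`exists_pow_of_isC`), so `g = h fr ^ j` with `h ∈ HcK n` fixing `L`; so `u' = fp (F ^ i) u`, `i ≡ -j` mod
`n`.
`stab_above`: `fp (F ^ i) u = u`: as before there is `h ∈ HcK n` with `h fr ^ i ∈ dec K w` (up to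
signs). The elements of `dec K w` act on the constants of level `n` as `x ↦ x ^ (q ^ (j deg v))` for some
`j` (`IsTG.dec_gen'` or `fin_gen`: a power of a Frobenius element times inertia times an element of
`HcK n`; `phK` acts as `x ↦ x ^ (q ^ deg v)`: `ph_cst` of `SmN/R/LocK.lean`, inertia acts trivially). So
`i ≡ j deg v` modulo `n` (for a generator `ζ` of the constants of level `n`, see `exists_genK`,
`frob_expK` in `Ht/RK/Deg.lean`), hence `gcd (n, deg v) ∣ i`.
-/

set_option autoImplicit false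

open IsLocalRing

namespace Pool.Agent.SmL.C

open Pool.Agent.BSDFF Pool.Agent.Lib.SmD Pool.Agent.GBU Pool.Agent.GBC Pool.Agent.GBUH

variable {k K L : Type} [Field k] [Finite k] [Field K] [Algebra k K] [Algebra (RatFunc k) K]
  [IsScalarTower k (RatFunc k) K] [FiniteDimensional (RatFunc k) K]
  [Algebra.IsSeparable (RatFunc k) K]
  [Field L] [Algebra k L] [Algebra (RatFunc k) L]
  [IsScalarTower k (RatFunc k) L] [FiniteDimensional (RatFunc k) L]
  [Algebra.IsSeparable (RatFunc k) L] [Algebra K L]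
  {Om : Type} [Field Om] [Algebra K Om] [IsSepClosure K Om] [Algebra L Om] [IsSepClosure L Om]
  [IsScalarTower K L Om]

omit [Finite k] [Algebra (RatFunc k) K] [IsScalarTower k (RatFunc k) K]
  [FiniteDimensional (RatFunc k) K] [Algebra.IsSeparable (RatFunc k) K] [IsSepClosure K Om] in
private theorem CxPl_val {w : ValuationSubring Om} {v : Place k K} (hw : below K w = v.ring) {x : K}
    (hx : x ≠ 0) : w.valuation (algebraMap K Om x) =
      w.valuation (algebraMap K Om (unif v : K)) ^ ord v x := by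
  have hu : (unif v : K) ≠ 0 := fun h => (unif_irreducible v).ne_zero (Subtype.ext h)
  have h3 : x / (unif v : K) ^ ord v x ≠ 0 := div_ne_zero hx (zpow_ne_zero _ hu)
  have h4 : ord v (x / (unif v : K) ^ ord v x) = 0 := by
    rw [ord_div v hx (zpow_ne_zero _ hu), ord_zpow v hu, ord_unif, mul_one, sub_self]
  have h5 : w.valuation (algebraMap K Om (x / (unif v : K) ^ ord v x)) = 1 := by
    refine val_unit_below ?_ ?_ h3
    · rw [hw, mem_ring_iff v h3, h4]
    · rw [hw, mem_ring_iff v (inv_ne_zero h3), ord_inv v h3, h4, neg_zero]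
  have h1 : x = (x / (unif v : K) ^ ord v x) * (unif v : K) ^ ord v x := by
    rw [div_mul_cancel₀ _ (zpow_ne_zero _ hu)]
  conv_lhs => rw [h1, map_mul, map_mul, h5, one_mul, map_zpow₀, map_zpow₀]

omit [Algebra.IsSeparable (RatFunc k) K] in
private theorem CxPl_qK (v : Place k K) : qK v = Nat.card k ^ v.degree := by
  let _ := v.constMap.toAlgebra
  have := BSDK.residue_finite v
  exact Module.natCard_eq_pow_finrank (K := k) (V := ResidueField v.ring)

/-- `L / K` is unramified. -/
theorem ord_above (h2 : (2 : k) ≠ 0) {n : ℕ} (hn : 0 < n)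
    (hL : ∀ g ∈ HcK k K Om n, ∀ x : L, g (algebraMap L Om x) = algebraMap L Om x)
    {w : ValuationSubring Om} {u : Place k L} {v : Place k K} (hu : below L w = u.ring)
    (hv : below K w = v.ring) {x : K} (hx : x ≠ 0) : ord u (algebraMap K L x) = ord v x := by
  have hgal : IsGalois K Om := IsSepClosure.isGalois
  have hK := locHyp_of_below h2 v w hv (unif_irreducible v)
  have hLh := locHyp_of_below h2 u w hu (unif_irreducible u)
  have hv0 : (unif v : K) ≠ 0 := hK.pi_ne
  have hu0 : (unif u : L) ≠ 0 := hLh.pi_ne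
  have hinj : Function.Injective (algebraMap K L) := (algebraMap K L).injective
  -- the value of the uniformizer of `u`
  obtain ⟨m, hm⟩ := value_iner hK (x := algebraMap L Om (unif u : L))
    ((map_ne_zero_iff _ (algebraMap L Om).injective).2 hu0)
    (fun s hs => hL s (GeoK_le_HcK hn (iner_le_GeoK w hs)) _)
  have hpi : algebraMap K L (unif v : K) ≠ 0 := (map_ne_zero_iff _ hinj).2 hv0
  have h1 : w.valuation (algebraMap K Om (unif v : K)) =
      w.valuation (algebraMap L Om (unif u : L)) ^ ord u (algebraMap K L (unif v : K)) := by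
    rw [← CxPl_val hu hpi, ← IsScalarTower.algebraMap_apply]
  have h3 : ord u (algebraMap K L (unif v : K)) * m = 1 := by
    apply hLh.zpow_inj
    rw [zpow_mul, ← h1, ← hm, zpow_one]
  have h4 : 0 < ord u (algebraMap K L (unif v : K)) := by
    by_contra hcon
    push Not at hcon
    have h5 : ord u (algebraMap K L (unif v : K))⁻¹ = - ord u (algebraMap K L (unif v : K)) :=
      ord_inv u hpi
    have h6 : (algebraMap K L (unif v : K))⁻¹ ∈ u.ring := by
      rw [mem_ring_iff u (inv_ne_zero hpi), h5]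
      omega
    rw [← hu] at h6
    have h7 : w.valuation (algebraMap L Om (algebraMap K L (unif v : K))⁻¹) ≤ 1 :=
      mem_below_iff.1 h6
    rw [map_inv₀, map_inv₀, ← IsScalarTower.algebraMap_apply,
      inv_le_one₀ hK.pi_pos] at h7
    exact absurd hK.pi_lt (not_lt.2 h7)
  have h5 : ord u (algebraMap K L (unif v : K)) = 1 := by
    rcases Int.eq_one_or_neg_one_of_mul_eq_one h3 with h | h <;> omega
  apply hLh.zpow_inj
  rw [← CxPl_val hu ((map_ne_zero_iff _ hinj).2 hx), ← IsScalarTower.algebraMap_apply,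
    CxPl_val hv hx, h1, h5, zpow_one]

/-- The places above the same place are conjugate under the powers of `F`. -/
theorem conj_above (h2 : (2 : k) ≠ 0) {n : ℕ} (hn : 0 < n)
    (hL : ∀ g ∈ HcK k K Om n, ∀ x : L, g (algebraMap L Om x) = algebraMap L Om x)
    {fr : Om ≃ₐ[K] Om} (hfr : IsFrC k fr) {F : L ≃ₐ[k] L}
    (hF : ∀ x : L, algebraMap L Om (F x) = fr (algebraMap L Om x))
    {w w' : ValuationSubring Om} {u u' : Place k L} (hu : below L w = u.ring)
    (hu' : below L w' = u'.ring) (h : below K w = below K w') : ∃ i : ℕ, u' = fp (F ^ i) u := by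
  have hgal : IsGalois K Om := IsSepClosure.isGalois
  obtain ⟨g, hg⟩ := SmN.F.exists_tr h.symm
  obtain ⟨j, hj⟩ := exists_pow_inv_mul_mem hfr hn g
  have hpow : ∀ (j : ℕ) (y : L), algebraMap L Om ((F ^ j) y) = (fr ^ j) (algebraMap L Om y) := by
    intro j
    induction j with
    | zero => intro y; rfl
    | succ j ih =>
      intro y
      rw [pow_succ, pow_succ, AlgEquiv.mul_apply, AlgEquiv.mul_apply, ih, hF]
  refine ⟨j, place_ext ?_⟩
  ext y
  rw [mem_fp, ← hu, ← hu']
  change algebraMap L Om y ∈ w' ↔ algebraMap L Om ((F ^ j) y) ∈ w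
  have h1 : g (algebraMap L Om y) = (fr ^ j) (algebraMap L Om y) := by
    have h3 := congrArg (fr ^ j) (hL _ hj y)
    rw [AlgEquiv.mul_apply] at h3
    rw [← h3]
    exact ((fr ^ j).apply_symm_apply _).symm
  rw [hpow, ← h1, hg, SmN.F.mem_tr]
  have h4 : g⁻¹ (g (algebraMap L Om y)) = algebraMap L Om y := g.symm_apply_apply _
  rw [h4]

/-- The stabiliser of a place in the powers of `F`. -/
theorem stab_above (h2 : (2 : k) ≠ 0) {n : ℕ} (hn : 0 < n)
    (hL : ∀ g : Om ≃ₐ[K] Om, g ∈ HcK k K Om n ↔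
      ∀ x : L, g (algebraMap L Om x) = algebraMap L Om x)
    {fr : Om ≃ₐ[K] Om} (hfr : IsFrC k fr) {F : L ≃ₐ[k] L}
    (hF : ∀ x : L, algebraMap L Om (F x) = fr (algebraMap L Om x))
    {w : ValuationSubring Om} {u : Place k L} {v : Place k K} (hu : below L w = u.ring)
    (hv : below K w = v.ring) {i : ℕ} (h : fp (F ^ i) u = u) : Nat.gcd n v.degree ∣ i := by
  have hgal : IsGalois K Om := IsSepClosure.isGalois
  have hgal' : IsGalois L Om := IsSepClosure.isGalois
  have hsc : IsSepClosed Om := IsSepClosure.sep_closed K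
  have hpow : ∀ (j : ℕ) (y : L), algebraMap L Om ((F ^ j) y) = (fr ^ j) (algebraMap L Om y) := by
    intro j
    induction j with
    | zero => intro y; rfl
    | succ j ih =>
      intro y
      rw [pow_succ, pow_succ, AlgEquiv.mul_apply, AlgEquiv.mul_apply, ih, hF]
  -- an element of the decomposition group
  have h1 : below L (SmN.F.tr (fr ^ i)⁻¹ w) = below L w := by
    ext y
    have h3 : y ∈ below L w ↔ (F ^ i) y ∈ below L w := by
      conv_lhs => rw [hu, ← h, mem_fp, ← hu]
    rw [h3]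
    change algebraMap L Om y ∈ SmN.F.tr (fr ^ i)⁻¹ w ↔ algebraMap L Om ((F ^ i) y) ∈ w
    rw [SmN.F.mem_tr, inv_inv, hpow]
  obtain ⟨t, ht⟩ := SmN.F.exists_tr h1
  rw [← SmN.F.tr_res (K := K), ← SmN.F.tr_mul] at ht
  have hd : res K t * (fr ^ i)⁻¹ ∈ dec K w := SmN.F.mem_dec_iff_tr.2 ht.symm
  have hd' : fr ^ i * (res K t)⁻¹ ∈ dec K w := by
    have h3 := (dec K w).inv_mem hd
    rwa [mul_inv_rev, inv_inv] at h3
  have htc : (res K t)⁻¹ ∈ HcK k K Om n := by
    rw [hL]
    intro x
    rw [← map_inv]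
    exact t⁻¹.commutes x
  -- a generator of the constants of level `n`
  obtain ⟨p, f, hp, hf, hq, hOm⟩ := card_eq_pow_C k K Om
  have h3 := Ht.RK.three_le h2
  have hQ1 : 1 ≤ Nat.card k ^ n := Nat.one_le_pow _ _ (by omega)
  have hcast : ((Nat.card k ^ n - 1 : ℕ) : Om) = -1 := by
    rw [Nat.cast_sub hQ1, Nat.cast_pow, hq, Nat.cast_pow, CharP.cast_eq_zero, zero_pow hf.ne',
      zero_pow hn.ne', Nat.cast_one, zero_sub]
  have : NeZero ((Nat.card k ^ n - 1 : ℕ) : Om) := ⟨by
    rw [hcast]
    exact neg_ne_zero.2 one_ne_zero⟩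
  obtain ⟨ζ, hζ⟩ := HasEnoughRootsOfUnity.exists_primitiveRoot Om (Nat.card k ^ n - 1)
  have hζn : ζ ^ Nat.card k ^ n = ζ := by
    have h4 : Nat.card k ^ n = (Nat.card k ^ n - 1) + 1 := by omega
    rw [h4, pow_succ, hζ.pow_eq_one, one_mul]
  have hC : IsC k ζ := ⟨n, hn, hζn⟩
  -- the action of the decomposition group
  have hfin : Finite (ResidueField (below K w)) := by
    rw [hv]
    exact BSDK.residue_finite v
  obtain ⟨φ, hφ⟩ := exists_frob (K := K) w
  have hint : IsIntegral K ζ := (Algebra.IsAlgebraic.isAlgebraic (R := K) ζ).isIntegral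
  have hfd : FiniteDimensional K (IntermediateField.adjoin K {ζ}) :=
    IntermediateField.adjoin.finiteDimensional hint
  obtain ⟨m, ι, hι, h4⟩ := fin_gen hφ (IntermediateField.adjoin K {ζ}) hd'
  have h5 := h4 ζ (IntermediateField.mem_adjoin_simple_self K ζ)
  have h6 : ∀ m : ℕ, (φ ^ m) ζ = ζ ^ Nat.card k ^ (v.degree * m) := by
    intro m
    induction m with
    | zero => simp
    | succ m ih =>
      rw [pow_succ', AlgEquiv.mul_apply, ih, map_pow, frob_isC hφ hC, resCard_below hv, CxPl_qK,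
        ← pow_mul, ← pow_add, Nat.mul_succ, add_comm]
  have h7 : ι ((φ ^ m) ζ) = (φ ^ m) ζ := iner_le_GeoK w hι _ (hC.map _)
  rw [h7, h6, AlgEquiv.mul_apply, htc ζ hζn, hfr.pow i hC] at h5
  have h8 := Ht.RK.frob_expK hn hζ h3 h5
  rw [h8.dvd_iff (Nat.gcd_dvd_left n v.degree)]
  exact (Nat.gcd_dvd_right n v.degree).mul_right m

end Pool.Agent.SmL.C
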