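import Pool.Agent.Lib.GBU.GeoC
import Pool.Agent.Lib.GBU.NP

/-!
# SMITH-L, block C (`H^2` of a global function field at the prime `l`): definitions

`Coc2 l z`: `z` is an `NP`-finite 2-cocycle of `Gal(Ω / K)` with values in `ZMod l` (trivial action);
`linv sg ph q z`: the local invariant of `z`, the obstruction to lifting the relation
`ph sg ph⁻¹ = sg ^ q`;
`IsTGN l ζ v τ`: `τ` is a topological generator of the tame inertia at `v` which multiplies the `l`-th
roots of the uniformizers by `ζ`. RECIPROCITY holds only for generators normalised in this way, with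
the same `ζ` for all places.
-/

set_option autoImplicit false

namespace Pool.Agent.SmL.C

open Pool.Agent.BSDFF Pool.Agent.Lib.SmD Pool.Agent.GBU

/-- The local invariant. -/
def linv {G A : Type*} [Group G] [AddCommGroup A] (sg ph : G) (q : ℕ) (z : G → G → A) : A :=
  z ph sg - z (sg ^ q) ph - ∑ i ∈ Finset.Ico 1 q, z (sg ^ i) sg

variable {K Ω : Type} [Field K] [Field Ω] [Algebra K Ω]

/-- `NP`-finite functions. -/
def TF {α : Type*} (f : (Ω ≃ₐ[K] Ω) → α) : Prop :=
  ∃ N ∈ NP K Ω, ∀ s, ∀ n ∈ N, f (s * n) = f s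

/-- `NP`-finite functions of two variables. -/
def TF2 {α : Type*} (z : (Ω ≃ₐ[K] Ω) → (Ω ≃ₐ[K] Ω) → α) : Prop :=
  ∃ N ∈ NP K Ω, ∀ s t, ∀ n ∈ N, ∀ m ∈ N, z (s * n) (t * m) = z s t

/-- `NP`-finite 2-cocycles with values in `ZMod l`, trivial action. -/
structure Coc2 (l : ℕ) (z : (Ω ≃ₐ[K] Ω) → (Ω ≃ₐ[K] Ω) → ZMod l) : Prop where
  tf : TF2 z
  coc : ∀ s t w, z s t + z (s * t) w = z t w + z s (t * w)

variable {k : Type} [Field k] [Algebra k K]

/-- `τ` is a tame generator at `v`, normalised by the root of unity `ζ`. -/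
structure IsTGN (l : ℕ) (ζ : Ω) (v : Place k K) (τ : Ω ≃ₐ[K] Ω) : Prop where
  tg : IsTG K (abK Ω v) τ
  val : ∀ π : v.ring, Irreducible π → ∀ r : Ω, r ^ l = algebraMap K Ω (π : K) → τ r = ζ * r

open Classical in
/-- The chosen normalised tame generator. -/
noncomputable def sgN (l : ℕ) (ζ : Ω) (v : Place k K) : Ω ≃ₐ[K] Ω :=
  if h : ∃ τ, IsTGN l ζ v τ then h.choose else 1

end Pool.Agent.SmL.C
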