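import Pool.Agent.Lib.Ht.RK.Deg

set_option autoImplicit false

/-!
SMITH-L, block C (version of `Ht/RK/Deg.lean` for any `n`): the degree `Gal(Ω / K) → Z / n`, `K` a global
function field.

`IsDegN k n d`: `s x = x ^ (q ^ d s)` for all `x` with `x ^ (q ^ n) = x`.
-/

namespace Pool.Agent.SmL.C

open Pool.Agent.GBU Pool.Agent.Lib.SmD Pool.Agent.SmD Pool.Agent.Ht.RK

variable (k : Type) {K Ω : Type} [Field k] [Field K] [Field Ω] [Algebra K Ω]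

/-- `d` is the degree modulo `n` -/
def IsDegN (n : ℕ) (d : (Ω ≃ₐ[K] Ω) → ℕ) : Prop :=
  ∀ s : Ω ≃ₐ[K] Ω, ∀ x : Ω, x ^ (Nat.card k ^ n) = x → s x = x ^ (Nat.card k ^ d s)

variable {k}

section

variable [Finite k] [Algebra k K] [IsSepClosed Ω] (h2 : (2 : k) ≠ 0)

include h2

theorem exists_genN (K Ω : Type) [Field K] [Field Ω] [Algebra K Ω] [Algebra k K] [IsSepClosed Ω]
    {n : ℕ} (hn : 0 < n) : ∃ ζ : Ω, ζ ^ (Nat.card k ^ n) = ζ ∧ ∀ a b : ℕ,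
    ζ ^ (Nat.card k ^ a) = ζ ^ (Nat.card k ^ b) → a ≡ b [MOD n] := by
  obtain ⟨p, f, hp, hf, hq, hOm⟩ := card_eq_pow_C k K Ω
  have h3 := three_le h2
  have hQ1 : 1 ≤ Nat.card k ^ n := Nat.one_le_pow _ _ (by omega)
  have hcast : ((Nat.card k ^ n - 1 : ℕ) : Ω) = -1 := by
    rw [Nat.cast_sub hQ1, Nat.cast_pow, hq, Nat.cast_pow, CharP.cast_eq_zero, zero_pow hf.ne',
      zero_pow hn.ne', Nat.cast_one, zero_sub]
  have : NeZero ((Nat.card k ^ n - 1 : ℕ) : Ω) := ⟨by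
    rw [hcast]
    exact neg_ne_zero.2 one_ne_zero⟩
  obtain ⟨ζ, hζ⟩ := HasEnoughRootsOfUnity.exists_primitiveRoot Ω (Nat.card k ^ n - 1)
  refine ⟨ζ, ?_, fun a b h => frob_expK (k := k) hn hζ h3 h⟩
  have h1 : Nat.card k ^ n = (Nat.card k ^ n - 1) + 1 := by omega
  rw [h1, pow_succ, hζ.pow_eq_one, one_mul]

theorem IsDegN.unique {n : ℕ} (hn : 0 < n) {d d' : (Ω ≃ₐ[K] Ω) → ℕ} (hd : IsDegN k n d)
    (hd' : IsDegN k n d') (s : Ω ≃ₐ[K] Ω) : d s ≡ d' s [MOD n] := by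
  obtain ⟨ζ, h1, h3⟩ := exists_genN h2 K Ω hn
  exact h3 _ _ ((hd s ζ h1).symm.trans (hd' s ζ h1))

theorem IsDegN.mul {n : ℕ} (hn : 0 < n) {d : (Ω ≃ₐ[K] Ω) → ℕ} (hd : IsDegN k n d)
    (s t : Ω ≃ₐ[K] Ω) : d (s * t) ≡ d s + d t [MOD n] := by
  obtain ⟨ζ, h1, h3⟩ := exists_genN h2 K Ω hn
  apply h3
  rw [← hd (s * t) ζ h1, AlgEquiv.mul_apply, hd t ζ h1, map_pow, hd s ζ h1, ← pow_mul, ← pow_add]

theorem IsDegN.geo {n : ℕ} (hn : 0 < n) {d : (Ω ≃ₐ[K] Ω) → ℕ} (hd : IsDegN k n d) {s : Ω ≃ₐ[K] Ω}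
    (hs : s ∈ GeoK k K Ω) : d s ≡ 0 [MOD n] := by
  obtain ⟨ζ, h1, h3⟩ := exists_genN h2 K Ω hn
  apply h3
  rw [← hd s ζ h1, hs ζ ⟨n, hn, h1⟩, pow_zero, pow_one]

theorem IsDegN.hc {n : ℕ} (hn : 0 < n) {d : (Ω ≃ₐ[K] Ω) → ℕ} (hd : IsDegN k n d) {s : Ω ≃ₐ[K] Ω}
    (hs : s ∈ HcK k K Ω n) : d s ≡ 0 [MOD n] := by
  obtain ⟨ζ, h1, h3⟩ := exists_genN h2 K Ω hn
  apply h3
  rw [← hd s ζ h1, hs ζ h1, pow_zero, pow_one]

/-- the degree of an element which acts on the constants as `x ↦ x ^ (q ^ m)` -/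
theorem IsDegN.val {n : ℕ} (hn : 0 < n) {d : (Ω ≃ₐ[K] Ω) → ℕ} (hd : IsDegN k n d)
    {s : Ω ≃ₐ[K] Ω} {m : ℕ}
    (hs : ∀ x : Ω, IsC k x → s x = x ^ (Nat.card k ^ m)) : d s ≡ m [MOD n] := by
  obtain ⟨ζ, h1, h3⟩ := exists_genN h2 K Ω hn
  apply h3
  rw [← hd s ζ h1, hs ζ ⟨n, hn, h1⟩]

omit h2 [IsSepClosed Ω] in
theorem pow_lev_add {x : Ω} {n : ℕ} (hx : x ^ (Nat.card k ^ n) = x) (a j : ℕ) :
    x ^ (Nat.card k ^ (a + n * j)) = x ^ (Nat.card k ^ a) := by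
  rw [add_comm, pow_add, pow_mul, pow_level hx]

omit h2 [IsSepClosed Ω] in
/-- a degree with values in `{0, .., n - 1}` -/
theorem exists_isDegN {n : ℕ} (hn : 0 < n) :
    ∃ d : (Ω ≃ₐ[K] Ω) → ℕ, IsDegN k n d ∧ ∀ s, d s < n := by
  obtain ⟨u, hu0, hu, hgen⟩ := exists_generator_C (k := k) (Om := Ω) hn
  have key : ∀ s : Ω ≃ₐ[K] Ω, ∃ j : ℕ, (∀ x : Ω, x ^ (Nat.card k ^ n) = x →
      s x = x ^ (Nat.card k ^ j)) ∧ j < n := by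
    intro s
    obtain ⟨i, hi⟩ := exists_pow_of_isC (k := k) ⟨_, hn, hu⟩ s
    refine ⟨i % n, fun x hx => ?_, Nat.mod_lt _ hn⟩
    have h1 := pow_lev_add (k := k) hx (i % n) (i / n)
    rw [Nat.mod_add_div] at h1
    rw [← h1]
    rcases eq_or_ne x 0 with rfl | hx0
    · rw [map_zero, zero_pow (pow_pos Nat.card_pos _).ne']
    · obtain ⟨j, rfl⟩ := hgen x hx0 hx
      rw [map_pow, hi, ← pow_mul, ← pow_mul, mul_comm]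
  choose d hd using key
  exact ⟨d, fun s => (hd s).1, fun s => (hd s).2⟩

omit h2 [Finite k] [Algebra k K] [IsSepClosed Ω] in
/-- the relation with an element which acts on the constants as the Frobenius automorphism -/
theorem IsDegN.fr {n : ℕ} (hn : 0 < n) {d : (Ω ≃ₐ[K] Ω) → ℕ} (hd : IsDegN k n d)
    {fr : Ω ≃ₐ[K] Ω} (hfr : IsFrC k fr) (s : Ω ≃ₐ[K] Ω) : s * (fr ^ d s)⁻¹ ∈ HcK k K Ω n := by
  have h3 : ∀ x : Ω, x ^ (Nat.card k ^ n) = x → (fr ^ d s) x = s x := by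
    intro x hx
    rw [hfr.pow (d s) ⟨_, hn, hx⟩, hd s x hx]
  intro x hx
  rw [AlgEquiv.mul_apply]
  have h4 : ((fr ^ d s)⁻¹ x) ^ (Nat.card k ^ n) = (fr ^ d s)⁻¹ x := by
    rw [← map_pow, hx]
  rw [← h3 _ h4]
  exact (fr ^ d s).apply_symm_apply x

/-- the carry -/
theorem IsDegN.carry {n : ℕ} (hn : 0 < n) {d : (Ω ≃ₐ[K] Ω) → ℕ} (hd : IsDegN k n d)
    (hlt : ∀ s, d s < n) :
    ∃ c : (Ω ≃ₐ[K] Ω) → (Ω ≃ₐ[K] Ω) → ℕ, (∀ g h, d g + d h = d (g * h) + n * c g h) ∧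
      ∀ g h, c g h ≤ 1 := by
  refine ⟨fun g h => (d g + d h) / n, fun g h => ?_, fun g h => ?_⟩
  · have h1 : d (g * h) = (d g + d h) % n := by
      have h3 := hd.mul h2 hn g h
      unfold Nat.ModEq at h3
      rwa [Nat.mod_eq_of_lt (hlt _)] at h3
    rw [h1, Nat.mod_add_div]
  · have h1 := hlt g
    have h3 := hlt h
    exact Nat.lt_succ_iff.1 (Nat.div_lt_of_lt_mul (by omega))

theorem IsDegN.hc_right {n : ℕ} (hn : 0 < n) {d : (Ω ≃ₐ[K] Ω) → ℕ} (hd : IsDegN k n d)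
    (hlt : ∀ s, d s < n) (g : Ω ≃ₐ[K] Ω) {h : Ω ≃ₐ[K] Ω} (hh : h ∈ HcK k K Ω n) :
    d (g * h) = d g := by
  have h1 := (hd.mul h2 hn g h).trans ((hd.hc h2 hn hh).add_left (d g))
  rw [add_zero] at h1
  unfold Nat.ModEq at h1
  rwa [Nat.mod_eq_of_lt (hlt _), Nat.mod_eq_of_lt (hlt _)] at h1

end

end Pool.Agent.SmL.C
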