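import Pool.Agent.Lib.Ht.RK.Gal

/-!
# SMITH-L, block C, module GalM: the lemmas of `Ht/RK/Gal.lean` for `M` instead of `2 ^ e`
-/

set_option autoImplicit false

namespace Pool.Agent.SmL.C

open Pool.Agent.Lib.SmD Pool.Agent.SmD Pool.Agent.Ht.RK

variable {K Ω : Type} [Field K] [Field Ω] [Algebra K Ω]

theorem exists_rootM [IsSepClosed Ω] {M : ℕ} (hM : (M : Ω) ≠ 0) (y : Ωˣ) :
    ∃ r : Ωˣ, r ^ M = y := by
  have : NeZero ((M : ℕ) : Ω) := ⟨hM⟩
  have hM0 : M ≠ 0 := by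
    rintro rfl
    exact hM Nat.cast_zero
  obtain ⟨z, hz⟩ := IsSepClosed.exists_pow_nat_eq (y : Ω) M
  have hz0 : z ≠ 0 := by
    rintro rfl
    rw [zero_pow hM0] at hz
    exact y.ne_zero hz.symm
  exact ⟨Units.mk0 z hz0, Units.ext (by rw [Units.val_pow_eq_pow_val, Units.val_mk0, hz])⟩

/-- a two-cochain with values in `μ_M` which splits over `A` with values in `Ω^*` splits with values
in `μ_M` -/
theorem kumStepM [IsGalois K Ω] [IsSepClosed Ω] {M : ℕ} (hM : (M : Ω) ≠ 0)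
    (A : Subgroup (Ω ≃ₐ[K] Ω))
    (c : (Ω ≃ₐ[K] Ω) → (Ω ≃ₐ[K] Ω) → Ωˣ) (hc : ∀ s ∈ A, ∀ t ∈ A, c s t ^ M = 1)
    (β : (Ω ≃ₐ[K] Ω) → Ωˣ) (hβ : LC A β) (hs : Spl A c β) :
    ∃ b : (Ω ≃ₐ[K] Ω) → Ωˣ, (∀ s, b s ^ M = 1) ∧ LC A b ∧ Spl A c b := by
  classical
  obtain ⟨y, hy⟩ := h90 A (fun s => β s ^ M) (hβ.comp fun u => u ^ M) (by
    intro s hsA t htA
    have h4 := congrArg (fun u => u ^ M) (hs s hsA t htA)
    rw [hc s hsA t htA, mul_pow, mul_pow, inv_pow, ← smul_pow'] at h4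
    change β (s * t) ^ M = β s ^ M * s • (β t ^ M)
    rw [eq_comm, mul_inv_eq_one] at h4
    exact h4.symm)
  obtain ⟨r, hr⟩ := exists_rootM hM y
  have hval : ∀ s ∈ A, (β s * (s • r * r⁻¹)⁻¹) ^ M = 1 := by
    intro s hsA
    have h4 : β s ^ M = s • y * y⁻¹ := hy s hsA
    rw [mul_pow, inv_pow, mul_pow, inv_pow, ← smul_pow', hr, h4, mul_inv_cancel]
  refine ⟨fun s => if s ∈ A then β s * (s • r * r⁻¹)⁻¹ else 1, ?_, ?_, ?_⟩
  · intro s
    by_cases hsA : s ∈ A
    · simp only [hsA, if_true]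
      exact hval s hsA
    · simp only [hsA, if_false, one_pow]
  · refine LC.congr ((hβ.prod (lc_smul A r)).comp fun x : Ωˣ × Ωˣ => x.1 * (x.2 * r⁻¹)⁻¹)
      fun s hsA => ?_
    rw [if_pos hsA]
  · intro s hsA t htA
    simp only [hsA, htA, A.mul_mem hsA htA, if_true]
    rw [hs s hsA t htA, smul_mul', smul_inv', smul_mul', smul_inv', mul_smul]
    set u := s • t • r
    set v := s • r
    set w := β s
    set w' := s • β t
    set w'' := β (s * t)
    have key : ∀ (X : Type) [AddCommGroup X] (w w' w'' u v r : X),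
        w + w' + -w'' = w + -(v + -r) + (w' + -(u + -v)) + -(w'' + -(u + -r)) := by
      intro X _ w w' w'' u v r
      abel
    exact key (Additive Ωˣ) w w' w'' u v r

/-- a root of unity of order `M` which is `1` in the residue field is `1` -/
private theorem GalM_one {F : Type*} [Field F] (w : ValuationSubring F) {M : ℕ}
    (hwM : w.valuation (M : F) = 1) {z : F} (hz : z ^ M = 1) (h : w.valuation (z - 1) < 1) :
    z = 1 := by
  by_contra hne
  have hl0 : M ≠ 0 := by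
    rintro rfl
    rw [Nat.cast_zero, map_zero] at hwM
    exact zero_ne_one hwM
  have hzw : w.valuation z = 1 := by
    have h1 : w.valuation z ^ M = 1 := by rw [← map_pow, hz, map_one]
    exact (pow_eq_one_iff.1 h1).resolve_right hl0
  have h1 : ∑ i ∈ Finset.range M, z ^ i = 0 := by
    have h2 := geom_sum_mul z M
    rw [hz, sub_self] at h2
    exact (mul_eq_zero.1 h2).resolve_right (sub_ne_zero.2 hne)
  have h3 : (M : F) = -∑ i ∈ Finset.range M, (z ^ i - 1) := by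
    rw [Finset.sum_sub_distrib, h1]
    simp
  have h4 : w.valuation (∑ i ∈ Finset.range M, (z ^ i - 1)) < 1 := by
    refine w.valuation.map_sum_lt one_ne_zero fun i _ => ?_
    rw [← geom_sum_mul z i, map_mul]
    refine lt_of_le_of_lt (mul_le_of_le_one_left' ?_) h
    refine w.valuation.map_sum_le fun j _ => ?_
    rw [map_pow, hzw, one_pow]
  rw [h3, Valuation.map_neg] at hwM
  exact absurd hwM h4.ne

theorem root_fix_inerM {w : ValuationSubring Ω} {M : ℕ} (hM : w.valuation (M : Ω) = 1)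
    {σ : Ω ≃ₐ[K] Ω} (hσ : σ ∈ iner K w) {z : Ω} (hz : w.valuation z = 1)
    (h : σ (z ^ M) = z ^ M) : σ z = z := by
  have hz0 : z ≠ 0 := (Valuation.ne_zero_iff w.valuation).1 (by rw [hz]; exact one_ne_zero)
  have hzw : z ∈ w := (w.valuation_le_one_iff z).1 hz.le
  have h5 : (σ z / z) ^ M = 1 := by
    rw [div_pow, ← map_pow, h, div_self (pow_ne_zero _ hz0)]
  have h6 : w.valuation (σ z / z - 1) < 1 := by
    have h7 : σ z / z - 1 = (σ z - z) / z := by
      rw [sub_div, div_self hz0]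
    rw [h7, map_div₀, hz, div_one]
    exact hσ.2 z hzw
  have h9 := GalM_one w hM h5 h6
  rwa [div_eq_one_iff_eq hz0] at h9

theorem mu_fix_inerM {w : ValuationSubring Ω} {M : ℕ} (hM : w.valuation (M : Ω) = 1)
    {σ : Ω ≃ₐ[K] Ω} (hσ : σ ∈ iner K w) {u : Ωˣ} (hu : u ^ M = 1) : σ • u = u := by
  have hM0 : M ≠ 0 := by
    rintro rfl
    rw [Nat.cast_zero, map_zero] at hM
    exact zero_ne_one hM
  have h1 : (u : Ω) ^ M = 1 := by
    rw [← Units.val_pow_eq_pow_val, hu, Units.val_one]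
  apply Units.ext
  change σ (u : Ω) = u
  refine root_fix_inerM hM hσ ?_ ?_
  · have h3 : w.valuation (u : Ω) ^ M = 1 := by rw [← map_pow, h1, map_one]
    exact (pow_eq_one_iff.1 h3).resolve_right hM0
  · rw [h1, map_one]

end Pool.Agent.SmL.C
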