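import Pool.Agent.Lib.SmL.C.RecD
import Pool.Agent.Lib.SmL.C.DegN
import Pool.Agent.Lib.SmL.C.GalM

/-!
# SMITH-L, block C: finiteness of Kummer cocycles and of cochains with finite coboundary; the Kummer
character of an element of `K` on the inertia group
-/

set_option autoImplicit false

namespace Pool.Agent.SmL.C

open Pool.Agent.BSDFF Pool.Agent.Lib.SmD Pool.Agent.GBU Pool.Agent.SmD Pool.Agent.GBC
open Pool.Agent.Ht.RK (LC Spl cob_coc)

section mu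

variable {k K Ω : Type} [Field k] [Field K] [Field Ω] [Algebra K Ω]

/-- `q ^ (l ^ r) ≡ 1` modulo `l ^ r` if `q ≡ 1` modulo `l` -/
theorem modEq_pow {q l : ℕ} (h : q ≡ 1 [MOD l]) (r : ℕ) : q ^ (l ^ r) ≡ 1 [MOD l ^ r] := by
  have h1 : (l : ℤ) ∣ (q : ℤ) - 1 := by
    have h3 := (Nat.modEq_iff_dvd.1 h.symm)
    exact_mod_cast h3
  have h3 := dvd_sub_pow_of_dvd_sub h1 r
  rw [one_pow] at h3
  apply Nat.ModEq.symm
  rw [Nat.modEq_iff_dvd]
  push_cast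
  exact (pow_dvd_pow _ (Nat.le_succ r)).trans h3

/-- the elements which fix the constants of level `l ^ r` fix the roots of unity of order `l ^ r` -/
theorem hc_muN {l : ℕ} (hlq : Nat.card k ≡ 1 [MOD l]) {r : ℕ} {n : Ω ≃ₐ[K] Ω}
    (hn : n ∈ HcK k K Ω (l ^ r)) {u : Ωˣ} (hu : u ^ (l ^ r) = 1) : n • u = u := by
  apply Units.ext
  change n (u : Ω) = u
  apply hn
  have h3 : u ^ (Nat.card k ^ (l ^ r)) = u := by
    rw [pow_eq_pow_mod _ hu, modEq_pow hlq r, ← pow_eq_pow_mod _ hu, pow_one]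
  rw [← Units.val_pow_eq_pow_val, h3]

/-- roots of unity of order `l ^ r` are constants -/
theorem isC_muN {l : ℕ} (hl : 0 < l) (hlq : Nat.card k ≡ 1 [MOD l]) {r : ℕ} {u : Ωˣ}
    (hu : u ^ (l ^ r) = 1) : IsC k (u : Ω) := by
  refine ⟨l ^ r, pow_pos hl r, ?_⟩
  have h3 : u ^ (Nat.card k ^ (l ^ r)) = u := by
    rw [pow_eq_pow_mod _ hu, modEq_pow hlq r, ← pow_eq_pow_mod _ hu, pow_one]
  rw [← Units.val_pow_eq_pow_val, h3]

/-- the Kummer cocycle of an element of `K` is finite -/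
theorem exists_kumN [IsGalois K Ω] {l : ℕ} (hlq : Nat.card k ≡ 1 [MOD l])
    {NN : Set (Subgroup (Ω ≃ₐ[K] Ω))} (hN : FamL k l NN) (r : ℕ) {y : Ωˣ}
    (hy : ∀ g : Ω ≃ₐ[K] Ω, g • (y ^ (l ^ r)) = y ^ (l ^ r)) :
    ∃ N ∈ NN, N ≤ HcK k K Ω (l ^ r) ∧ ∀ n ∈ N, n • y = y := by
  have hκ : ∀ g : Ω ≃ₐ[K] Ω, (g • y * y⁻¹) ^ (l ^ r) = 1 := fun g => by
    rw [mul_pow, inv_pow, ← smul_pow', hy, mul_inv_cancel]
  have hkr : ∀ g : Ω ≃ₐ[K] Ω, g • y = (g • y * y⁻¹) * y := fun g => by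
    rw [inv_mul_cancel_right]
  have hN0m := hN.hc r
  set N0 : Subgroup (Ω ≃ₐ[K] Ω) := HcK k K Ω (l ^ r) with hN0
  have hN0u : ∀ n ∈ N0, ∀ u : Ωˣ, u ^ (l ^ r) = 1 → n • u = u := fun n hn u hu =>
    hc_muN hlq hn hu
  set N1 : Subgroup (Ω ≃ₐ[K] Ω) := N0 ⊓ MulAction.stabilizer (Ω ≃ₐ[K] Ω) y with hN1
  have hmem : ∀ n, n ∈ N1 ↔ n ∈ N0 ∧ n • y = y := fun n => Iff.rfl
  have hnorm : N1.Normal := by
    refine ⟨fun n hn g => ?_⟩
    rw [hmem] at hn ⊢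
    refine ⟨(hN.normal _ hN0m).conj_mem n hn.1 g, ?_⟩
    rw [mul_smul, mul_smul, hkr g⁻¹, smul_mul', hN0u n hn.1 _ (hκ g⁻¹), hn.2, ← hkr,
      smul_inv_smul]
  have hopen : IsOpen (N1 : Set (Ω ≃ₐ[K] Ω)) := by
    have h1 : MulAction.stabilizer (Ω ≃ₐ[K] Ω) y = MulAction.stabilizer (Ω ≃ₐ[K] Ω) (y : Ω) := by
      ext g
      rw [MulAction.mem_stabilizer_iff, MulAction.mem_stabilizer_iff, Units.ext_iff]
      rfl
    rw [hN1, Subgroup.coe_inf, h1]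
    exact (hN.isOpen _ hN0m).inter (stabilizer_isOpen_of_isIntegral (K := K) _)
  refine ⟨N1, hN.ext N0 hN0m N1 hnorm hopen inf_le_left fun σ hσ => ⟨r, ?_⟩, inf_le_left,
    fun n hn => ((hmem n).1 hn).2⟩
  have h3 : ∀ j : ℕ, (σ ^ j) • y * y⁻¹ = (σ • y * y⁻¹) ^ j := by
    intro j
    induction j with
    | zero => rw [pow_zero, pow_zero, one_smul, mul_inv_cancel]
    | succ j ih =>
      rw [pow_succ, cob_coc, ih, pow_succ, hN0u _ (N0.pow_mem hσ j) _ (hκ _)]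
  refine (hmem _).2 ⟨N0.pow_mem hσ _, ?_⟩
  rw [hkr, h3, hκ, one_mul]

/-- a cochain with values in `μ_(l^r)` with finite coboundary is finite -/
theorem tf_cobN {l : ℕ} (hlq : Nat.card k ≡ 1 [MOD l])
    {NN : Set (Subgroup (Ω ≃ₐ[K] Ω))} (hN : FamL k l NN) {r : ℕ} {B : (Ω ≃ₐ[K] Ω) → Ωˣ}
    (hB : ∀ s, B s ^ (l ^ r) = 1) (hBl : LC ⊤ B) {C : (Ω ≃ₐ[K] Ω) → (Ω ≃ₐ[K] Ω) → Ωˣ}
    (hC : ∃ N ∈ NN, ∀ s t, ∀ n ∈ N, ∀ m ∈ N, C (s * n) (t * m) = C s t)
    (h : ∀ s t, C s t = B s * s • B t * (B (s * t))⁻¹) :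
    ∃ N ∈ NN, ∀ s, ∀ n ∈ N, B (s * n) = B s := by
  obtain ⟨N2, hN2, hC⟩ := hC
  obtain ⟨N3, hN3n, hN3o, hN3⟩ := hBl
  set N : Subgroup (Ω ≃ₐ[K] Ω) := N2 ⊓ HcK k K Ω (l ^ r) with hNd
  have hNm : N ∈ NN := hN.inf_mem _ hN2 _ (hN.hc r)
  have hNn := hN.normal _ hNm
  have hmu : ∀ n ∈ N, ∀ u : Ωˣ, u ^ (l ^ r) = 1 → n • u = u := fun n hn u hu =>
    hc_muN hlq hn.2 hu
  have hC1 : ∀ s t, ∀ m ∈ N, C s (t * m) = C s t := fun s t m hm => by
    have := hC s t 1 N2.one_mem m hm.1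
    rwa [mul_one] at this
  have hC2 : ∀ s t, ∀ m ∈ N, C (s * m) t = C s t := fun s t m hm => by
    have := hC s t m hm.1 1 N2.one_mem
    rwa [mul_one] at this
  -- the value at `s n`
  have h1 : ∀ s, ∀ n ∈ N, B (s * n) = B s * s • (B n * (B 1)⁻¹) := by
    intro s n hn
    have e1 := h s n
    have e2 := h s 1
    have e3 : C s n = C s 1 := by
      have := hC1 s 1 n hn
      rwa [one_mul] at this
    rw [e3, e2, mul_one] at e1
    rw [smul_mul', smul_inv']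
    generalize B (s * n) = x at e1 ⊢
    generalize s • B n = u at e1 ⊢
    generalize s • B 1 = v at e1 ⊢
    generalize B s = b at e1 ⊢
    have key : ∀ (X : Type) [AddCommGroup X] (x u v b : X),
        b + v + -b = b + u + -x → x = b + (u + -v) := by
      intro X _ x u v b hh
      have : x = b + u - (b + v + -b) := by rw [hh]; abel
      rw [this]
      abel
    exact key (Additive Ωˣ) x u v b e1
  -- the kernel
  let N' : Subgroup (Ω ≃ₐ[K] Ω) :=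
    { carrier := {n | n ∈ N ∧ B n = B 1}
      one_mem' := ⟨N.one_mem, rfl⟩
      mul_mem' := by
        rintro a b ⟨ha, ha'⟩ ⟨hb, hb'⟩
        refine ⟨N.mul_mem ha hb, ?_⟩
        rw [h1 a b hb, hb', mul_inv_cancel, smul_one, mul_one, ha']
      inv_mem' := by
        rintro a ⟨ha, ha'⟩
        refine ⟨N.inv_mem ha, ?_⟩
        have := h1 a⁻¹ a ha
        rw [ha', mul_inv_cancel, smul_one, mul_one, inv_mul_cancel] at this
        exact this.symm }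
  have hmem : ∀ n, n ∈ N' ↔ n ∈ N ∧ B n = B 1 := fun n => Iff.rfl
  have hgo : ∀ s, ∀ n ∈ N', B (s * n) = B s := by
    intro s n hn
    rw [h1 s n hn.1, ((hmem n).1 hn).2, mul_inv_cancel, smul_one, mul_one]
  have hnorm : N'.Normal := by
    refine ⟨fun n hn g => ?_⟩
    rw [hmem] at hn ⊢
    have hcj : g * n * g⁻¹ ∈ N := hNn.conj_mem n hn.1 g
    refine ⟨hcj, ?_⟩
    -- `B (n g⁻¹)`
    have e1 := h n g⁻¹
    have e2 : C n g⁻¹ = C 1 g⁻¹ := by
      have := hC2 1 g⁻¹ n hn.1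
      rwa [one_mul] at this
    have e3 := h 1 g⁻¹
    rw [one_smul, one_mul] at e3
    rw [e2, e3, hmu n hn.1 _ (hB g⁻¹), hn.2] at e1
    have e4 : B (n * g⁻¹) = B g⁻¹ := by
      have := mul_left_cancel e1
      exact inv_injective this.symm
    have e5 := h g (n * g⁻¹)
    have e6 := h g g⁻¹
    have e7 : C g (n * g⁻¹) = C g g⁻¹ := by
      have h3 := hC1 g g⁻¹ (g * n * g⁻¹) hcj
      have h4 : g⁻¹ * (g * n * g⁻¹) = n * g⁻¹ := by group
      rwa [h4] at h3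
    rw [e7, e6, e4] at e5
    have e8 := mul_left_cancel e5
    rw [← mul_assoc, mul_inv_cancel] at e8
    exact inv_injective e8.symm
  have hopen : IsOpen (N' : Set (Ω ≃ₐ[K] Ω)) := by
    refine Subgroup.isOpen_mono (H₁ := N ⊓ N3) ?_ ?_
    · rintro n ⟨hn, hn3⟩
      refine ⟨hn, ?_⟩
      have := hN3 1 trivial n hn3 trivial
      rwa [one_mul] at this
    · rw [Subgroup.coe_inf]
      exact (hN.isOpen _ hNm).inter hN3o
  refine ⟨N', hN.ext N hNm N' hnorm hopen (fun n hn => hn.1) fun s hs => ⟨r, ?_⟩, hgo⟩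
  rw [hmem]
  refine ⟨N.pow_mem hs _, ?_⟩
  have h3 : ∀ j : ℕ, B (s ^ j) = (B s * (B 1)⁻¹) ^ j * B 1 := by
    intro j
    induction j with
    | zero => rw [pow_zero, pow_zero, one_mul]
    | succ j ih =>
      have h5 : (B s * (B 1)⁻¹) ^ (l ^ r) = 1 := by
        rw [mul_pow, inv_pow, hB, hB, inv_one, one_mul]
      rw [pow_succ s, h1 _ s hs, hmu _ (N.pow_mem hs j) _ h5, ih, pow_succ]
      exact mul_right_comm _ _ _
  rw [h3, mul_pow, inv_pow, hB, hB, inv_one, mul_one, one_mul]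

end mu

section kum

variable {k K Ω : Type} [Field k] [Field K] [Algebra k K] [Field Ω] [Algebra K Ω]

/-- the Kummer character of `a` on the inertia group -/
theorem kum_ord {v : Place k K} {w : ValuationSubring Ω} (hw : below K w = v.ring) {M : ℕ}
    (hM : w.valuation (M : Ω) = 1) (hM0 : M ≠ 0) {σ : Ω ≃ₐ[K] Ω} (hσ : σ ∈ iner K w) {π : v.ring}
    (hπ : Irreducible π) {r : Ωˣ} (hr : (r : Ω) ^ M = algebraMap K Ω (π : K)) {a : K} (ha : a ≠ 0)
    {y : Ωˣ} (hy : (y : Ω) ^ M = algebraMap K Ω a) :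
    σ • y * y⁻¹ = (σ • r * r⁻¹) ^ (ord v a) := by
  obtain ⟨hπ0, hπ1⟩ := (irreducible_iff v π).1 hπ
  set m := ord v a with hm
  set x : K := a * ((π : K) ^ m)⁻¹ with hx
  have hx0 : x ≠ 0 := mul_ne_zero ha (inv_ne_zero (zpow_ne_zero _ hπ0))
  have hxo : ord v x = 0 := by
    rw [hx, ord_mul v ha (inv_ne_zero (zpow_ne_zero _ hπ0)), ord_inv v (zpow_ne_zero _ hπ0),
      ord_zpow v hπ0, hπ1]
    omega
  have hwx : w.valuation (algebraMap K Ω x) = 1 := by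
    refine val_unit_below ?_ ?_ hx0
    · rw [hw, mem_ring_iff v hx0, hxo]
    · rw [hw, mem_ring_iff v (inv_ne_zero hx0), ord_inv v hx0, hxo, neg_zero]
  set z : Ωˣ := y * (r ^ m)⁻¹ with hz
  have hzM : (z : Ω) ^ M = algebraMap K Ω x := by
    rw [hz, Units.val_mul, Units.val_inv_eq_inv_val, Units.val_zpow_eq_zpow_val, mul_pow, hy,
      inv_pow, ← zpow_natCast, ← zpow_mul, mul_comm m, zpow_mul, zpow_natCast, hr, hx, map_mul,
      map_inv₀, map_zpow₀]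
  have hwz : w.valuation (z : Ω) = 1 := by
    have h1 : w.valuation (z : Ω) ^ M = 1 := by rw [← map_pow, hzM, hwx]
    exact (pow_eq_one_iff.1 h1).resolve_right hM0
  have hfix : σ • z = z := by
    apply Units.ext
    change σ (z : Ω) = z
    apply root_fix_inerM hM hσ hwz
    rw [hzM, AlgEquiv.commutes]
  have hy' : y = z * r ^ m := by rw [hz, inv_mul_cancel_right]
  have h3 : σ • (r ^ m) = (σ • r) ^ m :=
    map_zpow (MulDistribMulAction.toMonoidHom Ωˣ σ) r m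
  rw [hy', smul_mul', hfix, h3, mul_zpow, inv_zpow]
  generalize (σ • r) ^ m = A
  generalize r ^ m = B
  rw [mul_inv, mul_comm z A, mul_mul_mul_comm]
  rw [mul_assoc A, inv_mul_cancel_left]

end kum

end Pool.Agent.SmL.C
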