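import Pool.Agent.Lib.SmL.C.LevK
import Pool.Agent.Lib.SmL.C.DegN
import Pool.Agent.Lib.SmL.C.GalM
import Pool.Agent.Lib.Ht.RK.Glob

set_option autoImplicit false

/-!
SMITH-L, block C, global part (version of `Ht/RK/Glob.lean` at the prime `l`): every locally constant
two-cocycle of `Gal(Ω / K)` with values in `μ_(l^e)` is, up to a coboundary, the cyclic cocycle
`a ^ carry`, `a ∈ K^*`, or the cup product of the degree and the Kummer cocycle of `a`.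
-/

namespace Pool.Agent.SmL.C

open Pool.Agent.SmithC Pool.Agent.SmithC.EGrp Pool.Agent.Lib.SmD Pool.Agent.GBU Pool.Agent.GBUH
open Pool.Agent.SmD Pool.Agent.Ht.RK

theorem HcK_mono {k K Ω : Type} [Field k] [Field K] [Field Ω] [Algebra K Ω] {l r r' : ℕ}
    (h : r ≤ r') : HcK k K Ω (l ^ r') ≤ HcK k K Ω (l ^ r) := by
  intro s hs x hx
  apply hs
  obtain ⟨j, rfl⟩ := Nat.exists_eq_add_of_le h
  rw [pow_add l, pow_level hx]

variable {k K Ω : Type} [Field k] [Finite k] [Field K] [Algebra k K] [Algebra (RatFunc k) K]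
  [FiniteDimensional (RatFunc k) K] [Algebra.IsSeparable (RatFunc k) K] [Field Ω] [Algebra K Ω]
  [IsSepClosure K Ω]

/-- **Global cocycles are cyclic.** -/
theorem glob_splitN (h2 : (2 : k) ≠ 0) {l : ℕ} (hl : l.Prime) (hlk : (l : k) ≠ 0)
    {fr : Ω ≃ₐ[K] Ω} (hfr : IsFrC k fr) (e r0 : ℕ)
    (F : (Ω ≃ₐ[K] Ω) → (Ω ≃ₐ[K] Ω) → Ωˣ) (hM : ∀ s t, F s t ^ (l ^ e) = 1)
    (hF : ∃ N : Subgroup (Ω ≃ₐ[K] Ω), IsOpen (N : Set (Ω ≃ₐ[K] Ω)) ∧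
      ∀ s t, ∀ n ∈ N, ∀ m ∈ N, F (s * n) (t * m) = F s t)
    (hcoc : ∀ s t u, F s t * F (s * t) u = s • F t u * F s (t * u)) :
    ∃ (r : ℕ) (y : Ωˣ) (d : (Ω ≃ₐ[K] Ω) → ℕ) (c : (Ω ≃ₐ[K] Ω) → (Ω ≃ₐ[K] Ω) → ℕ)
      (β : (Ω ≃ₐ[K] Ω) → Ωˣ), r0 ≤ r ∧
      (∀ g : Ω ≃ₐ[K] Ω, g • (y ^ (l ^ r)) = y ^ (l ^ r)) ∧
      IsDegN k (l ^ r) d ∧ (∀ s, d s < l ^ r) ∧
      (∀ g h, d g + d h = d (g * h) + l ^ r * c g h) ∧ LC ⊤ β ∧
      (∀ s t, F s t = (y ^ (l ^ r)) ^ c s t * (β s * s • β t * (β (s * t))⁻¹)) := by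
  classical
  have hsc : IsSepClosed Ω := IsSepClosure.sep_closed K
  have hgal : IsGalois K Ω := IsSepClosure.isGalois
  have hlΩ : (l : Ω) ≠ 0 := by
    have h1 := (map_ne_zero_iff _ ((algebraMap K Ω).comp (algebraMap k K)).injective).2 hlk
    rwa [map_natCast] at h1
  obtain ⟨r1, b, hbM, hbl, hb⟩ := levelKL (k := k) h2 hl hlk e F hM hF hcoc
  obtain ⟨r, hr0, hr1⟩ : ∃ r, r0 ≤ r ∧ r1 ≤ r := ⟨max r0 r1, le_max_left _ _, le_max_right _ _⟩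
  set H : Subgroup (Ω ≃ₐ[K] Ω) := HcK k K Ω (l ^ r) with hH
  have hHle : H ≤ HcK k K Ω (l ^ r1) := HcK_mono hr1
  have hn : 0 < l ^ r := pow_pos hl.pos _
  have hHn : H.Normal := by rw [hH]; infer_instance
  have hHo : IsOpen (H : Set (Ω ≃ₐ[K] Ω)) := isOpen_HcK hn
  have hf : IsTwoCoc (actG K Ω) F := fun s t w => hcoc s t w
  have hb' : SplA (actG K Ω) F H b := fun s hs t ht => hb s (hHle hs) t (hHle ht)
  -- an open normal subgroup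
  obtain ⟨N1, n1o, n1F⟩ := hF
  obtain ⟨N2, n2n, n2o, n2b⟩ := hbl
  obtain ⟨N, hNn, hNo, hNle⟩ := exists_normal_leK (N1 ⊓ (N2 ⊓ H)) (by
    rw [Subgroup.coe_inf, Subgroup.coe_inf]
    exact n1o.inter (n2o.inter hHo))
  have hN1 : N ≤ N1 := hNle.trans inf_le_left
  have hN2 : N ≤ N2 := hNle.trans (inf_le_right.trans inf_le_left)
  have hNH : N ≤ H := hNle.trans (inf_le_right.trans inf_le_right)
  have hfN : ∀ s t, ∀ n ∈ N, ∀ m ∈ N, F (s * n) (t * m) = F s t := fun s t n hn m hm =>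
    n1F s t n (hN1 hn) m (hN1 hm)
  have hbN : ∀ s ∈ H, ∀ n ∈ N, b (s * n) = b s := fun s hs n hn =>
    n2b s (hHle hs) n (hN2 hn) (hHle (hNH hn))
  -- the first lift of `fr` and its defect
  obtain ⟨x0, hx0s, hx0⟩ : ∃ x0 : EGrp hf, x0.snd = fr ∧ ∀ g, dfc hf b x0 g =
      fr • ((b (fr⁻¹ * g * fr))⁻¹) * F fr (fr⁻¹ * g * fr) * (F g fr)⁻¹ * b g := by
    refine ⟨mk hf 1 fr, rfl, fun g => ?_⟩
    apply dfc_eq_of
    rw [mul_inv_eq_iff_eq_mul, incl_mul]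
    apply ext'
    · change 1 * actG K Ω fr ((b (fr⁻¹ * g * fr))⁻¹) * F fr (fr⁻¹ * g * fr)
        = fr • ((b (fr⁻¹ * g * fr))⁻¹) * F fr (fr⁻¹ * g * fr) * (F g fr)⁻¹ * b g
          * (b g)⁻¹ * actG K Ω g 1 * F g fr
      rw [map_one (actG K Ω g), one_mul, mul_one, mul_inv_cancel_right, inv_mul_cancel_right]
      rfl
    · change fr * (fr⁻¹ * g * fr) = g * fr
      group
  have hcj : ∀ g ∈ H, fr⁻¹ * g * fr ∈ H := fun g hg => by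
    have := hHn.conj_mem g hg fr⁻¹
    rwa [inv_inv] at this
  obtain ⟨y0, hy0⟩ := h90 H (dfc hf b x0) ⟨N, hNn, hNo, by
    intro s hs n hn _
    have hnc : fr⁻¹ * n * fr ∈ N := by
      have := hNn.conj_mem n hn fr⁻¹
      rwa [inv_inv] at this
    rw [hx0, hx0]
    have e1 : fr⁻¹ * (s * n) * fr = (fr⁻¹ * s * fr) * (fr⁻¹ * n * fr) := by group
    have e2 : F fr ((fr⁻¹ * s * fr) * (fr⁻¹ * n * fr)) = F fr (fr⁻¹ * s * fr) := by
      have := hfN fr (fr⁻¹ * s * fr) 1 N.one_mem (fr⁻¹ * n * fr) hnc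
      rwa [mul_one] at this
    have e3 : F (s * n) fr = F s fr := by
      have := hfN s fr n hn 1 N.one_mem
      rwa [mul_one] at this
    rw [e1, hbN _ (hcj s hs) _ hnc, e2, e3, hbN s hs n hn]⟩
    (fun s hs t ht => dfc_crossed hf hb' x0 hs ht)
  -- the lift without defect
  obtain ⟨x1, hx1s, hx1⟩ : ∃ x1 : EGrp hf, x1.snd = fr ∧ ∀ g ∈ H, dfc hf b x1 g = 1 := by
    refine ⟨incl hf y0 * x0, by rw [snd_mul, snd_incl, one_mul, hx0s], fun g hg => ?_⟩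
    have h1 : dfc hf b x0 g = actG K Ω g y0 * y0⁻¹ := hy0 g hg
    rw [dfc_incl_mul, h1, mul_comm (actG K Ω g y0), mul_inv_cancel_left, mul_inv_cancel]
  obtain ⟨a, ha⟩ : ∃ a : Ωˣ, x1 ^ (l ^ r) = incl hf a * sec hf b (x1.snd ^ (l ^ r)) :=
    ⟨_, exists_incl hf (x1 ^ (l ^ r)) (sec hf b (x1.snd ^ (l ^ r))) (snd_pow hf x1 _)⟩
  obtain ⟨d, hd, hlt⟩ := exists_isDegN (k := k) (K := K) (Ω := Ω) hn
  have hσn : x1.snd ^ (l ^ r) ∈ H := by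
    rw [hx1s]
    intro x hx
    rw [hfr.pow _ ⟨_, hn, hx⟩, hx]
  have hgen : ∀ g : Ω ≃ₐ[K] Ω, ∃ m : ℕ, (x1.snd ^ m)⁻¹ * g ∈ H := by
    intro g
    rw [hx1s]
    exact exists_pow_inv_mul_mem hfr hn g
  have hafix : ∀ g, actG K Ω g a = a := cyc_fixed hf hb' hx1 hσn ha hgen
  obtain ⟨c, hc, -⟩ := hd.carry h2 hn hlt
  obtain ⟨β, hβ, hβN⟩ := cyc_split hf hb' hx1 hσn ha hafix (d := d)
    (fun g => by
      rw [hx1s]
      exact hd.fr hn hfr g)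
    (c := c) hc (fun g h hh => hd.hc_right h2 hn hlt g hh)
  have hβN' := hβN N hNH hfN (fun n hn => by
    have := hbN 1 H.one_mem n hn
    rwa [one_mul] at this)
  -- the root
  obtain ⟨y, hy⟩ := exists_rootM (Ω := Ω) (M := l ^ r) (by
    rw [Nat.cast_pow]
    exact pow_ne_zero _ hlΩ) a
  refine ⟨r, y, d, c, β, hr0, fun g => ?_, hd, hlt, hc,
    ⟨N, hNn, hNo, fun s _ n hn _ => hβN' s n hn⟩, fun s t => ?_⟩
  · rw [hy]
    exact hafix g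
  · rw [hy]
    exact hβ s t

/-- the cup product of the degree and the Kummer cocycle, with a coboundary in `μ_(l^r)` -/
theorem cupN {l r : ℕ} (hlΩ : (l : Ω) ≠ 0) {e : ℕ} (he : e ≤ r)
    (F : (Ω ≃ₐ[K] Ω) → (Ω ≃ₐ[K] Ω) → Ωˣ) (hM : ∀ s t, F s t ^ (l ^ e) = 1)
    {y : Ωˣ} (hy : ∀ g : Ω ≃ₐ[K] Ω, g • (y ^ (l ^ r)) = y ^ (l ^ r))
    {d : (Ω ≃ₐ[K] Ω) → ℕ} (hd : LC ⊤ d) {c : (Ω ≃ₐ[K] Ω) → (Ω ≃ₐ[K] Ω) → ℕ}
    (hc : ∀ g h, d g + d h = d (g * h) + l ^ r * c g h)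
    {β : (Ω ≃ₐ[K] Ω) → Ωˣ} (hβ : LC ⊤ β)
    (h : ∀ s t, F s t = (y ^ (l ^ r)) ^ c s t * (β s * s • β t * (β (s * t))⁻¹)) :
    ∃ B : (Ω ≃ₐ[K] Ω) → Ωˣ, (∀ s, B s ^ (l ^ r) = 1) ∧ LC ⊤ B ∧ ∀ s t,
      F s t = (s • (t • y * y⁻¹)) ^ d s * (B s * s • B t * (B (s * t))⁻¹) := by
  have hsc : IsSepClosed Ω := IsSepClosure.sep_closed K
  have hgal : IsGalois K Ω := IsSepClosure.isGalois
  have hyg : ∀ g : Ω ≃ₐ[K] Ω, actG K Ω g y ^ (l ^ r) = y ^ (l ^ r) := fun g => by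
    rw [← map_pow]
    exact hy g
  have hκ : ∀ t : Ω ≃ₐ[K] Ω, (t • y * y⁻¹) ^ (l ^ r) = 1 := by
    intro t
    have h6 : (t • y) ^ (l ^ r) = y ^ (l ^ r) := hyg t
    rw [mul_pow, inv_pow, h6, mul_inv_cancel]
  have hsκ : ∀ s t : Ω ≃ₐ[K] Ω, (s • (t • y * y⁻¹)) ^ (l ^ r) = 1 := fun s t => by
    rw [← smul_pow', hκ, smul_one]
  have key : ∀ s t, F s t * ((s • (t • y * y⁻¹)) ^ d s)⁻¹ =
      β s * (s • y) ^ d s * s • (β t * (t • y) ^ d t) *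
        (β (s * t) * ((s * t) • y) ^ d (s * t))⁻¹ := by
    intro s t
    have h1 := h s t
    have h3 := cup_split (φ := actG K Ω) hyg hc s t
    change (s • (t • y * y⁻¹)) ^ d s = (y ^ (l ^ r)) ^ c s t *
      (((s • y) ^ d s)⁻¹ * s • ((t • y) ^ d t)⁻¹ * ((((s * t) • y) ^ d (s * t))⁻¹)⁻¹) at h3
    rw [h3, h1, smul_mul', smul_inv']
    generalize (y ^ (l ^ r)) ^ c s t = A
    generalize (s • y) ^ d s = u
    generalize s • (t • y) ^ d t = v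
    generalize ((s * t) • y) ^ d (s * t) = w
    generalize β s = u'
    generalize s • β t = v'
    generalize β (s * t) = w'
    have key : ∀ (X : Type) [AddCommGroup X] (A u v w u' v' w' : X),
        A + (u' + v' + -w') + -(A + (-u + -v + - -w)) = (u' + u + (v' + v) + -(w' + w)) := by
      intro X _ A u v w u' v' w'
      abel
    exact key (Additive Ωˣ) A u v w u' v' w'
  obtain ⟨b, hb1, hb2, hb3⟩ := kumStepM (M := l ^ r) (by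
    rw [Nat.cast_pow]
    exact pow_ne_zero _ hlΩ) ⊤ (fun s t => F s t * ((s • (t • y * y⁻¹)) ^ d s)⁻¹)
    (fun s _ t _ => by
      obtain ⟨j, rfl⟩ := Nat.exists_eq_add_of_le he
      have h3 : F s t ^ (l ^ (e + j)) = 1 := by rw [pow_add l, pow_mul, hM, one_pow]
      rw [mul_pow, h3, one_mul, inv_pow, ← pow_mul, mul_comm (d s), pow_mul, hsκ, one_pow,
        inv_one])
    (fun s => β s * (s • y) ^ d s)
    (((hβ.prod (lc_smul ⊤ y)).prod hd).comp fun x : (Ωˣ × Ωˣ) × ℕ => x.1.1 * x.1.2 ^ x.2)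
    (fun s _ t _ => key s t)
  refine ⟨b, hb1, hb2, fun s t => ?_⟩
  have h1 := hb3 s trivial t trivial
  change F s t * ((s • (t • y * y⁻¹)) ^ d s)⁻¹ = b s * s • b t * (b (s * t))⁻¹ at h1
  rw [← h1, mul_comm (F s t), mul_inv_cancel_left]

end Pool.Agent.SmL.C
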