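import Pool.Agent.Lib.SM.C.DefsU
import Pool.Agent.Lib.SM.C.Kum
import Pool.Agent.Lib.SmL.C.GalM

set_option autoImplicit false

/-!
SMITH-L, block C, Galois part over `RatFunc k`: definitions (version of `GBU/H/HDefs.lean` with `M`
instead of `2 ^ e`).
-/

namespace Pool.Agent.SmL.C

open Pool.Agent.SmithC

variable {k Ω : Type} [Field k] [Field Ω] [Algebra (RatFunc k) Ω]

/-- `c` is a two-cocycle on `A` with values in `μ_M` and locally constant on `A`. -/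
structure CocOn (M : ℕ) (A : Subgroup (GG k Ω)) (c : GG k Ω → GG k Ω → Ωˣ) : Prop where
  mu : ∀ s t, c s t ^ M = 1
  lc : ∃ N : Subgroup (GG k Ω), N.Normal ∧ IsOpen (N : Set (GG k Ω)) ∧ N ≤ A ∧
    ∀ s ∈ A, ∀ t ∈ A, ∀ n ∈ N, ∀ m ∈ N, c (s * n) (t * m) = c s t
  coc : ∀ s ∈ A, ∀ t ∈ A, ∀ w ∈ A, c s t * c (s * t) w = s • c t w * c s (t * w)

/-- `c` splits on `A` with values in `μ_M`. -/
def SplM (M : ℕ) (A : Subgroup (GG k Ω)) (c : GG k Ω → GG k Ω → Ωˣ) : Prop :=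
  ∃ b : GG k Ω → Ωˣ, (∀ s, b s ^ M = 1) ∧ LCOn A b ∧ SplU A c b

theorem cast_ne {M : ℕ} (hM : (M : k) ≠ 0) : (M : Ω) ≠ 0 := by
  intro h
  apply hM
  apply ((algebraMap (RatFunc k) Ω).comp (algebraMap k (RatFunc k))).injective
  rw [map_natCast, h, map_zero]

/-- a two-cocycle with values in `μ_M` which splits over `A` with values in `Ω^*` splits with
values in `μ_M` -/
theorem kumStepR [IsSepClosure (RatFunc k) Ω] {M : ℕ} (hM : (M : k) ≠ 0) (A : Subgroup (GG k Ω))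
    (c : GG k Ω → GG k Ω → Ωˣ) (hc : ∀ s t, c s t ^ M = 1) (β : GG k Ω → Ωˣ)
    (hβ : LCOn A β) (hs : SplU A c β) :
    ∃ b : GG k Ω → Ωˣ, (∀ s, b s ^ M = 1) ∧ LCOn A b ∧ SplU A c b := by
  have hgal : IsGalois (RatFunc k) Ω := IsSepClosure.isGalois
  have hsc : IsSepClosed Ω := IsSepClosure.sep_closed (RatFunc k)
  exact kumStepM (cast_ne (Ω := Ω) hM) A c (fun s _ t _ => hc s t) β hβ hs

end Pool.Agent.SmL.C
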