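import Pool.Agent.Lib.SmL.C.Sym
import Pool.Agent.Lib.SmL.C.CxMain

/-!
# SMITH-L, block C: the Hasse principle for `H^2(K, Z / l)`, `K` a global function field containing the
`l`-th roots of unity
-/

set_option autoImplicit false

namespace Pool.Agent.SmL.C

open Pool.Agent.BSDFF Pool.Agent.Lib.SmD Pool.Agent.GBU Pool.Agent.GBC
open Pool.Agent.Ht.RK (LC Spl)

section cyc

/-- If `a = u * φ u * ... * φ ^ (n - 1) u` then `a ^ carry` splits. -/
theorem carry_split {G A : Type*} [Group G] [CommGroup A] [MulDistribMulAction G A]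
    {H : Subgroup G} [hH : H.Normal] {fr : G} {n : ℕ} (hfn : fr ^ n ∈ H) {u a : A}
    (hu : ∀ g ∈ H, g • u = u) (ha : a = ∏ i ∈ Finset.range n, (fr ^ i) • u) {d : G → ℕ}
    (hd : ∀ g, g * (fr ^ d g)⁻¹ ∈ H) {c : G → G → ℕ}
    (hc : ∀ g h, d g + d h = d (g * h) + n * c g h) (g h : G) :
    a ^ c g h = (∏ i ∈ Finset.range (d g), (fr ^ i) • u) *
      g • (∏ i ∈ Finset.range (d h), (fr ^ i) • u) *
        (∏ i ∈ Finset.range (d (g * h)), (fr ^ i) • u)⁻¹ := by
  have hfix : ∀ (j : ℕ), ∀ g ∈ H, g • ((fr ^ j) • u) = (fr ^ j) • u := by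
    intro j g hg
    have h1 : (fr ^ j)⁻¹ * g * fr ^ j ∈ H := by
      have := hH.conj_mem g hg (fr ^ j)⁻¹
      rwa [inv_inv] at this
    have h3 : g * fr ^ j = fr ^ j * ((fr ^ j)⁻¹ * g * fr ^ j) := by group
    rw [← mul_smul, h3, mul_smul, hu _ h1]
  have hg : ∀ (g : G) (i : ℕ), g • ((fr ^ i) • u) = (fr ^ (d g + i)) • u := by
    intro g i
    have h1 : g = (g * (fr ^ d g)⁻¹) * fr ^ d g := by group
    conv_lhs => rw [h1, mul_smul, ← mul_smul (fr ^ d g), ← pow_add]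
    exact hfix _ _ (hd g)
  have hper : ∀ (i c : ℕ), (fr ^ (n * c + i)) • u = (fr ^ i) • u := by
    intro i c
    have h1 : fr ^ (n * c) ∈ H := by
      rw [pow_mul]
      exact H.pow_mem hfn c
    rw [pow_add, mul_smul, hfix i _ h1]
  have hshift : ∀ (m c : ℕ), ∏ i ∈ Finset.range (m + n * c), (fr ^ i) • u =
      (∏ i ∈ Finset.range m, (fr ^ i) • u) * a ^ c := by
    intro m c
    induction c with
    | zero => rw [mul_zero, add_zero, pow_zero, mul_one]
    | succ c ih =>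
      have h1 : ∏ i ∈ Finset.range (n + (m + n * c)), (fr ^ i) • u =
          a * ∏ i ∈ Finset.range (m + n * c), (fr ^ i) • u := by
        rw [Finset.prod_range_add, ← ha]
        congr 1
        refine Finset.prod_congr rfl fun i _ => ?_
        have h3 := hper i 1
        rwa [mul_one] at h3
      have h3 : m + n * (c + 1) = n + (m + n * c) := by ring
      rw [h3, h1, ih, pow_succ]
      generalize ∏ i ∈ Finset.range m, (fr ^ i) • u = X
      rw [mul_left_comm, mul_comm a (a ^ c)]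
  have h1 : g • (∏ i ∈ Finset.range (d h), (fr ^ i) • u) =
      ∏ i ∈ Finset.range (d h), (fr ^ (d g + i)) • u := by
    rw [Finset.smul_prod']
    exact Finset.prod_congr rfl fun i _ => hg g i
  rw [h1, ← Finset.prod_range_add, hc g h, hshift, mul_comm (∏ i ∈ _, _), mul_inv_cancel_right]

end cyc

variable {k K Ω : Type} [Field k] [Finite k] [Field K] [Algebra k K] [Algebra (RatFunc k) K]
  [IsScalarTower k (RatFunc k) K] [FiniteDimensional (RatFunc k) K]
  [Algebra.IsSeparable (RatFunc k) K] [Field Ω] [Algebra K Ω] [IsSepClosure K Ω]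

/-- **The Hasse principle.** -/
theorem hasseF (h2 : (2 : k) ≠ 0) {l : ℕ} (hl : l.Prime) {ζ : Ω} (hζ : IsPrimitiveRoot ζ l)
    (hζK : ∃ z : K, algebraMap K Ω z = ζ) {fr : Ω ≃ₐ[K] Ω} (hfr : IsFrC k fr)
    {NN : Set (Subgroup (Ω ≃ₐ[K] Ω))} (hN : FamL k l NN) {w : Place k K → ValuationSubring Ω}
    {sg ph : Place k K → Ω ≃ₐ[K] Ω} (hL : LocL l ζ NN w sg ph)
    {z : (Ω ≃ₐ[K] Ω) → (Ω ≃ₐ[K] Ω) → ZMod l} (hz : Coc2N l NN z)
    (h : ∀ v : Place k K, linv (sg v) (ph v) (Nat.card k ^ v.degree) z = 0) :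
    ∃ b : (Ω ≃ₐ[K] Ω) → ZMod l, (∃ N ∈ NN, ∀ s, ∀ n ∈ N, b (s * n) = b s) ∧
      ∀ s t, z s t = b s + b t - b (s * t) := by
  classical
  have hsc : IsSepClosed Ω := IsSepClosure.sep_closed K
  have hgal : IsGalois K Ω := IsSepClosure.isGalois
  have hlne : NeZero l := ⟨hl.ne_zero⟩
  have hlΩ : (l : Ω) ≠ 0 := hζ.neZero'.out
  have hlq : Nat.card k ≡ 1 [MOD l] := card_modEq hl hζ hζK hfr
  obtain ⟨ζu, rfl⟩ : ∃ ζu : Ωˣ, (ζu : Ω) = ζ := ⟨(hζ.isUnit hl.ne_zero).unit, rfl⟩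
  have hζl : ζu ^ l = 1 := by
    apply Units.ext
    rw [Units.val_pow_eq_pow_val, hζ.pow_eq_one, Units.val_one]
  have hord : orderOf ζu = l := by
    rw [← orderOf_units]
    exact hζ.eq_orderOf.symm
  obtain ⟨r, a, y, d, c, β, D, ha0, ha, hd, hlt, hc, hβ, hF, hD⟩ :=
    symF h2 hl hζ hζK hfr hN hL hz hζl
  have hnpos : 0 < l ^ (r + 1) := pow_pos hl.pos _
  -- the norm
  obtain ⟨u, hu, hau⟩ := normOm (Ω := Ω) h2 hfr hnpos ha0 (fun v => by
    have h1 : ((D v : ℤ) : ZMod l) = 0 := by rw [← (hD v).2, h v]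
    rw [ZMod.intCast_zmod_eq_zero_iff_dvd] at h1
    rw [(hD v).1]
    push_cast
    rw [pow_succ]
    exact mul_dvd_mul_left _ h1)
  have hau' : y ^ (l ^ (r + 1)) = ∏ i ∈ Finset.range (l ^ (r + 1)), (fr ^ i) • u := by
    apply Units.ext
    rw [← ha, hau]
  have hHcN := hN.hc (r + 1)
  have hHn := hN.normal _ hHcN
  have hfrn : fr ^ (l ^ (r + 1)) ∈ HcK k K Ω (l ^ (r + 1)) := by
    intro x hx
    rw [hfr.pow _ ⟨_, hnpos, hx⟩, hx]
  have hcs := carry_split (H := HcK k K Ω (l ^ (r + 1))) hfrn hu hau'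
    (fun g => hd.fr hnpos hfr g) hc
  -- `z` splits with values in `Ωˣ`
  have hdl : LC ⊤ d := ⟨HcK k K Ω (l ^ (r + 1)), hHn, hN.isOpen _ hHcN,
    fun s _ n hn _ => hd.hc_right h2 hnpos hlt s hn⟩
  obtain ⟨b, hbl, hbLC, hb⟩ := kumStepM hlΩ ⊤ (fun s t => (zt hζl (z s t)).toMul)
    (fun s _ t _ => zt_pow hζl _)
    (fun s => (∏ i ∈ Finset.range (d s), (fr ^ i) • u) * β s)
    ((hdl.prod hβ).comp fun x : ℕ × Ωˣ => (∏ i ∈ Finset.range x.1, (fr ^ i) • u) * x.2)
    (fun s _ t _ => by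
      change (zt hζl (z s t)).toMul = (∏ i ∈ Finset.range (d s), (fr ^ i) • u) * β s *
        s • ((∏ i ∈ Finset.range (d t), (fr ^ i) • u) * β t) *
        ((∏ i ∈ Finset.range (d (s * t)), (fr ^ i) • u) * β (s * t))⁻¹
      rw [hF s t, hcs s t, smul_mul']
      generalize (∏ i ∈ Finset.range (d s), (fr ^ i) • u) = A
      generalize s • (∏ i ∈ Finset.range (d t), (fr ^ i) • u) = A'
      generalize (∏ i ∈ Finset.range (d (s * t)), (fr ^ i) • u) = A''
      generalize β s = B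
      generalize s • β t = B'
      generalize β (s * t) = B''
      have key : ∀ (X : Type) [AddCommGroup X] (A A' A'' B B' B'' : X),
          A + A' + -A'' + (B + B' + -B'') = A + B + (A' + B') + -(A'' + B'') := by
        intro X _ A A' A'' B B' B''
        abel
      exact key (Additive Ωˣ) A A' A'' B B' B'')
  -- `μ_l` is trivial as a module
  have hμ : ∀ x : Ωˣ, x ^ l = 1 → ∃ i : ZMod l, (zt hζl i).toMul = x := by
    intro x hx
    have hx' : (x : Ω) ^ l = 1 := by rw [← Units.val_pow_eq_pow_val, hx, Units.val_one]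
    obtain ⟨i, -, hi⟩ := hζ.eq_pow_of_pow_eq_one hx'
    refine ⟨(i : ZMod l), ?_⟩
    rw [zt_nat]
    apply Units.ext
    rw [Units.val_pow_eq_pow_val, hi]
  have hζfix : ∀ (s : Ω ≃ₐ[K] Ω) (x : Ωˣ), x ^ l = 1 → s • x = x := by
    intro s x hx
    obtain ⟨i, rfl⟩ := hμ x hx
    obtain ⟨n, rfl⟩ := ZMod.intCast_surjective i
    rw [zt_int]
    have h1 : s • ζu = ζu := by
      obtain ⟨x, hx⟩ := hζK
      apply Units.ext
      change s (ζu : Ω) = ζu
      rw [← hx, AlgEquiv.commutes]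
    have h3 : s • (ζu ^ n) = (s • ζu) ^ n := map_zpow (MulDistribMulAction.toMonoidHom Ωˣ s) ζu n
    rw [h3, h1]
  choose f hf using fun s => hμ (b s) (hbl s)
  obtain ⟨NF, hNF, hzN⟩ := hz.tf
  obtain ⟨NB, hNB, hBN⟩ := tf_cobN hlq hN (r := 1) (B := b)
    (fun s => by rw [pow_one]; exact hbl s) hbLC
    (C := fun s t => (zt hζl (z s t)).toMul) ⟨NF, hNF, fun s t n hn m hm => by
      change (zt hζl (z (s * n) (t * m))).toMul = _
      rw [hzN s t n hn m hm]⟩ (fun s t => hb s trivial t trivial)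
  have hinj : ∀ i j : ZMod l, (zt hζl i).toMul = (zt hζl j).toMul → i = j := by
    intro i j hij
    apply sub_eq_zero.1
    apply zt_inj hζl hord
    rw [map_sub, toMul_sub, hij, div_self']
  refine ⟨f, ⟨NB, hNB, fun s n hn => ?_⟩, fun s t => ?_⟩
  · apply hinj
    rw [hf, hf, hBN s n hn]
  · apply hinj
    have h1 := hb s trivial t trivial
    change (zt hζl (z s t)).toMul = b s * s • b t * (b (s * t))⁻¹ at h1
    rw [h1, hζfix s _ (hbl t), map_sub, map_add, toMul_sub, toMul_add, hf, hf, hf,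
      div_eq_mul_inv]

end Pool.Agent.SmL.C
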