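import Pool.Agent.Lib.SM.C.TwoGroup
import Pool.Agent.Lib.Ht.RK.Cyc

/-!
# SMITH-L, block C, module LGroup

A finite `l`-group `Γ` acting faithfully on a field `L` such that the norms are surjective in the
layers of degree `l` (`NormProp`): every two-cocycle of `Γ` in `L^*` splits.
(Version of `SM/C/TwoGroup.lean`, `ConicProp` replaced by `NormProp`.)

PROOF. Induction on `n`, `#Γ = l ^ n`. `Γ1` a subgroup of index `l` (`Sylow.exists_subgroup_card_pow_prime`);
it is normal (a subgroup of index `l` of an `l`-group; e.g. `Subgroup.normal_of_index_eq_minFac_card`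
or `IsPGroup` normaliser condition). `NormProp` is inherited by `Γ1` (`Subgroup.map Γ1.subtype`). So
`f` splits on `Γ1`: `b`. Take `σ ∉ Γ1`, so `σ ^ i`, `i < l`, are representatives of `Γ / Γ1`. In the
extension `EGrp` of `Γ` by `L^*` attached to `f` (`SM/C/Ext, Dfc`, `GBU/H/QuadA`) choose `x0` over
`σ`; the defect `dfc hf b x0` is a crossed homomorphism on `Γ1` (`dfc_crossed`), so by `h90` one can
change `x0` to `x` with `dfc hf b x h = 1` for `h ∈ Γ1` (see the proof of `glob_split` in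
`Ht/RK/Glob.lean` or of `step2` in `SM/C/Step2.lean`). Write `x ^ l = incl a * sec hf b (σ ^ l)`; `a` is
fixed by `Γ1` and `σ` (`cyc_fixed`, `cyc_fixed_x`, `cyc_fixed_H` of `Ht/RK/Cyc.lean`). By `NormProp`
`a⁻¹ = ∏ σ^i y` with `y` fixed by `Γ1`; replace `x` by `incl y * x`: still without defect
(`y` is fixed by `Γ1`), and now `x ^ l = sec hf b (σ ^ l)`, i.e. `a = 1`. `cyc_split` of
`Ht/RK/Cyc.lean` with `a = 1`, `d g` = the exponent of `g` modulo `Γ1` in `{0, .., l - 1}`, gives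
`f g h = β g * φ g (β h) * (β (g h))⁻¹`.
-/

set_option autoImplicit false

namespace Pool.Agent.SmL.C

open Pool.Agent.SmithC

/-- Norms are surjective in the cyclic layers of degree `l`. -/
def NormProp {Γ L : Type*} [Group Γ] [Field L] (ρ : Γ →* RingAut L) (l : ℕ) : Prop :=
  ∀ (U : Subgroup Γ) (g : Γ), (∀ u ∈ U, g * u * g⁻¹ ∈ U) → g ∉ U → g ^ l ∈ U →
    ∀ a : L, (∀ u ∈ U, ρ u a = a) → ρ g a = a →
      ∃ x : L, (∀ u ∈ U, ρ u x = x) ∧ ∏ i ∈ Finset.range l, ρ (g ^ i) x = a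

open Pool.Agent.SmithC.EGrp Pool.Agent.GBUH Pool.Agent.Ht.RK

/-- exponents modulo a normal subgroup of prime index -/
private theorem LGroup_deg {Γ : Type*} [Group Γ] {l : ℕ} (hl : l.Prime) (Γ1 : Subgroup Γ)
    [hN : Γ1.Normal] (hidx : Γ1.index = l) {σ : Γ} (hσ : σ ∉ Γ1) :
    ∃ d : Γ → ℕ, (∀ g, g * (σ ^ d g)⁻¹ ∈ Γ1) ∧
      (∀ g h, d g + d h = d (g * h) + l * ((d g + d h) / l)) ∧
      (∀ g, ∀ h ∈ Γ1, d (g * h) = d g) := by
  have : Fact l.Prime := ⟨hl⟩
  have hcard : Nat.card (Γ ⧸ Γ1) = l := hidx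
  set s : Γ ⧸ Γ1 := (σ : Γ ⧸ Γ1) with hs
  have hs1 : s ≠ 1 := fun h => hσ ((QuotientGroup.eq_one_iff σ).1 h)
  have hord : orderOf s = l := orderOf_eq_prime_iff.2 ⟨by
    have := pow_card_eq_one' (x := s)
    rwa [hcard] at this, hs1⟩
  have hex : ∀ q : Γ ⧸ Γ1, ∃ i : ℕ, i < l ∧ s ^ i = q := by
    intro q
    have h1 : q ∈ Subgroup.zpowers s := by
      rw [zpowers_eq_top_of_prime_card hcard hs1]
      exact Subgroup.mem_top q
    have hfin : IsOfFinOrder s := by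
      rw [← orderOf_pos_iff, hord]
      exact hl.pos
    rw [← hfin.mem_powers_iff_mem_zpowers] at h1
    obtain ⟨m, hm⟩ := h1
    refine ⟨m % l, Nat.mod_lt _ hl.pos, ?_⟩
    rw [← hord, pow_mod_orderOf]
    exact hm
  choose e he1 he2 using hex
  refine ⟨fun g => e (g : Γ ⧸ Γ1), fun g => ?_, fun g h => ?_, fun g h hh => ?_⟩
  · rw [← QuotientGroup.eq_one_iff, QuotientGroup.mk_mul, QuotientGroup.mk_inv,
      QuotientGroup.mk_pow, ← hs, he2, mul_inv_cancel]
  · have h1 : s ^ (e (g : Γ ⧸ Γ1) + e (h : Γ ⧸ Γ1)) = s ^ e ((g * h : Γ) : Γ ⧸ Γ1) := by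
      rw [pow_add, he2, he2, he2, QuotientGroup.mk_mul]
    rw [pow_eq_pow_iff_modEq, hord] at h1
    have h2 : e ((g * h : Γ) : Γ ⧸ Γ1) = (e (g : Γ ⧸ Γ1) + e (h : Γ ⧸ Γ1)) % l := by
      rw [h1, Nat.mod_eq_of_lt (he1 _)]
    change e (g : Γ ⧸ Γ1) + e (h : Γ ⧸ Γ1) = e ((g * h : Γ) : Γ ⧸ Γ1) + _
    rw [h2]
    exact (Nat.mod_add_div _ _).symm
  · change e ((g * h : Γ) : Γ ⧸ Γ1) = e (g : Γ ⧸ Γ1)
    congr 1
    rw [QuotientGroup.mk_mul, (QuotientGroup.eq_one_iff h).2 hh, mul_one]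

private theorem LGroup_pow {G A : Type*} [Group G] [CommGroup A] {φ : G →* MulAut A}
    {f : G → G → A} (hf : IsTwoCoc φ f) (y : A) (x : EGrp hf) (m : ℕ) :
    (incl hf y * x) ^ m = incl hf (∏ i ∈ Finset.range m, φ (x.snd ^ i) y) * x ^ m := by
  induction m with
  | zero => rw [pow_zero, pow_zero, Finset.prod_range_zero, map_one, one_mul]
  | succ m ih =>
    rw [pow_succ, ih, Finset.prod_range_succ, map_mul, pow_succ x]
    have h1 : x ^ m * incl hf y = incl hf (φ (x.snd ^ m) y) * x ^ m := by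
      rw [mul_incl, snd_pow]
    calc incl hf (∏ i ∈ Finset.range m, φ (x.snd ^ i) y) * x ^ m * (incl hf y * x)
        = incl hf (∏ i ∈ Finset.range m, φ (x.snd ^ i) y) * (x ^ m * incl hf y) * x := by
          simp only [mul_assoc]
      _ = _ := by rw [h1]; simp only [mul_assoc]

private theorem LGroup_aux {L : Type} [Field L] {l : ℕ} (hl : l.Prime) (n : ℕ) :
    ∀ (Γ : Type) [Group Γ] [Finite Γ] (ρ : Γ →* RingAut L), Nat.card Γ = l ^ n →
      Function.Injective ρ → NormProp ρ l → ∀ f : Γ → Γ → Lˣ, IsTwoCoc (actU ρ) f →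
      ∃ β : Γ → Lˣ, ∀ g h, f g h = β g * actU ρ g (β h) * (β (g * h))⁻¹ := by
  classical
  induction n with
  | zero =>
    intro Γ _ _ ρ hcard hρ hnorm f hf
    rw [pow_zero] at hcard
    have hsub : Subsingleton Γ := (Nat.card_eq_one_iff_unique.1 hcard).1
    refine ⟨fun _ => f 1 1, fun g h => ?_⟩
    have hg : g = 1 := Subsingleton.elim _ _
    have hh : h = 1 := Subsingleton.elim _ _
    subst hg
    subst hh
    rw [map_one, MulAut.one_apply]
    group
  | succ n ih =>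
    intro Γ _ _ ρ hcard hρ hnorm f hf
    have : Fact l.Prime := ⟨hl⟩
    obtain ⟨Γ1, hΓ1⟩ := Sylow.exists_subgroup_card_pow_prime (G := Γ) l (n := n)
      (by rw [hcard]; exact pow_dvd_pow l (Nat.le_succ n))
    have hidx : Γ1.index = l := by
      have h1 := Γ1.card_mul_index
      rw [hΓ1, hcard, pow_succ] at h1
      exact Nat.eq_of_mul_eq_mul_left (pow_pos hl.pos n) h1
    have hN : Γ1.Normal := Subgroup.normal_of_index_eq_minFac_card (by
      rw [hidx, hcard, hl.pow_minFac (Nat.succ_ne_zero n)])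
    obtain ⟨β1, hβ1⟩ := ih Γ1 (ρ.comp Γ1.subtype) hΓ1 (hρ.comp Γ1.subtype_injective)
      (by
        intro U g hU hg hgl a ha hga
        obtain ⟨x, hx1, hx2⟩ := hnorm (U.map Γ1.subtype) (g : Γ)
          (by
            rintro _ ⟨u, hu, rfl⟩
            exact ⟨g * u * g⁻¹, hU u hu, rfl⟩)
          (by
            rintro ⟨u, hu, hug⟩
            have : u = g := Subtype.ext hug
            exact hg (this ▸ hu))
          (by exact ⟨g ^ l, hgl, rfl⟩)
          a (by rintro _ ⟨u, hu, rfl⟩; exact ha u hu) hga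
        exact ⟨x, fun u hu => hx1 _ ⟨u, hu, rfl⟩, hx2⟩)
      (fun g h => f g h) (fun g h j => hf g h j)
    obtain ⟨σ, hσ⟩ : ∃ σ, σ ∉ Γ1 := by
      by_contra hcon
      push Not at hcon
      have : Γ1 = ⊤ := by
        ext x
        simp [hcon x]
      rw [this, Subgroup.index_top] at hidx
      exact hl.one_lt.ne hidx
    obtain ⟨b, hb⟩ : ∃ b : Γ → Lˣ, SplA (actU ρ) f Γ1 b := by
      refine ⟨fun g => if hg : g ∈ Γ1 then β1 ⟨g, hg⟩ else 1, fun g hg h hh => ?_⟩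
      beta_reduce
      rw [dif_pos hg, dif_pos hh, dif_pos (Γ1.mul_mem hg hh)]
      exact hβ1 ⟨g, hg⟩ ⟨h, hh⟩
    -- the lift without defect
    obtain ⟨x1, hx1s, hx1⟩ : ∃ x1 : EGrp hf, x1.snd = σ ∧ ∀ g ∈ Γ1, dfc hf b x1 g = 1 := by
      obtain ⟨y0, hy0⟩ := h90 ρ hρ Γ1 (dfc hf b (mk hf 1 σ))
        (fun g hg h hh => dfc_crossed hf hb (mk hf 1 σ) hg hh)
      refine ⟨incl hf y0 * mk hf 1 σ, by rw [snd_mul, snd_incl, one_mul, snd_mk], fun g hg => ?_⟩
      rw [dfc_incl_mul, hy0 g hg, mul_comm (actU ρ g y0), mul_inv_cancel_left, mul_inv_cancel]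
    obtain ⟨a, ha⟩ : ∃ a : Lˣ, x1 ^ l = incl hf a * sec hf b (x1.snd ^ l) :=
      ⟨_, exists_incl hf (x1 ^ l) (sec hf b (x1.snd ^ l)) (snd_pow hf x1 _)⟩
    have hσl : σ ^ l ∈ Γ1 := by
      have := Γ1.pow_index_mem σ
      rwa [hidx] at this
    have hσn : x1.snd ^ l ∈ Γ1 := by rw [hx1s]; exact hσl
    have ha1 : ∀ u ∈ Γ1, actU ρ u a = a := fun u hu => cyc_fixed_H hf hb hx1 hσn ha hu
    have ha2 : actU ρ σ a = a := by
      have := cyc_fixed_x hf hx1 hσn ha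
      rwa [hx1s] at this
    -- the norm equation
    obtain ⟨y, hy1, hy2⟩ := hnorm Γ1 σ (fun u hu => hN.conj_mem u hu σ) hσ hσl
      ((a⁻¹ : Lˣ) : L) (fun u hu => by
        rw [← actU_val, map_inv, ha1 u hu]) (by rw [← actU_val, map_inv, ha2])
    have hy0 : y ≠ 0 := by
      rintro rfl
      simp only [map_zero] at hy2
      rw [Finset.prod_eq_zero (Finset.mem_range.2 hl.pos) rfl] at hy2
      exact (a⁻¹).ne_zero hy2.symm
    set Y : Lˣ := Units.mk0 y hy0 with hY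
    have hY1 : ∀ u ∈ Γ1, actU ρ u Y = Y := fun u hu => by
      ext
      rw [actU_val, hY, Units.val_mk0, hy1 u hu]
    have hY2 : ∏ i ∈ Finset.range l, actU ρ (σ ^ i) Y = a⁻¹ := by
      ext
      rw [← hy2, Units.coe_prod]
      rfl
    have hxs : (incl hf Y * x1).snd = σ := by rw [snd_mul, snd_incl, one_mul, hx1s]
    have hxd : ∀ g ∈ Γ1, dfc hf b (incl hf Y * x1) g = 1 := fun g hg => by
      rw [dfc_incl_mul, hx1 g hg, mul_one, hY1 g hg, mul_inv_cancel]
    have hxl : (incl hf Y * x1) ^ l = incl hf 1 * sec hf b ((incl hf Y * x1).snd ^ l) := by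
      rw [LGroup_pow, hx1s, hY2, ha, hx1s, hxs, ← mul_assoc, ← map_mul, inv_mul_cancel]
    obtain ⟨d, hd1, hd2, hd3⟩ := LGroup_deg hl Γ1 hidx hσ
    obtain ⟨β, hβ, -⟩ := cyc_split hf hb hxd (n := l) (by rw [hxs]; exact hσl) hxl
      (fun g => map_one _) (d := d) (fun g => by rw [hxs]; exact hd1 g)
      (c := fun g h => (d g + d h) / l) hd2 hd3
    refine ⟨β, fun g h => ?_⟩
    have := hβ g h
    rwa [one_pow, one_mul] at this

/-- A finite `l`-group acting faithfully on a field with surjective norms: two-cocycles split. -/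
theorem lGroup {L Γ : Type} [Field L] {l : ℕ} (hl : l.Prime) [Group Γ] [Finite Γ]
    (ρ : Γ →* RingAut L) (n : ℕ) (hcard : Nat.card Γ = l ^ n) (hρ : Function.Injective ρ)
    (hnorm : NormProp ρ l) (f : Γ → Γ → Lˣ) (hf : IsTwoCoc (actU ρ) f) :
    ∃ β : Γ → Lˣ, ∀ g h, f g h = β g * actU ρ g (β h) * (β (g * h))⁻¹ :=
  LGroup_aux hl n Γ ρ hcard hρ hnorm f hf

end Pool.Agent.SmL.C
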