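import Pool.Agent.Lib.SM.C.Levels
import Pool.Agent.Lib.SmL.C.TransN

set_option autoImplicit false

/-!
SMITH-L, block C, module OddLevN (version of `GBU/H/OddLev.lean`): a two-cocycle on `A` with values in
`μ_(l^e)` which splits on `A ⊓ Hn n` splits on `A ⊓ Hn (l ^ r)` for some `r`.
-/

namespace Pool.Agent.SmL.C

open Polynomial Pool.Agent.SmithC

variable {k Ω : Type} [Field k] [Field Ω] [Algebra (RatFunc k) Ω]

/-- an element of the Galois group acts on a finite level through a power of the Frobenius -/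
private theorem OddLev_act [Finite k] (h2 : (2 : k) ≠ 0) [IsSepClosure (RatFunc k) Ω] {n : ℕ}
    (hn : 0 < n) (g : GG k Ω) :
    ∃ i : ℕ, ∀ x : Ω, x ^ (Nat.card k ^ n) = x → g x = x ^ (Nat.card k ^ i) := by
  classical
  obtain ⟨ζ, hζ, hQ⟩ := exists_prim (k := k) (Ω := Ω) h2 hn
  have hζn : ζ ^ (Nat.card k ^ n) = ζ := prim_level hζ.pow_eq_one hQ
  obtain ⟨p, f, hp, hf, hq, hΩ, hk⟩ := card_eq_pow (k := k) (Ω := Ω)
  have hpf : Fact p.Prime := ⟨hp⟩
  set F : Ω →+* Ω := iterateFrobenius Ω p f with hF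
  have hFx : ∀ x : Ω, F x = x ^ Nat.card k := fun x => by
    rw [hF, iterateFrobenius_def, hq]
  set P : Polynomial Ω := ∏ i ∈ Finset.range n, (X - C (ζ ^ (Nat.card k ^ i))) with hP
  have hPF : P.map F = P := by
    rw [hP, Polynomial.map_prod]
    have e : ∀ i ∈ Finset.range n, (X - C (ζ ^ (Nat.card k ^ i)) : Polynomial Ω).map F
        = (X - C (ζ ^ (Nat.card k ^ (i + 1)))) := by
      intro i _
      rw [Polynomial.map_sub, map_X, map_C, hFx, ← pow_mul, ← pow_succ]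
    rw [Finset.prod_congr rfl e]
    obtain ⟨m, rfl⟩ : ∃ m, n = m + 1 := ⟨n - 1, by omega⟩
    rw [Finset.prod_range_succ, Finset.prod_range_succ']
    rw [hζn, pow_zero, pow_one]
  have hcoef : ∀ i : ℕ, g (P.coeff i) = P.coeff i := by
    intro i
    have h1 : F (P.coeff i) = P.coeff i := by
      rw [← coeff_map, hPF]
    rw [hFx] at h1
    obtain ⟨a, ha⟩ := mem_of_pow_eq (k := k) h1
    rw [← ha]
    exact g.commutes _
  have hPg : P.map (g : Ω →+* Ω) = P := by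
    ext i
    rw [coeff_map]
    exact hcoef i
  have hroot : P.eval (g ζ) = 0 := by
    have h1 : P.eval ζ = 0 := by
      rw [hP, eval_prod]
      apply Finset.prod_eq_zero (Finset.mem_range.2 hn)
      rw [eval_sub, eval_X, eval_C, pow_zero, pow_one, sub_self]
    rw [← hPg, eval_map]
    have h3 := Polynomial.hom_eval₂ P (RingHom.id Ω) (g : Ω →+* Ω) ζ
    rw [RingHom.comp_id] at h3
    change eval₂ (g : Ω →+* Ω) ((g : Ω →+* Ω) ζ) P = 0
    rw [← h3]
    change (g : Ω →+* Ω) (P.eval ζ) = 0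
    rw [h1, map_zero]
  rw [hP, eval_prod, Finset.prod_eq_zero_iff] at hroot
  obtain ⟨i, hi, hi2⟩ := hroot
  rw [eval_sub, eval_X, eval_C, sub_eq_zero] at hi2
  refine ⟨i, fun x hx => ?_⟩
  by_cases hx0 : x = 0
  · rw [hx0, map_zero, zero_pow (pow_pos Nat.card_pos i).ne']
  · have h1 : x ^ (Nat.card k ^ n - 1) = 1 := by
      have e : Nat.card k ^ n = (Nat.card k ^ n - 1) + 1 := by omega
      rw [e, pow_succ] at hx
      exact mul_right_cancel₀ hx0 (hx.trans (one_mul x).symm)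
    have : NeZero (Nat.card k ^ n - 1) := ⟨by omega⟩
    obtain ⟨j, -, hj⟩ := hζ.eq_pow_of_pow_eq_one h1
    rw [← hj, map_pow, hi2, ← pow_mul, ← pow_mul, mul_comm]

/-- an element of level `a` acts on the level `a * m` with order dividing `m` -/
private theorem OddLev_pow_mem [Finite k] (h2 : (2 : k) ≠ 0) [IsSepClosure (RatFunc k) Ω]
    {a m : ℕ} (ha : 0 < a) (hm : 0 < m) {g : GG k Ω} (hg : g ∈ Hn k Ω a) :
    g ^ m ∈ Hn k Ω (a * m) := by
  have hn : 0 < a * m := Nat.mul_pos ha hm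
  obtain ⟨i, hi⟩ := OddLev_act (Ω := Ω) h2 hn g
  -- `a ∣ i`
  have hai : a ∣ i := by
    obtain ⟨ζ, hζ, hQ⟩ := exists_prim (k := k) (Ω := Ω) h2 ha
    have hζa : ζ ^ (Nat.card k ^ a) = ζ := prim_level hζ.pow_eq_one hQ
    have hζ0 : ζ ≠ 0 := hζ.ne_zero (by omega)
    have h1 : ζ ^ (Nat.card k ^ i) = ζ := by
      rw [← hi ζ (pow_pow_mul ζ _ a m hζa)]
      exact hg ζ hζa
    have hpos : 0 < Nat.card k ^ i := pow_pos Nat.card_pos i
    have h3 : ζ ^ (Nat.card k ^ i - 1) = 1 := by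
      have e : Nat.card k ^ i = (Nat.card k ^ i - 1) + 1 := by omega
      rw [e, pow_succ] at h1
      exact mul_right_cancel₀ hζ0 (h1.trans (one_mul ζ).symm)
    have h4 : (Nat.card k ^ a - 1) ∣ (Nat.card k ^ i - 1) := hζ.dvd_of_pow_eq_one _ h3
    have h5 := Nat.pow_sub_one_gcd_pow_sub_one (Nat.card k) a i
    rw [Nat.gcd_eq_left h4] at h5
    have hq1 : 1 < Nat.card k := Finite.one_lt_card
    have h6 : Nat.card k ^ a = Nat.card k ^ (a.gcd i) := by
      have h7 : 0 < Nat.card k ^ (a.gcd i) := pow_pos Nat.card_pos _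
      omega
    have h8 : a = a.gcd i := Nat.pow_right_injective hq1 h6
    rw [h8]
    exact Nat.gcd_dvd_right a i
  -- powers of `g`
  have hpow : ∀ j : ℕ, ∀ x : Ω, x ^ (Nat.card k ^ (a * m)) = x →
      (g ^ j) x = x ^ (Nat.card k ^ (i * j)) := by
    intro j
    induction j with
    | zero => intro x _; simp
    | succ j ih =>
      intro x hx
      rw [pow_succ', AlgEquiv.mul_apply, ih x hx, map_pow, hi x hx, ← pow_mul, Nat.mul_succ,
        pow_add, mul_comm]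
  intro x hx
  rw [hpow m x hx]
  obtain ⟨l, rfl⟩ := hai
  have e : a * l * m = a * m * l := by ring
  rw [e]
  exact pow_pow_mul x _ (a * m) l hx

/-- a finite group of exponent prime to `l` has order prime to `l` -/
theorem card_coprime {Q : Type*} [Group Q] [Finite Q] {l m : ℕ} (hl : l.Prime) (hm : ¬ l ∣ m)
    (h : ∀ g : Q, g ^ m = 1) : Nat.Coprime (Nat.card Q) l := by
  rw [Nat.coprime_comm, hl.coprime_iff_not_dvd]
  intro hd
  have : Fact (Nat.Prime l) := ⟨hl⟩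
  obtain ⟨g, hg⟩ := exists_prime_orderOf_dvd_card' (G := Q) l hd
  exact hm (by rw [← hg]; exact orderOf_dvd_of_pow_eq_one (h g))

/-- Module OddLevN: from level `l ^ r * m`, `m` prime to `l`, to level `l ^ r`. -/
theorem oddLevelN [Finite k] (h2 : (2 : k) ≠ 0) [IsSepClosure (RatFunc k) Ω] {l : ℕ}
    (hl : l.Prime) (e : ℕ)
    (A : Subgroup (GG k Ω)) (hA : IsOpen (A : Set (GG k Ω))) (c : GG k Ω → GG k Ω → Ωˣ)
    (hc : CocOn (l ^ e) A c) (n : ℕ) (hn : 0 < n) (h : SplM (l ^ e) (A ⊓ Hn k Ω n) c) :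
    ∃ r : ℕ, SplM (l ^ e) (A ⊓ Hn k Ω (l ^ r)) c := by
  classical
  have hgal : IsGalois (RatFunc k) Ω := IsSepClosure.isGalois
  obtain ⟨r, m, hmodd, rfl⟩ := Nat.exists_eq_pow_mul_and_not_dvd hn.ne' l hl.ne_one
  have h2r : 0 < l ^ r := pow_pos hl.pos r
  have hm0 : 0 < m := Nat.pos_of_ne_zero fun h0 => hmodd (by rw [h0]; exact dvd_zero l)
  refine ⟨r, ?_⟩
  set V : Subgroup (GG k Ω) := A ⊓ Hn k Ω (l ^ r) with hV
  set U : Subgroup (GG k Ω) := A ⊓ Hn k Ω (l ^ r * m) with hU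
  have hUV : U ≤ V := inf_le_inf_left A (Hn_mono (Nat.dvd_mul_right _ m))
  have hUo : IsOpen (U : Set (GG k Ω)) := by
    rw [hU, Subgroup.coe_inf]
    exact hA.inter (isOpen_Hn hn)
  have hnor : (U.subgroupOf V).Normal := by
    refine ⟨fun u hu v => ?_⟩
    rw [Subgroup.mem_subgroupOf] at hu ⊢
    exact ⟨A.mul_mem (A.mul_mem v.2.1 hu.1) (A.inv_mem v.2.1),
      (Hn_normal (l ^ r * m)).conj_mem _ hu.2 _⟩
  have hfin0 : Finite (GG k Ω ⧸ U) := Subgroup.quotient_finite_of_isOpen U hUo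
  have hfi : U.FiniteIndex := Subgroup.finiteIndex_of_finite_quotient
  have hfi' : (U.subgroupOf V).FiniteIndex := inferInstance
  have hfin : Finite (V ⧸ U.subgroupOf V) := Subgroup.finite_quotient_of_finiteIndex
  have hodd : Nat.Coprime (U.relIndex V) l := by
    have h1 : U.relIndex V = Nat.card (V ⧸ U.subgroupOf V) := rfl
    rw [h1]
    refine card_coprime hl hmodd fun g => ?_
    obtain ⟨v, rfl⟩ := QuotientGroup.mk_surjective g
    rw [← QuotientGroup.mk_pow, QuotientGroup.eq_one_iff, Subgroup.mem_subgroupOf]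
    exact ⟨A.pow_mem v.2.1 m, OddLev_pow_mem h2 h2r hm0 v.2.2⟩
  refine transN V U hUo hUV (Nat.Coprime.pow_right e hodd) hfi'.index_ne_zero c ⟨hc.mu, ?_,
    fun s hs t ht w hw => hc.coc s hs.1 t ht.1 w hw.1⟩ h
  obtain ⟨N1, n1n, n1o, n1A, n1c⟩ := hc.lc
  refine ⟨N1 ⊓ Hn k Ω (l ^ r), inferInstance, ?_, inf_le_inf_right _ n1A, fun s hs t ht x hx y hy =>
    n1c s hs.1 t ht.1 x hx.1 y hy.1⟩
  rw [Subgroup.coe_inf]
  exact n1o.inter (isOpen_Hn h2r)

end Pool.Agent.SmL.C
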