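import Pool.Agent.Lib.SM.C.Levels
import Pool.Agent.Lib.SM.C.TsenU
import Pool.Agent.Lib.SmL.C.HDefs

set_option autoImplicit false

/-!
SMITH-L, block C, module ToLevN (version of `GBU/H/ToLev.lean`): a two-cocycle on `A` with values in
`μ_M` which splits on `H ⊓ A` splits on `A ⊓ Hn n` for some `n > 0`.
-/

namespace Pool.Agent.SmL.C

open Pool.Agent.SmithC Pool.Agent.SmD

variable {k Ω : Type} [Field k] [Field Ω] [Algebra (RatFunc k) Ω]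

/-- an open normal subgroup acting trivially on `μ_M` -/
theorem exists_open_mu [IsSepClosure (RatFunc k) Ω] {M : ℕ} (hM : 0 < M) :
    ∃ N : Subgroup (GG k Ω), N.Normal ∧ IsOpen (N : Set (GG k Ω)) ∧
      ∀ x ∈ N, ∀ u : Ωˣ, u ^ M = 1 → x • u = u := by
  have hgal : IsGalois (RatFunc k) Ω := IsSepClosure.isGalois
  have hfin : {u : Ω | u ^ M = 1}.Finite := by
    have h0 : (Polynomial.X ^ M - Polynomial.C 1 : Polynomial Ω) ≠ 0 :=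
      Polynomial.X_pow_sub_C_ne_zero hM 1
    refine (Polynomial.finite_setOfPred_isRoot h0).subset fun u hu => ?_
    change Polynomial.IsRoot _ u
    rw [Polynomial.IsRoot.def, Polynomial.eval_sub, Polynomial.eval_pow, Polynomial.eval_X,
      Polynomial.eval_C]
    exact sub_eq_zero.2 hu
  let N : Subgroup (GG k Ω) :=
    { carrier := {g | ∀ u : Ω, u ^ M = 1 → g u = u}
      one_mem' := fun _ _ => rfl
      mul_mem' := by
        intro a b ha hb x hx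
        rw [AlgEquiv.mul_apply, hb x hx, ha x hx]
      inv_mem' := by
        intro a ha x hx
        have h1 : a⁻¹ x = a⁻¹ (a x) := by rw [ha x hx]
        rw [h1]
        exact a.symm_apply_apply x }
  refine ⟨N, ⟨fun n hn g u hu => ?_⟩, ?_, fun x hx u hu => Units.ext (hx u (by
    rw [← Units.val_pow_eq_pow_val, hu, Units.val_one]))⟩
  · rw [AlgEquiv.mul_apply, AlgEquiv.mul_apply, hn (g⁻¹ u) (by rw [← map_pow, hu, map_one])]
    exact g.apply_symm_apply u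
  · have h1 : (N : Set (GG k Ω)) = ⋂ x ∈ {x : Ω | x ^ M = 1},
        (MulAction.stabilizer (GG k Ω) x : Set (GG k Ω)) := by
      ext g
      rw [Set.mem_iInter₂]
      exact Iff.rfl
    rw [h1]
    exact hfin.isOpen_biInter fun x _ => stabilizer_isOpen_of_isIntegral (K := RatFunc k) x

/-- Module ToLev: `H ∩ A` to a finite level. `c`, `b` are constant on the cosets of an open normal
`N ≤ A`, acting trivially on `μ`; `Hn n ≤ H N` (exists_Hn_le), so `A ∩ Hn n ≤ (H ∩ A) N`;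
`b' (h x) = b h`. -/
theorem toLevelN [Finite k] [IsSepClosure (RatFunc k) Ω] {M : ℕ} (hMk : (M : k) ≠ 0)
    (A : Subgroup (GG k Ω)) (c : GG k Ω → GG k Ω → Ωˣ) (hc : CocOn M A c)
    (h : SplM M (HH k Ω ⊓ A) c) : ∃ n : ℕ, 0 < n ∧ SplM M (A ⊓ Hn k Ω n) c := by
  classical
  obtain ⟨N1, n1n, n1o, n1A, n1c⟩ := hc.lc
  obtain ⟨b, hbM, ⟨N2, n2n, n2o, n2b⟩, hbs⟩ := h
  have hM0 : 0 < M := Nat.pos_of_ne_zero fun h => hMk (by rw [h, Nat.cast_zero])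
  obtain ⟨N3, n3n, n3o, n3t⟩ := exists_open_mu (k := k) (Ω := Ω) hM0
  have hNn : (N1 ⊓ (N2 ⊓ N3)).Normal := inferInstance
  have hNo : IsOpen ((N1 ⊓ (N2 ⊓ N3) : Subgroup (GG k Ω)) : Set (GG k Ω)) := by
    rw [Subgroup.coe_inf, Subgroup.coe_inf]
    exact n1o.inter (n2o.inter n3o)
  obtain ⟨n, hn0, hn⟩ := exists_Hn_le (N1 ⊓ (N2 ⊓ N3)) hNo
  -- decomposition
  have hdec : ∀ g ∈ A ⊓ Hn k Ω n, ∃ h ∈ HH k Ω ⊓ A, ∃ x ∈ N1 ⊓ (N2 ⊓ N3), h * x = g := by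
    intro g hg
    obtain ⟨h, hh, x, hx, rfl⟩ := Subgroup.mem_sup_of_normal_right.1 (hn hg.2)
    refine ⟨h, ⟨hh, ?_⟩, x, hx, rfl⟩
    have h1 : h = h * x * x⁻¹ := by rw [mul_inv_cancel_right]
    rw [h1]
    exact A.mul_mem hg.1 (A.inv_mem (n1A hx.1))
  -- uniqueness
  have huni : ∀ h ∈ HH k Ω ⊓ A, ∀ x ∈ N1 ⊓ (N2 ⊓ N3), ∀ h' ∈ HH k Ω ⊓ A,
      ∀ x' ∈ N1 ⊓ (N2 ⊓ N3), h * x = h' * x' → b h = b h' := by
    intro h hh x hx h' hh' x' hx' e1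
    have h3 : h' = h * (x * x'⁻¹) := by rw [← mul_assoc, e1, mul_inv_cancel_right]
    have h4 : x * x'⁻¹ = h⁻¹ * h' := by rw [h3, inv_mul_cancel_left]
    have h5 : x * x'⁻¹ ∈ N2 := N2.mul_mem hx.2.1 (N2.inv_mem hx'.2.1)
    have h6 : x * x'⁻¹ ∈ HH k Ω ⊓ A := by
      rw [h4]
      exact (HH k Ω ⊓ A).mul_mem ((HH k Ω ⊓ A).inv_mem hh) hh'
    rw [h3, n2b h hh _ h5 h6]
  let b' : GG k Ω → Ωˣ := fun g =>
    if H : ∃ h ∈ HH k Ω ⊓ A, ∃ x ∈ N1 ⊓ (N2 ⊓ N3), h * x = g then b H.choose else 1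
  have hb' : ∀ h ∈ HH k Ω ⊓ A, ∀ x ∈ N1 ⊓ (N2 ⊓ N3), b' (h * x) = b h := by
    intro h hh x hx
    have H : ∃ h' ∈ HH k Ω ⊓ A, ∃ x' ∈ N1 ⊓ (N2 ⊓ N3), h' * x' = h * x := ⟨h, hh, x, hx, rfl⟩
    change (if H : ∃ h' ∈ HH k Ω ⊓ A, ∃ x' ∈ N1 ⊓ (N2 ⊓ N3), h' * x' = h * x then b H.choose
      else 1) = b h
    rw [dif_pos H]
    obtain ⟨h3, x', hx', h4⟩ := H.choose_spec
    exact huni _ h3 x' hx' h hh x hx h4
  have hb'M : ∀ g, b' g ^ M = 1 := by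
    intro g
    change (if H : ∃ h' ∈ HH k Ω ⊓ A, ∃ x' ∈ N1 ⊓ (N2 ⊓ N3), h' * x' = g then b H.choose
      else 1) ^ M = 1
    split_ifs with H
    · exact hbM _
    · exact one_pow _
  refine ⟨n, hn0, b', hb'M, ⟨N1 ⊓ (N2 ⊓ N3), hNn, hNo, ?_⟩, ?_⟩
  · intro s hs m hm _
    obtain ⟨h, hh, x, hx, rfl⟩ := hdec s hs
    rw [mul_assoc, hb' h hh _ ((N1 ⊓ (N2 ⊓ N3)).mul_mem hx hm), hb' h hh x hx]
  · intro s hs t ht
    obtain ⟨h, hh, x, hx, rfl⟩ := hdec s hs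
    obtain ⟨h', hh', x', hx', rfl⟩ := hdec t ht
    have e1 : h * x * (h' * x') = (h * h') * (h'⁻¹ * x * h' * x') := by group
    have hx2 : h'⁻¹ * x * h' * x' ∈ N1 ⊓ (N2 ⊓ N3) := by
      refine (N1 ⊓ (N2 ⊓ N3)).mul_mem ?_ hx'
      have := hNn.conj_mem x hx h'⁻¹
      rwa [inv_inv] at this
    rw [e1, hb' _ ((HH k Ω ⊓ A).mul_mem hh hh') _ hx2, hb' h hh x hx, hb' h' hh' x' hx',
      n1c h hh.2 h' hh'.2 x hx.1 x' hx'.1, mul_smul, n3t x hx.2.2 _ (hbM h')]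
    exact hbs h hh h' hh'

end Pool.Agent.SmL.C
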