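import Pool.Agent.Lib.SmL.C.TsenN
import Pool.Agent.Lib.SmL.C.TransN
import Pool.Agent.Lib.SmL.C.ToLevN
import Pool.Agent.Lib.SmL.C.OddLevN
import Pool.Agent.Lib.GBU.H.LevO

set_option autoImplicit false

/-!
SMITH-L, block C (version of `GBU/H/LevO.lean`): every locally constant two-cocycle with values in
`μ_(l^e)` of an open subgroup `A` of `Gal(Ω / RatFunc k)` splits over `A ∩ Hn n` for some `n > 0`
(`levelN`), and over `A ∩ Hn (l ^ r)` for some `r` (`levelL`).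
-/

namespace Pool.Agent.SmL.C

open Pool.Agent.SmithC

variable {k Ω : Type} [Field k] [Field Ω] [Algebra (RatFunc k) Ω]

theorem CocOn.mono [IsSepClosure (RatFunc k) Ω] {M : ℕ} {A B : Subgroup (GG k Ω)}
    {c : GG k Ω → GG k Ω → Ωˣ} (hc : CocOn M A c) (hBA : B ≤ A) (hB : IsOpen (B : Set (GG k Ω))) :
    CocOn M B c := by
  refine ⟨hc.mu, ?_, fun s hs t ht w hw => hc.coc s (hBA hs) t (hBA ht) w (hBA hw)⟩
  obtain ⟨N1, n1n, n1o, n1A, n1c⟩ := hc.lc
  obtain ⟨N2, n2n, n2o, n2B⟩ := Pool.Agent.GBUH.exists_normal_le B hB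
  refine ⟨N1 ⊓ N2, inferInstance, ?_, inf_le_right.trans n2B, fun s hs t ht n hn m hm =>
    n1c s (hBA hs) t (hBA ht) n hn.1 m hm.1⟩
  rw [Subgroup.coe_inf]
  exact n1o.inter n2o

theorem SplM.mono {M : ℕ} {A B : Subgroup (GG k Ω)} {c : GG k Ω → GG k Ω → Ωˣ} (h : SplM M A c)
    (hBA : B ≤ A) : SplM M B c := by
  obtain ⟨b, hb, ⟨N, hNn, hNo, hN⟩, hs⟩ := h
  exact ⟨b, hb, ⟨N, hNn, hNo, fun s hs n hn hnB => hN s (hBA hs) n hn (hBA hnB)⟩,
    fun s hs1 t ht => hs s (hBA hs1) t (hBA ht)⟩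

/-- A subgroup of odd index in which a given open normal subgroup has index a power of two. -/
theorem exists_sylowN [IsSepClosure (RatFunc k) Ω] {l : ℕ} (hl : l.Prime) (A N : Subgroup (GG k Ω))
    (hNn : N.Normal) (hNo : IsOpen (N : Set (GG k Ω))) (hNA : N ≤ A) :
    ∃ A' : Subgroup (GG k Ω), N ≤ A' ∧ A' ≤ A ∧ Nat.Coprime (A'.relIndex A) l ∧ A'.relIndex A ≠ 0 ∧
      ∃ r : ℕ, N.relIndex A' = l ^ r := by
  classical
  have hfin : Finite (GG k Ω ⧸ N) := Subgroup.quotient_finite_of_isOpen N hNo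
  have hfi : N.FiniteIndex := Subgroup.finiteIndex_of_finite_quotient
  have hfi' : (N.subgroupOf A).FiniteIndex := inferInstance
  have hfinQ : Finite (A ⧸ N.subgroupOf A) := inferInstance
  have : Fact (Nat.Prime l) := ⟨hl⟩
  obtain ⟨P⟩ : Nonempty (Sylow l (A ⧸ N.subgroupOf A)) := inferInstance
  have hPc : ∃ r : ℕ, Nat.card P = l ^ r := IsPGroup.iff_card.1 P.isPGroup'
  have hPi : Nat.Coprime ((P : Subgroup (A ⧸ N.subgroupOf A)).index) l := by
    rw [Nat.coprime_comm, hl.coprime_iff_not_dvd]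
    exact P.not_dvd_index
  have hPi0 : (P : Subgroup (A ⧸ N.subgroupOf A)).index ≠ 0 := by
    intro h0
    rw [h0, Nat.coprime_zero_left] at hPi
    exact hl.ne_one hPi
  set A2 : Subgroup A := (P : Subgroup (A ⧸ N.subgroupOf A)).comap
    (QuotientGroup.mk' (N.subgroupOf A)) with hA2
  have hsub : (A2.map A.subtype).subgroupOf A = A2 :=
    Subgroup.comap_map_eq_self_of_injective A.subtype_injective A2
  have hA2i : A2.index = (P : Subgroup (A ⧸ N.subgroupOf A)).index :=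
    Subgroup.index_comap_of_surjective _ (QuotientGroup.mk'_surjective _)
  have hrel : (A2.map A.subtype).relIndex A = (P : Subgroup (A ⧸ N.subgroupOf A)).index := by
    change ((A2.map A.subtype).subgroupOf A).index = _
    rw [hsub, hA2i]
  have hNA' : N ≤ A2.map A.subtype := by
    intro n hn
    refine ⟨⟨n, hNA hn⟩, ?_, rfl⟩
    change QuotientGroup.mk' (N.subgroupOf A) ⟨n, hNA hn⟩ ∈ (P : Subgroup (A ⧸ N.subgroupOf A))
    have h1 : QuotientGroup.mk' (N.subgroupOf A) ⟨n, hNA hn⟩ = 1 :=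
      (QuotientGroup.eq_one_iff _).2 hn
    rw [h1]
    exact Subgroup.one_mem _
  have hA'A : A2.map A.subtype ≤ A := Subgroup.map_subtype_le A2
  refine ⟨A2.map A.subtype, hNA', hA'A, by rw [hrel]; exact hPi, by rw [hrel]; exact hPi0, ?_⟩
  obtain ⟨r, hr⟩ := hPc
  refine ⟨r, ?_⟩
  have h1 := Subgroup.relIndex_mul_relIndex N (A2.map A.subtype) A hNA' hA'A
  have h3 : N.relIndex A = Nat.card (A ⧸ N.subgroupOf A) := rfl
  have h4 := (P : Subgroup (A ⧸ N.subgroupOf A)).card_mul_index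
  rw [hrel, h3, ← h4] at h1
  have h5 : 0 < (P : Subgroup (A ⧸ N.subgroupOf A)).index :=
    Nat.pos_of_ne_zero hPi0
  have h6 := Nat.eq_of_mul_eq_mul_right h5 h1
  rw [h6]
  exact hr

/-- Splitting over a finite constant extension. -/
theorem levelN [Finite k] (h2 : (2 : k) ≠ 0) [IsSepClosure (RatFunc k) Ω] {l : ℕ} (hl : l.Prime)
    (hlk : (l : k) ≠ 0) (e : ℕ)
    (A : Subgroup (GG k Ω)) (hA : IsOpen (A : Set (GG k Ω))) (c : GG k Ω → GG k Ω → Ωˣ)
    (hc : CocOn (l ^ e) A c) : ∃ n : ℕ, 0 < n ∧ SplM (l ^ e) (A ⊓ Hn k Ω n) c := by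
  classical
  have hMk : ((l ^ e : ℕ) : k) ≠ 0 := by
    rw [Nat.cast_pow]
    exact pow_ne_zero _ hlk
  obtain ⟨N, hNn, hNo, hNA, hNc⟩ := hc.lc
  obtain ⟨A', hNA', hA'A, hodd, hidx0, r, hr⟩ := exists_sylowN hl A N hNn hNo hNA
  have hA'o : IsOpen (A' : Set (GG k Ω)) := Subgroup.isOpen_mono hNA' hNo
  have hc' : CocOn (l ^ e) A' c := hc.mono hA'A hA'o
  have h1 : SplM (l ^ e) (HH k Ω ⊓ A') c := tsenNC h2 hl hMk A' N hNA' hNo
    (fun g _ n hn => hNn.conj_mem n hn g) r hr c hc'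
    (fun s hs t ht n hn m hm => hNc s (hA'A hs) t (hA'A ht) n hn m hm)
  obtain ⟨n, hn, h3⟩ := toLevelN hMk A' c hc' h1
  refine ⟨n, hn, ?_⟩
  have hHo : IsOpen (Hn k Ω n : Set (GG k Ω)) := isOpen_Hn hn
  have hUo : IsOpen ((A' ⊓ Hn k Ω n : Subgroup (GG k Ω)) : Set (GG k Ω)) := by
    rw [Subgroup.coe_inf]
    exact hA'o.inter hHo
  have hVo : IsOpen ((A ⊓ Hn k Ω n : Subgroup (GG k Ω)) : Set (GG k Ω)) := by
    rw [Subgroup.coe_inf]
    exact hA.inter hHo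
  have hfinH : Finite (GG k Ω ⧸ Hn k Ω n) := Subgroup.quotient_finite_of_isOpen _ hHo
  have hfiH : (Hn k Ω n).FiniteIndex := Subgroup.finiteIndex_of_finite_quotient
  have e1 : (A' ⊓ Hn k Ω n).relIndex (A ⊓ Hn k Ω n) = A'.relIndex (A ⊓ Hn k Ω n) := by
    rw [← Subgroup.inf_relIndex_right A', ← Subgroup.inf_relIndex_right (A' ⊓ Hn k Ω n)]
    congr 1
    rw [inf_assoc, inf_left_comm (Hn k Ω n), inf_idem]
  have e2 : A'.relIndex (A ⊓ Hn k Ω n) =
      (A'.subgroupOf A).relIndex ((Hn k Ω n).subgroupOf A) := by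
    rw [← Subgroup.relIndex_subgroupOf (H := A') (inf_le_left : A ⊓ Hn k Ω n ≤ A),
      Subgroup.inf_subgroupOf_left]
  have e3 := Pool.Agent.GBUH.relIndex_dvd_index_normal (A'.subgroupOf A)
    ((Hn k Ω n).subgroupOf A) (by
    have : ((Hn k Ω n).subgroupOf A).FiniteIndex := inferInstance
    exact Subgroup.isFiniteRelIndex_iff_relIndex_ne_zero.1
      Subgroup.isFiniteRelIndex_of_finiteIndex)
  have e4 : (A'.subgroupOf A).index = A'.relIndex A := rfl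
  rw [e4] at e3
  have hcop : Nat.Coprime ((A' ⊓ Hn k Ω n).relIndex (A ⊓ Hn k Ω n)) l := by
    rw [e1, e2]
    exact Nat.Coprime.coprime_dvd_left e3 hodd
  refine transN (A ⊓ Hn k Ω n) (A' ⊓ Hn k Ω n) hUo (inf_le_inf_right _ hA'A)
    (Nat.Coprime.pow_right e hcop) ?_ c (hc.mono inf_le_left hVo) h3
  intro h0
  rw [h0, Nat.coprime_zero_left] at hcop
  exact hl.ne_one hcop

/-- Splitting over a constant extension of degree a power of `l`. -/
theorem levelL [Finite k] (h2 : (2 : k) ≠ 0) [IsSepClosure (RatFunc k) Ω] {l : ℕ} (hl : l.Prime)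
    (hlk : (l : k) ≠ 0) (e : ℕ)
    (A : Subgroup (GG k Ω)) (hA : IsOpen (A : Set (GG k Ω))) (c : GG k Ω → GG k Ω → Ωˣ)
    (hc : CocOn (l ^ e) A c) : ∃ r : ℕ, SplM (l ^ e) (A ⊓ Hn k Ω (l ^ r)) c := by
  obtain ⟨n, hn, h⟩ := levelN h2 hl hlk e A hA c hc
  exact oddLevelN h2 hl e A hA c hc n hn h

end Pool.Agent.SmL.C
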