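import Pool.Agent.Lib.SmL.C.C1

/-!
# SMITH-L, block C, module NormC1

`L` a finite extension of `κ(t)`, `κ` algebraically closed, `σ` an automorphism of `L / κ(t)` of exact
order `n`: every element fixed by `σ` is a norm.

PROOF. `F` = the fixed field of `⟨σ⟩` (`IntermediateField.fixedField (Subgroup.zpowers σ)`), `L / F` is
Galois of degree `n` with group `⟨σ⟩` and `Algebra.norm F x = ∏ σ^i x`
(`Algebra.norm_eq_prod_automorphisms`). In a basis `b` of `L / F` the norm of `∑ X_i b_i` is the
determinant of the matrix `∑ X_i (leftMulMatrix b b_i)` of linear forms: a homogeneous polynomial `Q` of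
degree `n` in `n` variables. `c1_zero` for `Q(X_1, ..., X_n) - a X_{n+1}^n` (`n + 1` variables, `F` is
finite over `κ(t)`): a nontrivial zero `(x, t)`; `t = 0` would give `N(x) = 0`, `x = 0`; so `t ≠ 0` and
`a = N(x / t)`.
-/

set_option autoImplicit false

namespace Pool.Agent.SmL.C

open MvPolynomial

/-- The norm form. -/
private theorem exists_normForm {F L : Type} [Field F] [Field L] [Algebra F L] {n : ℕ}
    (b : Module.Basis (Fin n) F L) :
    ∃ Q : MvPolynomial (Fin n) F, Q.IsHomogeneous n ∧
      ∀ y : Fin n → F, eval y Q = Algebra.norm F (∑ j, y j • b j) := by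
  classical
  let M : Matrix (Fin n) (Fin n) (MvPolynomial (Fin n) F) := fun r c =>
    ∑ j, C (Algebra.leftMulMatrix b (b j) r c) * X j
  have hM : ∀ r c, (M r c).IsHomogeneous 1 := by
    intro r c
    refine IsHomogeneous.sum _ _ _ fun j _ => ?_
    have h := (isHomogeneous_C (Fin n) (Algebra.leftMulMatrix b (b j) r c)).mul
      (isHomogeneous_X F j)
    simpa using h
  refine ⟨M.det, ?_, fun y => ?_⟩
  · rw [Matrix.det_apply]
    refine IsHomogeneous.sum _ _ _ fun s _ => ?_
    have h := IsHomogeneous.prod (Finset.univ : Finset (Fin n)) (fun i => M (s i) i) (fun _ => 1)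
      (fun i _ => hM _ _)
    simp only [Finset.sum_const, Finset.card_univ, Fintype.card_fin, smul_eq_mul, mul_one] at h
    rcases Int.units_eq_one_or (Equiv.Perm.sign s) with h1 | h1
    · rw [h1, one_smul]
      exact h
    · rw [h1, Units.neg_smul, one_smul]
      exact h.neg
  · rw [Algebra.norm_eq_matrix_det b]
    have h1 : eval y M.det = (M.map (eval y)).det := by
      rw [RingHom.map_det]
      rfl
    rw [h1]
    congr 1
    ext r c
    have h2 : (M.map (eval y)) r c = ∑ j, Algebra.leftMulMatrix b (b j) r c * y j := by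
      change eval y (∑ j, C (Algebra.leftMulMatrix b (b j) r c) * X j) = _
      simp
    rw [h2, map_sum, Matrix.sum_apply]
    refine Finset.sum_congr rfl fun j _ => ?_
    rw [map_smul, Matrix.smul_apply, smul_eq_mul, mul_comm]

/-- Norms are surjective over `C1` fields (cyclic extensions). -/
theorem norm_surj {κ L : Type} [Field κ] [IsAlgClosed κ] [Field L] [Algebra (RatFunc κ) L]
    [FiniteDimensional (RatFunc κ) L] {n : ℕ} (hn : 0 < n) (σ : L ≃ₐ[RatFunc κ] L)
    (hσ : orderOf σ = n) (a : L) (ha : σ a = a) :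
    ∃ x : L, ∏ i ∈ Finset.range n, (σ ^ i) x = a := by
  classical
  have hof : IsOfFinOrder σ := orderOf_pos_iff.1 (by rw [hσ]; exact hn)
  set H : Subgroup (L ≃ₐ[RatFunc κ] L) := Subgroup.zpowers σ with hH
  set F := IntermediateField.fixedField H with hF
  have hcard : Nat.card H = n := by
    rw [hH, Nat.card_zpowers, hσ]
  have hrank : Module.finrank F L = n := by
    rw [hF, IntermediateField.finrank_fixedField_eq_card, hcard]
  have haF : a ∈ F := by
    rw [hF, IntermediateField.mem_fixedField_iff]
    have h1 : H ≤ MulAction.stabilizer (L ≃ₐ[RatFunc κ] L) a := by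
      rw [hH, Subgroup.zpowers_le, MulAction.mem_stabilizer_iff]
      exact ha
    exact fun g hg => h1 hg
  let b : Module.Basis (Fin n) F L := (Module.finBasisOfFinrankEq F L hrank)
  obtain ⟨Q, hQ, hQe⟩ := exists_normForm b
  let a' : F := ⟨a, haF⟩
  let P : MvPolynomial (Fin (n + 1)) F := rename Fin.castSucc Q - C a' * X (Fin.last n) ^ n
  have hP : P.IsHomogeneous n := by
    refine IsHomogeneous.sub (hQ.rename_isHomogeneous) ?_
    have h := (isHomogeneous_C (Fin (n + 1)) a').mul (isHomogeneous_X_pow (R := F) (Fin.last n) n)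
    simpa using h
  obtain ⟨x, hx0, hx⟩ := c1_zero (κ := κ) P hP hn (Nat.lt_succ_self n)
  have hxe : Algebra.norm F (∑ j, x (Fin.castSucc j) • b j) = a' * x (Fin.last n) ^ n := by
    have h1 : eval x P = eval (fun j => x (Fin.castSucc j)) Q - a' * x (Fin.last n) ^ n := by
      simp only [P, map_sub, eval_rename, map_mul, eval_C, map_pow, eval_X]
      rfl
    rw [← hQe, ← sub_eq_zero, ← h1, hx]
  have ht : x (Fin.last n) ≠ 0 := by
    intro ht
    rw [ht, zero_pow hn.ne', mul_zero] at hxe
    have h2 : ∑ j, x (Fin.castSucc j) • b j = 0 := Algebra.norm_eq_zero_iff.1 hxe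
    have h3 := Fintype.linearIndependent_iff.1 b.linearIndependent _ h2
    apply hx0
    ext i
    refine Fin.lastCases ?_ (fun j => ?_) i
    · rw [ht]; rfl
    · rw [h3 j]; rfl
  set t := x (Fin.last n) with htd
  set y : L := ∑ j, x (Fin.castSucc j) • b j with hy
  have hgal : IsGalois F L := by
    refine IsGalois.of_card_aut_eq_finrank _ _ ?_
    rw [hrank, ← hcard]
    exact (Nat.card_congr (IntermediateField.subgroupEquivAlgEquiv H).toEquiv).symm
  refine ⟨y * algebraMap F L t⁻¹, ?_⟩
  have hnorm : Algebra.norm F (y * algebraMap F L t⁻¹) = a' := by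
    rw [map_mul, hxe, Algebra.norm_algebraMap, hrank, inv_pow, mul_assoc,
      mul_inv_cancel₀ (pow_ne_zero _ ht), mul_one]
  have h5 := Algebra.norm_eq_prod_automorphisms F (y * algebraMap F L t⁻¹)
  rw [hnorm] at h5
  have h6 : algebraMap F L a' = a := rfl
  rw [← h6, h5]
  generalize y * algebraMap F L t⁻¹ = z
  let e : Fin (orderOf σ) ≃ (L ≃ₐ[F] L) :=
    (finEquivZPowers hof).trans (IntermediateField.subgroupEquivAlgEquiv H).toEquiv
  rw [← Equiv.prod_comp e, ← hσ, Finset.prod_range]
  exact Finset.prod_congr rfl fun i _ => rfl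

end Pool.Agent.SmL.C
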