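import Pool.Agent.Lib.SmL.C.Def

/-!
# SMITH-L, block C: the multiplicative form of the local invariant
-/

set_option autoImplicit false

open Finset

namespace Pool.Agent.SmL.C

section zt

variable {A : Type*} [CommGroup A] {l : ℕ} {x : A}

/-- `a ↦ x ^ a`, `x ^ l = 1`. -/
noncomputable def zt (hx : x ^ l = 1) : ZMod l →+ Additive A :=
  ZMod.lift l ⟨zmultiplesHom (Additive A) (Additive.ofMul x), by
    rw [zmultiplesHom_apply, natCast_zsmul, ← ofMul_pow, hx]
    rfl⟩

theorem zt_int (hx : x ^ l = 1) (n : ℤ) : (zt hx (n : ZMod l)).toMul = x ^ n := by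
  rw [zt, ZMod.lift_coe]
  rfl

theorem zt_nat (hx : x ^ l = 1) (n : ℕ) : (zt hx (n : ZMod l)).toMul = x ^ n := by
  have h := zt_int hx (n : ℤ)
  rwa [Int.cast_natCast, zpow_natCast] at h

theorem zt_pow (hx : x ^ l = 1) (a : ZMod l) : (zt hx a).toMul ^ l = 1 := by
  have h1 : l • zt hx a = 0 := by
    rw [← map_nsmul, nsmul_eq_mul, CharP.cast_eq_zero, zero_mul, map_zero]
  exact h1

theorem zt_inj (hx : x ^ l = 1) (hx' : orderOf x = l) {a : ZMod l} (h : (zt hx a).toMul = 1) :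
    a = 0 := by
  obtain ⟨n, rfl⟩ := ZMod.intCast_surjective a
  rw [zt_int] at h
  rw [ZMod.intCast_zmod_eq_zero_iff_dvd, ← hx']
  exact orderOf_dvd_iff_zpow_eq_one.2 h

end zt

variable {G A : Type*} [Group G] [CommGroup A]

/-- The multiplicative version of `linv`. -/
def RM (sg ph : G) (q : ℕ) (F : G → G → A) : A :=
  F ph sg * (F (sg ^ q) ph)⁻¹ * (∏ i ∈ Ico 1 q, F (sg ^ i) sg)⁻¹

theorem RM_mul (sg ph : G) (q : ℕ) (F F' : G → G → A) :
    RM sg ph q (fun s t => F s t * F' s t) = RM sg ph q F * RM sg ph q F' := by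
  unfold RM
  rw [prod_mul_distrib]
  change F ph sg * F' ph sg * (F (sg ^ q) ph * F' (sg ^ q) ph)⁻¹ * _ = _
  generalize F ph sg = a
  generalize F' ph sg = a'
  generalize F (sg ^ q) ph = b
  generalize F' (sg ^ q) ph = b'
  generalize ∏ i ∈ Ico 1 q, F (sg ^ i) sg = c
  generalize ∏ i ∈ Ico 1 q, F' (sg ^ i) sg = c'
  have key : ∀ (X : Type _) [AddCommGroup X] (a a' b b' c c' : X),
      a + a' + -(b + b') + -(c + c') = a + -b + -c + (a' + -b' + -c') := by
    intro X _ a a' b b' c c'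
    abel
  exact key (Additive A) a a' b b' c c'

theorem RM_zt {l : ℕ} {x : A} (hx : x ^ l = 1) (sg ph : G) (q : ℕ) (z : G → G → ZMod l) :
    RM sg ph q (fun s t => (zt hx (z s t)).toMul) = (zt hx (linv sg ph q z)).toMul := by
  unfold RM linv
  rw [map_sub (zt hx), map_sub (zt hx), map_sum (zt hx), toMul_sub, toMul_sub, toMul_sum,
    div_eq_mul_inv, div_eq_mul_inv]

/-- The multiplicative obstruction of a coboundary. -/
theorem RM_cob [MulDistribMulAction G A] {n : ℕ} {sg ph : G} {q : ℕ} (hq : 1 ≤ q)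
    {B : G → A} (hB : ∀ s, B s ^ n = 1) (hsg : ∀ u : A, u ^ n = 1 → sg • u = u)
    (hph : ∀ u : A, u ^ n = 1 → ph • u = u ^ q) (hr : B (sg ^ q * ph) = B (ph * sg)) :
    RM sg ph q (fun s t => B s * s • B t * (B (s * t))⁻¹) = 1 := by
  have hsgi : ∀ (i : ℕ) (u : A), u ^ n = 1 → (sg ^ i) • u = u := by
    intro i u hu
    induction i with
    | zero => rw [pow_zero, one_smul]
    | succ i ih => rw [pow_succ, mul_smul, hsg u hu, ih]
  have hprod : ∀ q : ℕ, 1 ≤ q → ∏ i ∈ Ico 1 q, (B (sg ^ i) * (sg ^ i) • B sg *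
      (B (sg ^ i * sg))⁻¹) = B sg ^ q * (B (sg ^ q))⁻¹ := by
    intro q hq
    induction q, hq using Nat.le_induction with
    | base => rw [Ico_self, prod_empty, pow_one, pow_one, mul_inv_cancel]
    | succ q hq ih =>
      rw [prod_Ico_succ_top hq, ih, hsgi q _ (hB sg), ← pow_succ sg, pow_succ (B sg)]
      generalize B sg ^ q = a
      generalize B (sg ^ q) = b
      generalize B sg = c
      generalize B (sg ^ (q + 1)) = d
      have key : ∀ (X : Type _) [AddCommGroup X] (a b c d : X),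
          a + -b + (b + c + -d) = a + c + -d := by
        intro X _ a b c d
        abel
      exact key (Additive A) a b c d
  unfold RM
  rw [hprod q hq]
  change B ph * ph • B sg * (B (ph * sg))⁻¹ * (B (sg ^ q) * (sg ^ q) • B ph *
    (B (sg ^ q * ph))⁻¹)⁻¹ * (B sg ^ q * (B (sg ^ q))⁻¹)⁻¹ = 1
  rw [hph _ (hB sg), hsgi q _ (hB ph), hr]
  generalize B sg ^ q = a
  generalize B (sg ^ q) = b
  generalize B (ph * sg) = c
  generalize B ph = d
  have key : ∀ (X : Type _) [AddCommGroup X] (a b c d : X),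
      d + a + -c + -(b + d + -c) + -(a + -b) = 0 := by
    intro X _ a b c d
    abel
  exact key (Additive A) a b c d

/-- The multiplicative obstruction of a cup product with an unramified character. -/
theorem RM_cup [MulDistribMulAction G A] {n : ℕ} {sg ph : G} {q : ℕ} {κ : G → A}
    (hκ : ∀ s, κ s ^ n = 1) {d : G → ℕ} (hd : ∀ i : ℕ, d (sg ^ i) = 0)
    (hph : ∀ u : A, u ^ n = 1 → ph • u = u ^ q) :
    RM sg ph q (fun s t => (s • κ t) ^ d s) = κ sg ^ (q * d ph) := by
  unfold RM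
  have h1 : ∏ i ∈ Ico 1 q, ((sg ^ i) • κ sg) ^ d (sg ^ i) = 1 := by
    refine prod_eq_one fun i _ => ?_
    rw [hd i, pow_zero]
  rw [h1]
  change (ph • κ sg) ^ d ph * (((sg ^ q) • κ ph) ^ d (sg ^ q))⁻¹ * 1⁻¹ = _
  rw [hd q, pow_zero, inv_one, mul_one, mul_one, hph _ (hκ sg), pow_mul]

end Pool.Agent.SmL.C
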