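import Pool.Agent.Lib.SmL.C.AbsN
import Pool.Agent.Lib.GBU.Pic
import Pool.Agent.Lib.GBU.H.NormA

/-!
# SMITH-L, block C, module NormDiv: divisors of degree zero of `K` modulo the principal divisors and
the divisors `B` with `n ∣ deg v * B v`

PROOF. `absN` for `O = Place k K`, `d v = v.degree`, `P = Prin k K`; the number of effective divisors
in a class of large degree depends only on the degree by `card_eff_class` and `riemann_eq`
(see `norm_div` in `GBU/H/NormA.lean`). `dg Place.degree = degD` up to commutativity. `Nonempty`: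
`exists_place_geo G`; finiteness: `finite_deg_le G`. Instead of `toZ E`, `E : Place →₀ ℕ`,
`card_eff_class` has `E : Place →₀ ℤ` with `0 ≤ E`: a bijection.
-/

set_option autoImplicit false

namespace Pool.Agent.SmL.C

open Pool.Agent.BSDFF Pool.Agent.GBC Pool.Agent.GBU Pool.Agent.GBUH

private theorem normDiv_dg {k K : Type} [Field k] [Field K] [Algebra k K]
    (D : Place k K →₀ ℤ) : dg (fun w : Place k K => w.degree) D = degD D := by
  unfold dg degD
  refine Finsupp.sum_congr fun w _ => ?_
  rw [mul_comm]

private theorem normDiv_card {k K : Type} [Field k] [Field K] [Algebra k K]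
    (D : Place k K →₀ ℤ) :
    Nat.card {E : Place k K →₀ ℕ // toZ E - D ∈ Prin k K} =
      Nat.card {E : Place k K →₀ ℤ | 0 ≤ E ∧ E - D ∈ Prin k K} := by
  classical
  have hz : ∀ E : Place k K →₀ ℤ, 0 ≤ E → toZ (E.mapRange Int.toNat rfl) = E := by
    intro E hE
    ext w
    rw [toZ_apply, Finsupp.mapRange_apply]
    exact Int.toNat_of_nonneg (hE w)
  refine Nat.card_congr
    { toFun := fun E => ⟨toZ E.1, fun w => ?_, E.2⟩
      invFun := fun E => ⟨E.1.mapRange Int.toNat rfl, ?_⟩
      left_inv := fun E => ?_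
      right_inv := fun E => ?_ }
  · rw [toZ_apply]
    exact Int.natCast_nonneg _
  · rw [hz E.1 E.2.1]
    exact E.2.2
  · apply Subtype.ext
    ext w
    rw [Finsupp.mapRange_apply, toZ_apply, Int.toNat_natCast]
  · apply Subtype.ext
    exact hz E.1 E.2.1

theorem normDiv {k K : Type} [Field k] [Field K] [Algebra k K] (G : Geo k K) [Finite k] {n : ℕ}
    (hn : 0 < n) (D : Place k K →₀ ℤ) (hD : degD D = 0) :
    ∃ (b : K) (B : Place k K →₀ ℤ), b ≠ 0 ∧ (∀ v, (n : ℤ) ∣ v.degree * B v) ∧
      ∀ v, D v = ord v b + B v := by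
  classical
  have hf := f_pos G
  obtain ⟨c, C, hcC⟩ := riemann_eq G
  have hne : Nonempty (Place k K) := exists_place_geo G
  have hq : 1 < Nat.card k := Finite.one_lt_card
  have hpos : 0 < Nat.card k ^ Module.finrank k (LL (0 : Place k K →₀ ℤ)) - 1 := by
    have h1 : 1 < Nat.card k ^ Module.finrank k (LL (0 : Place k K →₀ ℤ)) :=
      Nat.one_lt_pow hf.ne' hq
    omega
  obtain ⟨A, hA, B, hB, hAB⟩ := absN n hn (fun w : Place k K => w.degree)
    (fun w => G.degree_pos w) (fun m => finite_deg_le G m) (Prin k K)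
    (fun D hD => by rw [normDiv_dg]; exact degD_prin G hD) C.toNat (by
      intro D D' hDD' hN
      rw [normDiv_dg, normDiv_dg] at hDD'
      rw [normDiv_dg] at hN
      have h1 := (hcC D).2 ((Int.self_le_toNat C).trans hN)
      have h2 := (hcC D').2 ((Int.self_le_toNat C).trans (hDD' ▸ hN))
      have h3 : Module.finrank k (LL D) = Module.finrank k (LL D') := by
        have h4 : (Module.finrank k (LL D) : ℤ) = Module.finrank k (LL D') := by
          rw [h1, h2, hDD']
        exact_mod_cast h4
      rw [normDiv_card, normDiv_card]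
      have c1 := card_eff_class G D
      have c2 := card_eff_class G D'
      rw [← h3, ← c1] at c2
      exact (Nat.eq_of_mul_eq_mul_right hpos c2).symm) D (by rw [normDiv_dg]; exact hD)
  obtain ⟨b, hb, hAb⟩ := hA
  exact ⟨b, B, hb, hB, fun v => by rw [hAB, Finsupp.add_apply, hAb]⟩

end Pool.Agent.SmL.C
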