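import Pool.Agent.Lib.SmL.C.Def
import Pool.Agent.Lib.GBU.GeoC
import Pool.Agent.Lib.GBU.Plc

/-!
# SMITH-L, block C: the setting of reciprocity and the Hasse principle

`FamL k l NN`: `NN` = a family of open normal subgroups of `Gal(Ω / K)` closed under intersections and
under extensions by `l`-groups, containing the groups of the constant extensions of degree `l ^ r`.

`LocL l ζ NN w sg ph`: `w v` = a place of `Ω` above `v`; `sg v` in its inertia group, normalised by the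
root of unity `ζ` (the same for all `v`); `ph v` acts on the constants as the Frobenius of the residue
field of `v`; the relation `ph sg ph⁻¹ = sg ^ q` modulo the groups of `NN`.

For an `NN`-finite 2-cocycle `z` with values in `ZMod l` (`Coc2N`):
* `recF` (file `RecF`): almost all invariants `linv (sg v) (ph v) (q ^ deg v) z` are `0`, their sum is `0`;
* `hasseF` (file `HasseF`): if all of them are `0` then `z` is the coboundary of an `NN`-finite function.
-/

set_option autoImplicit false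

namespace Pool.Agent.SmL.C

open Pool.Agent.BSDFF Pool.Agent.Lib.SmD Pool.Agent.GBU

variable {K Ω : Type} [Field K] [Field Ω] [Algebra K Ω]

/-- The family of open normal subgroups. -/
structure FamL (k : Type) [Field k] (l : ℕ) (NN : Set (Subgroup (Ω ≃ₐ[K] Ω))) : Prop where
  normal : ∀ N ∈ NN, N.Normal
  isOpen : ∀ N ∈ NN, IsOpen (N : Set (Ω ≃ₐ[K] Ω))
  inf_mem : ∀ N ∈ NN, ∀ N' ∈ NN, N ⊓ N' ∈ NN
  hc : ∀ r : ℕ, HcK k K Ω (l ^ r) ∈ NN
  ext : ∀ N ∈ NN, ∀ N' : Subgroup (Ω ≃ₐ[K] Ω), N'.Normal → IsOpen (N' : Set (Ω ≃ₐ[K] Ω)) →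
    N' ≤ N → (∀ s ∈ N, ∃ m : ℕ, s ^ (l ^ m) ∈ N') → N' ∈ NN

/-- The local data. -/
structure LocL {k : Type} [Field k] [Algebra k K] (l : ℕ) (ζ : Ω)
    (NN : Set (Subgroup (Ω ≃ₐ[K] Ω))) (w : Place k K → ValuationSubring Ω)
    (sg ph : Place k K → Ω ≃ₐ[K] Ω) : Prop where
  below : ∀ v, below K (w v) = v.ring
  iner : ∀ v, sg v ∈ iner K (w v)
  val : ∀ (v : Place k K) (π : v.ring), Irreducible π → ∀ r : Ω,
    r ^ l = algebraMap K Ω (π : K) → sg v r = ζ * r
  cst : ∀ (v : Place k K) (x : Ω), IsC k x → ph v x = x ^ (Nat.card k ^ v.degree)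
  rel : ∀ v, ∀ N ∈ NN, (sg v ^ (Nat.card k ^ v.degree))⁻¹ * (ph v * sg v * (ph v)⁻¹) ∈ N

/-- `NN`-finite 2-cocycles with values in `ZMod l`, trivial action. -/
structure Coc2N (l : ℕ) (NN : Set (Subgroup (Ω ≃ₐ[K] Ω)))
    (z : (Ω ≃ₐ[K] Ω) → (Ω ≃ₐ[K] Ω) → ZMod l) : Prop where
  tf : ∃ N ∈ NN, ∀ s t, ∀ n ∈ N, ∀ m ∈ N, z (s * n) (t * m) = z s t
  coc : ∀ s t w, z s t + z (s * t) w = z t w + z s (t * w)

end Pool.Agent.SmL.C
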