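import Pool.Agent.Lib.SmL.C.Sym
import Pool.Agent.Lib.GBC.E.Main
import Pool.Agent.Lib.GBU.Div

/-!
# SMITH-L, block C: reciprocity for `H^2(K, Z / l)`, `K` a global function field containing the `l`-th
roots of unity
-/

set_option autoImplicit false

namespace Pool.Agent.SmL.C

open Pool.Agent.BSDFF Pool.Agent.Lib.SmD Pool.Agent.GBU Pool.Agent.GBC

variable {k K Ω : Type} [Field k] [Finite k] [Field K] [Algebra k K] [Algebra (RatFunc k) K]
  [IsScalarTower k (RatFunc k) K] [FiniteDimensional (RatFunc k) K]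
  [Algebra.IsSeparable (RatFunc k) K] [Field Ω] [Algebra K Ω] [IsSepClosure K Ω]

/-- **Reciprocity.** -/
theorem recF (h2 : (2 : k) ≠ 0) {l : ℕ} (hl : l.Prime) {ζ : Ω} (hζ : IsPrimitiveRoot ζ l)
    (hζK : ∃ z : K, algebraMap K Ω z = ζ) {fr : Ω ≃ₐ[K] Ω} (hfr : IsFrC k fr)
    {NN : Set (Subgroup (Ω ≃ₐ[K] Ω))} (hN : FamL k l NN) {w : Place k K → ValuationSubring Ω}
    {sg ph : Place k K → Ω ≃ₐ[K] Ω} (hL : LocL l ζ NN w sg ph)
    {z : (Ω ≃ₐ[K] Ω) → (Ω ≃ₐ[K] Ω) → ZMod l} (hz : Coc2N l NN z) :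
    {v : Place k K | linv (sg v) (ph v) (Nat.card k ^ v.degree) z ≠ 0}.Finite ∧
      ∑ᶠ v : Place k K, linv (sg v) (ph v) (Nat.card k ^ v.degree) z = 0 := by
  classical
  obtain ⟨ζu, rfl⟩ : ∃ ζu : Ωˣ, (ζu : Ω) = ζ := ⟨(hζ.isUnit hl.ne_zero).unit, rfl⟩
  have hζl : ζu ^ l = 1 := by
    apply Units.ext
    rw [Units.val_pow_eq_pow_val, hζ.pow_eq_one, Units.val_one]
  obtain ⟨r, a, y, d, c, β, D, ha0, -, -, -, -, -, -, hD⟩ :=
    symF h2 hl hζ hζK hfr hN hL hz hζl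
  obtain ⟨G, -⟩ := exists_geo k K
  obtain ⟨P, hP⟩ := exists_pdiv G ha0
  have hlr : ((l : ℤ) ^ r) ≠ 0 := pow_ne_zero _ (by exact_mod_cast hl.ne_zero)
  have hsup : ∀ v, linv (sg v) (ph v) (Nat.card k ^ v.degree) z ≠ 0 → v ∈ P.support := by
    intro v hv
    rw [Finsupp.mem_support_iff, hP]
    intro h0
    apply hv
    have h1 := (hD v).1
    rw [h0, mul_zero] at h1
    rw [(hD v).2, (mul_eq_zero.1 h1.symm).resolve_left hlr, Int.cast_zero]
  have hfin : {v : Place k K | linv (sg v) (ph v) (Nat.card k ^ v.degree) z ≠ 0}.Finite :=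
    P.support.finite_toSet.subset fun v hv => hsup v hv
  refine ⟨hfin, ?_⟩
  rw [finsum_eq_sum_of_support_subset (s := P.support) _ (fun v hv => hsup v hv)]
  rw [Finset.sum_congr rfl fun v _ => (hD v).2, ← Int.cast_sum]
  have h3 : (l : ℤ) ^ r * ∑ v ∈ P.support, D v = degD P := by
    rw [Finset.mul_sum, Finset.sum_congr rfl fun v _ => (hD v).1.symm, degD, Finsupp.sum]
    exact Finset.sum_congr rfl fun v _ => by rw [hP, mul_comm]
  rw [degD_prin G ⟨a, ha0, hP⟩] at h3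
  rw [(mul_eq_zero.1 h3).resolve_left hlr, Int.cast_zero]

end Pool.Agent.SmL.C
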