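import Pool.Agent.Lib.SmL.C.Def

/-!
# SMITH-L, block C, module SgN: existence of the normalised tame generators

PROOF (compare `exists_isTG` in `GBU/TG.lean`). `w = abK Ω v`, `π` a uniformizer of `v`, `r ^ l = π`
(`l` is invertible: `ζ` is a primitive `l`-th root of unity of `Ω`), `τ₀` with `IsTG K w τ₀`
(`exists_isTG_of_below`). `N_r = {g | g r = r}` is an open normal subgroup of index dividing `l`
(`g r / r` is an `l`-th root of unity, so in `K`; `g ↦ g r / r` is a homomorphism), so `N_r ∈ NP K Ω`.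
`τ₀ r ≠ r`: otherwise inertia is contained in `N_r` (`IsTG.iner_le`), so `w(r) = w(π) ^ m` by
`value_iner` (`locHyp_of_below`), `w(π) = w(π) ^ (m l)`, impossible for `l ≥ 2`. So `τ₀ r = ζ ^ j r` with
`j` prime to `l`. For `N ∈ NP K Ω` take `u` with `u j = 1` modulo `l` and `u` prime to `N.index`
(Chinese remainder theorem: `N.index = l ^ a * m'`, `u ≡ j⁻¹` mod `l`, `u ≡ 1` mod `m'`): `τ₀ ^ u`
generates inertia modulo `N` and `τ₀ ^ u r = ζ r`. Compactness as in `exists_isTG` for the closed sets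
`C N ∩ {τ | τ r = ζ * r}`. Other uniformizers `π'` and other roots `r'` of them: `π' = π x`, `x` a unit of
`v.ring`, `r' = r y`, `y ^ l = x`, `w(y) = 1`, and inertia fixes `y` (`y' := τ y / y` is an `l`-th root of
unity with `w(y' - 1) < 1`, and `1 - ζ ^ i` is a unit at `w` for `0 < i < l`: it divides `l`).
-/

set_option autoImplicit false

namespace Pool.Agent.SmL.C

open Pool.Agent.BSDFF Pool.Agent.Lib.SmD Pool.Agent.GBU

variable {k K Ω : Type} [Field k] [Finite k] [Field K] [Algebra k K] [Algebra (RatFunc k) K]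
  [IsScalarTower k (RatFunc k) K] [FiniteDimensional (RatFunc k) K]
  [Field Ω] [Algebra K Ω] [IsSepClosure K Ω]

private theorem SgN_coprime {l j m : ℕ} (hl : l.Prime) (hj : ¬ l ∣ j) (hm : m ≠ 0) :
    ∃ u : ℕ, u * j ≡ 1 [MOD l] ∧ Nat.Coprime u m := by
  obtain ⟨e, m', hm', rfl⟩ := Nat.exists_eq_pow_mul_and_not_dvd hm l hl.ne_one
  have hc : Nat.Coprime l m' := (Nat.Prime.coprime_iff_not_dvd hl).2 hm'
  have hcj : Nat.Coprime j l := ((Nat.Prime.coprime_iff_not_dvd hl).2 hj).symm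
  obtain ⟨i, -, hi⟩ := Nat.exists_mul_mod_eq_one_of_coprime hcj hl.one_lt
  obtain ⟨u, hu1, hu2⟩ := Nat.chineseRemainder hc i 1
  refine ⟨u, ?_, ?_⟩
  · have h1 : u * j ≡ i * j [MOD l] := hu1.mul_right j
    refine h1.trans ?_
    rw [mul_comm, Nat.ModEq, hi, Nat.mod_eq_of_lt hl.one_lt]
  · have h1 : Nat.Coprime u m' := by
      have := hu2.gcd_eq
      rw [Nat.gcd_one_left] at this
      exact this
    have h2 : Nat.Coprime u l := by
      rw [Nat.coprime_comm, Nat.Prime.coprime_iff_not_dvd hl]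
      intro h3
      have h4 : u * j ≡ 1 [MOD l] := by
        refine (hu1.mul_right j).trans ?_
        rw [mul_comm, Nat.ModEq, hi, Nat.mod_eq_of_lt hl.one_lt]
      have h5 : l ∣ u * j := h3.mul_right j
      have h6 : l ∣ 1 := (h4.dvd_iff dvd_rfl).1 h5
      exact hl.one_lt.ne' (Nat.dvd_one.1 h6)
    exact Nat.Coprime.mul_right (h2.pow_right e) h1

/-- a root of unity of order `l` which is `1` in the residue field is `1` -/
private theorem SgN_one {F : Type*} [Field F] (w : ValuationSubring F) {l : ℕ}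
    (hwl : w.valuation (l : F) = 1) {z : F} (hz : z ^ l = 1) (h : w.valuation (z - 1) < 1) :
    z = 1 := by
  by_contra hne
  have hl0 : l ≠ 0 := by
    rintro rfl
    rw [Nat.cast_zero, map_zero] at hwl
    exact zero_ne_one hwl
  have hzw : w.valuation z = 1 := by
    have h1 : w.valuation z ^ l = 1 := by rw [← map_pow, hz, map_one]
    exact (pow_eq_one_iff.1 h1).resolve_right hl0
  have h1 : ∑ i ∈ Finset.range l, z ^ i = 0 := by
    have h2 := geom_sum_mul z l
    rw [hz, sub_self] at h2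
    exact (mul_eq_zero.1 h2).resolve_right (sub_ne_zero.2 hne)
  have h3 : (l : F) = -∑ i ∈ Finset.range l, (z ^ i - 1) := by
    rw [Finset.sum_sub_distrib, h1]
    simp
  have h4 : w.valuation (∑ i ∈ Finset.range l, (z ^ i - 1)) < 1 := by
    refine w.valuation.map_sum_lt one_ne_zero fun i _ => ?_
    rw [← geom_sum_mul z i, map_mul]
    refine lt_of_le_of_lt (mul_le_of_le_one_left' ?_) h
    refine w.valuation.map_sum_le fun j _ => ?_
    rw [map_pow, hzw, one_pow]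
  rw [h3, Valuation.map_neg] at hwl
  exact absurd hwl h4.ne

theorem exists_isTGN (h2 : (2 : k) ≠ 0) {l : ℕ} (hl : l.Prime) {ζ : Ω} (hζ : IsPrimitiveRoot ζ l)
    (hζK : ∃ z : K, algebraMap K Ω z = ζ) (v : Place k K) : ∃ τ, IsTGN l ζ v τ := by
  classical
  have hsc : IsSepClosed Ω := IsSepClosure.sep_closed K
  have hgal : IsGalois K Ω := inferInstance
  have hl0 : NeZero l := ⟨hl.ne_zero⟩
  have hlΩ : NeZero ((l : ℕ) : Ω) := hζ.neZero'
  have hlK : (l : K) ≠ 0 := by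
    intro h
    apply hlΩ.out
    rw [← map_natCast (algebraMap K Ω), h, map_zero]
  obtain ⟨z₀, hz₀⟩ := hζK
  have hfix : ∀ (σ : Ω ≃ₐ[K] Ω) (x : Ω), x ^ l = 1 → σ x = x := by
    intro σ x hx
    obtain ⟨i, -, rfl⟩ := hζ.eq_pow_of_pow_eq_one hx
    rw [map_pow, ← hz₀, AlgEquiv.commutes]
  set w := abK Ω v with hw
  have hbel : below K w = v.ring := below_abK Ω v
  have hchar : CharOk w := charOk_of_finite k K w
  have hwl : w.valuation (l : Ω) = 1 := hchar l hlΩ.out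
  obtain ⟨π, hπ⟩ := IsDiscreteValuationRing.exists_irreducible v.ring
  have hL : LocHyp K w (π : K) := locHyp_of_below h2 v w hbel hπ
  obtain ⟨r, hr⟩ := IsSepClosed.exists_pow_nat_eq (algebraMap K Ω (π : K)) l
  have hπ0 : algebraMap K Ω (π : K) ≠ 0 := (map_ne_zero_iff _ (algebraMap K Ω).injective).2 hL.pi_ne
  have hr0 : r ≠ 0 := by
    rintro rfl
    rw [zero_pow hl.ne_zero] at hr
    exact hπ0 hr.symm
  have hroot : ∀ σ : Ω ≃ₐ[K] Ω, (σ r / r) ^ l = 1 := by
    intro σ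
    rw [div_pow, ← map_pow, hr, AlgEquiv.commutes, div_self hπ0]
  -- the homomorphism `g ↦ g r / r`
  let f : (Ω ≃ₐ[K] Ω) →* Ωˣ :=
    { toFun := fun σ => Units.mk0 (σ r / r) (div_ne_zero ((map_ne_zero_iff _ σ.injective).2 hr0) hr0)
      map_one' := by
        apply Units.ext
        rw [Units.val_mk0, AlgEquiv.one_apply, div_self hr0, Units.val_one]
      map_mul' := by
        intro σ τ
        apply Units.ext
        rw [Units.val_mul, Units.val_mk0, Units.val_mk0, Units.val_mk0, AlgEquiv.mul_apply]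
        have h1 : σ (τ r / r) = τ r / r := hfix σ _ (hroot τ)
        rw [map_div₀] at h1
        have hσr : σ r ≠ 0 := (map_ne_zero_iff _ σ.injective).2 hr0
        field_simp at h1 ⊢
        linear_combination h1 }
  have hfker : ∀ σ, σ ∈ f.ker ↔ σ r = r := by
    intro σ
    rw [MonoidHom.mem_ker, Units.ext_iff]
    change σ r / r = 1 ↔ _
    rw [div_eq_one_iff_eq hr0]
  have hNr : f.ker ∈ NP K Ω := by
    refine ⟨inferInstance, ?_, ?_⟩
    · have h1 : (f.ker : Set (Ω ≃ₐ[K] Ω)) = (MulAction.stabilizer (Ω ≃ₐ[K] Ω) r :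
          Set (Ω ≃ₐ[K] Ω)) := by
        ext σ
        rw [SetLike.mem_coe, hfker, SetLike.mem_coe, MulAction.mem_stabilizer_iff]
        exact Iff.rfl
      rw [h1]
      exact stabilizer_isOpen_of_isIntegral (K := K) r
    · have h1 : f.range ≤ rootsOfUnity l Ω := by
        rintro _ ⟨σ, rfl⟩
        rw [mem_rootsOfUnity]
        apply Units.ext
        rw [Units.val_pow_eq_pow_val, Units.val_one]
        exact hroot σ
      have h3 : Nat.card f.range ∣ l := by
        have h4 := Subgroup.card_dvd_of_le h1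
        rwa [hζ.card_rootsOfUnity] at h4
      rw [Subgroup.index_ker]
      rcases (Nat.dvd_prime hl).1 h3 with h | h
      · rw [h, Nat.cast_one]
        exact one_ne_zero
      · rw [h]
        exact hlK
  obtain ⟨τ₀, hτ₀⟩ : ∃ τ, IsTG K w τ := exists_isTG_of_below h2 hbel
  -- `τ₀` moves `r`
  have hτr : τ₀ r ≠ r := by
    intro h
    have h1 : iner K w ≤ f.ker := hτ₀.iner_le hNr ((hfker τ₀).2 h)
    obtain ⟨n, hn⟩ := value_iner hL hr0 fun σ hσ => (hfker σ).1 (h1 hσ)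
    set g := w.valuation (algebraMap K Ω (π : K)) with hg
    have h3 : g ^ (1 : ℤ) = g ^ (n * l) := by
      rw [zpow_one, zpow_mul, ← hn, zpow_natCast, ← map_pow, hr]
    have h4 : g ≠ 0 := (Valuation.ne_zero_iff _).2 hπ0
    have h5 : (1 : ℤ) = n * l :=
      (zpow_right_injective₀ (zero_lt_iff.2 h4) hL.pi_lt.ne) h3
    have h6 : (l : ℤ) ∣ 1 := ⟨n, by rw [h5]; ring⟩
    have h7 : l ∣ 1 := by exact_mod_cast h6
    exact hl.one_lt.ne' (Nat.dvd_one.1 h7)
  obtain ⟨j, hjl, hj⟩ := hζ.eq_pow_of_pow_eq_one (hroot τ₀)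
  have hjr : τ₀ r = ζ ^ j * r := by
    rw [hj, div_mul_cancel₀ _ hr0]
  have hjd : ¬ l ∣ j := by
    rintro ⟨i, rfl⟩
    apply hτr
    rw [hjr, pow_mul, hζ.pow_eq_one, one_pow, one_mul]
  have hpow : ∀ n : ℕ, (τ₀ ^ n) r = ζ ^ (n * j) * r := by
    intro n
    induction n with
    | zero => simp
    | succ n ih =>
      rw [pow_succ', AlgEquiv.mul_apply, ih, map_mul, hjr, hfix τ₀ (ζ ^ (n * j)) (by
        rw [← pow_mul, mul_comm, pow_mul, hζ.pow_eq_one, one_pow])]
      ring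
  -- compactness
  let C : NP K Ω → Set (Ω ≃ₐ[K] Ω) := fun N =>
    ((iner K w : Set (Ω ≃ₐ[K] Ω)) ∩ {τ | ∀ σ ∈ iner K w, ∃ n : ℕ, (τ ^ n)⁻¹ * σ ∈ N.1}) ∩
      {τ | τ r = ζ * r}
  have hne : ∀ N, (C N).Nonempty := by
    intro N
    have hNn := NP.normal N.2
    have hN0 : N.1.index ≠ 0 := fun h => NP.index_ne N.2 (by rw [h, Nat.cast_zero])
    obtain ⟨u, hu1, hu2⟩ := SgN_coprime hl hjd hN0
    refine ⟨τ₀ ^ u, ⟨(iner K w).pow_mem hτ₀.mem u, fun σ hσ => ?_⟩, ?_⟩
    · obtain ⟨n, hn⟩ := hτ₀.gen N.1 N.2 σ hσ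
      obtain ⟨n', hn'⟩ : ∃ n' : ℕ, n ≡ u * n' [MOD N.1.index] := by
        by_cases h1 : N.1.index = 1
        · exact ⟨0, by rw [h1]; exact Nat.modEq_one⟩
        · obtain ⟨i, -, hi⟩ := Nat.exists_mul_mod_eq_one_of_coprime hu2 (by omega)
          refine ⟨i * n, ?_⟩
          have h3 : u * i ≡ 1 [MOD N.1.index] := by
            rw [Nat.ModEq, hi, Nat.mod_eq_of_lt (by omega)]
          have h4 := (h3.mul_right n).symm
          rwa [one_mul, mul_assoc] at h4
      refine ⟨n', ?_⟩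
      have h5 : (QuotientGroup.mk ((τ₀ ^ u) ^ n') : (Ω ≃ₐ[K] Ω) ⧸ N.1) =
          QuotientGroup.mk (τ₀ ^ n) := by
        rw [← pow_mul, QuotientGroup.mk_pow, QuotientGroup.mk_pow, pow_eq_pow_iff_modEq]
        refine (hn'.symm).of_dvd ?_
        rw [Subgroup.index]
        exact orderOf_dvd_natCard _
      rw [← QuotientGroup.eq, h5, QuotientGroup.eq]
      exact hn
    · change (τ₀ ^ u) r = ζ * r
      rw [hpow, pow_eq_pow_mod (u * j) hζ.pow_eq_one, hu1, Nat.mod_eq_of_lt hl.one_lt, pow_one]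
  have hcl : ∀ N, IsClosed (C N) := by
    intro N
    refine ((isClosed_iner w).inter (isClosed_of_mul_mem (NP.isOpen N.2) ?_)).inter
      (isClosed_of_mul_mem (NP.isOpen hNr) ?_)
    · intro a ha n hn
      exact gen_mul (NP.normal N.2) hn ha
    · intro a ha n hn
      change (a * n) r = ζ * r
      rw [AlgEquiv.mul_apply, (hfker n).1 hn]
      exact ha
  have hdir : Directed (· ⊇ ·) C := by
    intro N N'
    refine ⟨⟨N.1 ⊓ N'.1, inf_mem_NP N.2 N'.2⟩, ?_, ?_⟩
    · rintro τ ⟨⟨hτ, h1⟩, h3⟩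
      refine ⟨⟨hτ, fun σ hσ => ?_⟩, h3⟩
      obtain ⟨n, hn⟩ := h1 σ hσ
      exact ⟨n, hn.1⟩
    · rintro τ ⟨⟨hτ, h1⟩, h3⟩
      refine ⟨⟨hτ, fun σ hσ => ?_⟩, h3⟩
      obtain ⟨n, hn⟩ := h1 σ hσ
      exact ⟨n, hn.2⟩
  have hNE : Nonempty (NP K Ω) := ⟨⟨⊤, top_mem_NP⟩⟩
  obtain ⟨τ, hτ⟩ := IsCompact.nonempty_iInter_of_directed_nonempty_isCompact_isClosed C hdir hne
    (fun N => (hcl N).isCompact) hcl
  rw [Set.mem_iInter] at hτ
  have hτi : τ ∈ iner K w := (hτ ⟨⊤, top_mem_NP⟩).1.1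
  have hτr' : τ r = ζ * r := (hτ ⟨⊤, top_mem_NP⟩).2
  refine ⟨τ, ⟨hτi, fun N hN => (hτ ⟨N, hN⟩).1.2⟩, fun π' hπ' r' hr' => ?_⟩
  -- other uniformizers
  obtain ⟨u, hu⟩ := IsDiscreteValuationRing.associated_of_irreducible _ hπ hπ'
  have h3 : (π' : K) = (π : K) * ((u : v.ring) : K) := by
    rw [← hu]
    rfl
  have hu0 : ((u : v.ring) : K) ≠ 0 := coe_unit_ne v u
  have hwu : w.valuation (algebraMap K Ω ((u : v.ring) : K)) = 1 := by
    refine val_unit_below ?_ ?_ hu0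
    · rw [hbel]
      exact (u : v.ring).2
    · rw [hbel]
      exact coe_unit_inv_mem v u
  set y : Ω := r' / r with hy
  have hyr : r' = y * r := by rw [hy, div_mul_cancel₀ _ hr0]
  have hyl : y ^ l = algebraMap K Ω ((u : v.ring) : K) := by
    rw [hy, div_pow, hr', hr, h3, map_mul, mul_div_cancel_left₀ _ hπ0]
  have hwy : w.valuation y = 1 := by
    have h4 : w.valuation y ^ l = 1 := by rw [← map_pow, hyl, hwu]
    exact (pow_eq_one_iff.1 h4).resolve_right hl.ne_zero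
  have hy0 : y ≠ 0 := (Valuation.ne_zero_iff w.valuation).1 (by rw [hwy]; exact one_ne_zero)
  have hyw : y ∈ w := (w.valuation_le_one_iff y).1 hwy.le
  have h5 : (τ y / y) ^ l = 1 := by
    rw [div_pow, ← map_pow, hyl, AlgEquiv.commutes, div_self]
    exact (map_ne_zero_iff _ (algebraMap K Ω).injective).2 hu0
  have h6 : w.valuation (τ y / y - 1) < 1 := by
    have h7 : τ y / y - 1 = (τ y - y) / y := by
      rw [sub_div, div_self hy0]
    rw [h7, map_div₀, hwy, div_one]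
    exact hτi.2 y hyw
  have h8 : τ y = y := by
    have h9 := SgN_one w hwl h5 h6
    rwa [div_eq_one_iff_eq hy0] at h9
  rw [hyr, map_mul, h8, hτr']
  ring

theorem sgN_spec (h2 : (2 : k) ≠ 0) {l : ℕ} (hl : l.Prime) {ζ : Ω} (hζ : IsPrimitiveRoot ζ l)
    (hζK : ∃ z : K, algebraMap K Ω z = ζ) (v : Place k K) : IsTGN l ζ v (sgN l ζ v) := by
  have h := exists_isTGN h2 hl hζ hζK v
  rw [sgN, dif_pos h]
  exact h.choose_spec

end Pool.Agent.SmL.C
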