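import Pool.Agent.Lib.SmL.C.GlobN
import Pool.Agent.Lib.SmL.C.FinN
import Pool.Agent.Lib.SmL.C.Mul

/-!
# SMITH-L, block C: the local invariants of the cup product of the degree and a Kummer character

`symF`: the cocycle `z` is the cyclic cocycle `a ^ carry` up to a coboundary, and
`deg v * ord v a = l ^ (r - 1) * D v`, the local invariant of `z` at `v` is `D v`.
-/

set_option autoImplicit false

namespace Pool.Agent.SmL.C

open Pool.Agent.BSDFF Pool.Agent.Lib.SmD Pool.Agent.GBU Pool.Agent.SmD Pool.Agent.GBC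
open Pool.Agent.Ht.RK (LC Spl cob_coc)

section card

variable {k K Ω : Type} [Field k] [Finite k] [Field K] [Algebra k K] [Field Ω] [Algebra K Ω]

/-- `#k ≡ 1` modulo `l` if `K` contains the `l`-th roots of unity and has the field of constants `k` -/
theorem card_modEq {l : ℕ} (hl : l.Prime) {ζ : Ω} (hζ : IsPrimitiveRoot ζ l)
    (hζK : ∃ z : K, algebraMap K Ω z = ζ) {fr : Ω ≃ₐ[K] Ω} (hfr : IsFrC k fr) :
    Nat.card k ≡ 1 [MOD l] := by
  obtain ⟨p, f, hp, hf, hq, hOm⟩ := card_eq_pow_C k K Ω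
  have hlne : NeZero l := ⟨hl.ne_zero⟩
  have hlΩ : NeZero ((l : ℕ) : Ω) := hζ.neZero'
  have hcop : Nat.Coprime (Nat.card k) l := by
    rw [Nat.coprime_comm, Nat.Prime.coprime_iff_not_dvd hl, hq]
    intro h
    have h1 := (Nat.prime_dvd_prime_iff_eq hl hp).1 (hl.dvd_of_dvd_pow h)
    apply hlΩ.out
    rw [h1]
    exact CharP.cast_eq_zero Ω p
  have h1 := Nat.ModEq.pow_totient hcop
  have hζl := hζ.pow_eq_one
  have hC : IsC k ζ := by
    refine ⟨Nat.totient l, Nat.totient_pos.2 hl.pos, ?_⟩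
    rw [pow_eq_pow_mod _ hζl, h1, ← pow_eq_pow_mod _ hζl, pow_one]
  obtain ⟨z, hz⟩ := hζK
  have h3 : ζ = ζ ^ Nat.card k := by
    rw [← hfr ζ hC, ← hz, AlgEquiv.commutes]
  have hpos : 1 ≤ Nat.card k := Nat.one_le_iff_ne_zero.2 Nat.card_pos.ne'
  have h4 : ζ ^ (Nat.card k - 1) = 1 := by
    have hζ0 : ζ ≠ 0 := hζ.ne_zero hl.ne_zero
    apply mul_left_cancel₀ hζ0
    rw [mul_one, ← pow_succ', Nat.sub_add_cancel hpos]
    exact h3.symm
  have h5 := hζ.dvd_of_pow_eq_one _ h4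
  exact ((Nat.modEq_iff_dvd' hpos).2 h5).symm

end card

variable {k K Ω : Type} [Field k] [Finite k] [Field K] [Algebra k K] [Algebra (RatFunc k) K]
  [IsScalarTower k (RatFunc k) K] [FiniteDimensional (RatFunc k) K]
  [Algebra.IsSeparable (RatFunc k) K] [Field Ω] [Algebra K Ω] [IsSepClosure K Ω]

theorem symF (h2 : (2 : k) ≠ 0) {l : ℕ} (hl : l.Prime) {ζ : Ωˣ} (hζ : IsPrimitiveRoot (ζ : Ω) l)
    (hζK : ∃ z : K, algebraMap K Ω z = ζ) {fr : Ω ≃ₐ[K] Ω} (hfr : IsFrC k fr)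
    {NN : Set (Subgroup (Ω ≃ₐ[K] Ω))} (hN : FamL k l NN) {w : Place k K → ValuationSubring Ω}
    {sg ph : Place k K → Ω ≃ₐ[K] Ω} (hL : LocL l (ζ : Ω) NN w sg ph)
    {z : (Ω ≃ₐ[K] Ω) → (Ω ≃ₐ[K] Ω) → ZMod l} (hz : Coc2N l NN z) (hζl : ζ ^ l = 1) :
    ∃ (r : ℕ) (a : K) (y : Ωˣ) (d : (Ω ≃ₐ[K] Ω) → ℕ) (c : (Ω ≃ₐ[K] Ω) → (Ω ≃ₐ[K] Ω) → ℕ)
      (β : (Ω ≃ₐ[K] Ω) → Ωˣ) (D : Place k K → ℤ), a ≠ 0 ∧
      algebraMap K Ω a = ((y ^ (l ^ (r + 1)) : Ωˣ) : Ω) ∧
      IsDegN k (l ^ (r + 1)) d ∧ (∀ s, d s < l ^ (r + 1)) ∧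
      (∀ g h, d g + d h = d (g * h) + l ^ (r + 1) * c g h) ∧ LC ⊤ β ∧
      (∀ s t, (zt hζl (z s t)).toMul =
        (y ^ (l ^ (r + 1))) ^ c s t * (β s * s • β t * (β (s * t))⁻¹)) ∧
      ∀ v : Place k K, (v.degree : ℤ) * ord v a = (l : ℤ) ^ r * D v ∧
        linv (sg v) (ph v) (Nat.card k ^ v.degree) z = (D v : ZMod l) := by
  classical
  have hsc : IsSepClosed Ω := IsSepClosure.sep_closed K
  have hgal : IsGalois K Ω := IsSepClosure.isGalois
  have hlq : Nat.card k ≡ 1 [MOD l] := card_modEq hl hζ hζK hfr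
  have hlne : NeZero l := ⟨hl.ne_zero⟩
  have hlΩ : (l : Ω) ≠ 0 := hζ.neZero'.out
  have hlk : (l : k) ≠ 0 := by
    intro h
    apply hlΩ
    rw [← map_natCast ((algebraMap K Ω).comp (algebraMap k K)), h, map_zero]
  have hord : orderOf ζ = l := by
    rw [← orderOf_units]
    exact hζ.eq_orderOf.symm
  have hζfix : ∀ (s : Ω ≃ₐ[K] Ω) (a : ZMod l), s • (zt hζl a).toMul = (zt hζl a).toMul := by
    intro s a
    obtain ⟨n, rfl⟩ := ZMod.intCast_surjective a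
    rw [zt_int]
    have h1 : s • ζ = ζ := by
      obtain ⟨x, hx⟩ := hζK
      apply Units.ext
      change s (ζ : Ω) = ζ
      rw [← hx, AlgEquiv.commutes]
    have h3 : s • (ζ ^ n) = (s • ζ) ^ n := map_zpow (MulDistribMulAction.toMonoidHom Ωˣ s) ζ n
    rw [h3, h1]
  obtain ⟨NF, hNF, hzN⟩ := hz.tf
  obtain ⟨r', y, d, c, β, hr1, hy, hd, hlt, hc, hβ, hF⟩ := glob_splitN (k := k) h2 hl hlk hfr 1 1
    (fun s t => (zt hζl (z s t)).toMul) (fun s t => by rw [pow_one]; exact zt_pow hζl _)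
    ⟨NF, hN.isOpen _ hNF, fun s t n hn m hm => by
      change (zt hζl (z (s * n) (t * m))).toMul = _
      rw [hzN s t n hn m hm]⟩
    (fun s t u => by
      change (zt hζl (z s t)).toMul * (zt hζl (z (s * t) u)).toMul =
        s • (zt hζl (z t u)).toMul * (zt hζl (z s (t * u))).toMul
      rw [hζfix, ← toMul_add, ← toMul_add, ← map_add, ← map_add, hz.coc])
  obtain ⟨r, rfl⟩ : ∃ r, r' = r + 1 := ⟨r' - 1, by omega⟩
  have hnpos : 0 < l ^ (r + 1) := pow_pos hl.pos _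
  have hn0 : l ^ (r + 1) ≠ 0 := hnpos.ne'
  have hHcN := hN.hc (r + 1)
  have hdH : ∀ g, ∀ h ∈ HcK k K Ω (l ^ (r + 1)), d (g * h) = d g := fun g h hh =>
    hd.hc_right h2 hnpos hlt g hh
  have hdl : LC ⊤ d := ⟨HcK k K Ω (l ^ (r + 1)), hN.normal _ hHcN, hN.isOpen _ hHcN,
    fun s _ n hn _ => hdH s n hn⟩
  obtain ⟨B, hBM, hBl, hB⟩ := cupN (K := K) (r := r + 1) hlΩ (e := 1) (by omega)
    (fun s t => (zt hζl (z s t)).toMul) (fun s t => by rw [pow_one]; exact zt_pow hζl _)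
    hy hdl hc hβ hF
  have hκ : ∀ g : Ω ≃ₐ[K] Ω, (g • y * y⁻¹) ^ (l ^ (r + 1)) = 1 := fun g => by
    rw [mul_pow, inv_pow, ← smul_pow', hy, mul_inv_cancel]
  -- finiteness of `B`
  obtain ⟨Ny, hNy, hNyH, hNyf⟩ := exists_kumN hlq hN (r + 1) hy
  obtain ⟨NB, hNB, hBN⟩ := tf_cobN hlq hN hBM hBl
    (C := fun s t => (zt hζl (z s t)).toMul * ((s • (t • y * y⁻¹)) ^ d s)⁻¹)
    ⟨NF ⊓ Ny, hN.inf_mem _ hNF _ hNy, fun s t n hn m hm => by
      change (zt hζl (z (s * n) (t * m))).toMul *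
        (((s * n) • ((t * m) • y * y⁻¹)) ^ d (s * n))⁻¹ = _
      rw [hzN s t n hn.1 m hm.1, mul_smul t m, hNyf m hm.2, mul_smul s n,
        hc_muN hlq (hNyH hn.2) (hκ t), hdH s n (hNyH hn.2)]⟩
    (fun s t => by
      change (zt hζl (z s t)).toMul * ((s • (t • y * y⁻¹)) ^ d s)⁻¹ = _
      rw [hB s t, mul_comm, inv_mul_cancel_left])
  -- the element `a`
  obtain ⟨a, ha⟩ : ∃ a : K, algebraMap K Ω a = ((y ^ (l ^ (r + 1)) : Ωˣ) : Ω) := by
    have h1 : ((y ^ (l ^ (r + 1)) : Ωˣ) : Ω) ∈ (⊥ : IntermediateField K Ω) := by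
      rw [InfiniteGalois.mem_bot_iff_fixed]
      intro g
      exact congrArg (fun u : Ωˣ => (u : Ω)) (hy g)
    rwa [IntermediateField.mem_bot] at h1
  have ha0 : a ≠ 0 := by
    rintro rfl
    rw [map_zero] at ha
    exact (y ^ (l ^ (r + 1))).ne_zero ha.symm
  have hya : (y : Ω) ^ (l ^ (r + 1)) = algebraMap K Ω a := by
    rw [ha, Units.val_pow_eq_pow_val]
  -- the local computation
  have key : ∀ v : Place k K, ∃ D : ℤ, (v.degree : ℤ) * ord v a = (l : ℤ) ^ r * D ∧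
      linv (sg v) (ph v) (Nat.card k ^ v.degree) z = (D : ZMod l) := by
    intro v
    set q : ℕ := Nat.card k ^ v.degree with hq
    have hq1 : 1 ≤ q := Nat.one_le_pow _ _ Nat.card_pos
    have hql : q ≡ 1 [MOD l] := by
      have := hlq.pow v.degree
      rwa [one_pow] at this
    have hsgI := hL.iner v
    have hM : (w v).valuation ((l ^ (r + 1) : ℕ) : Ω) = 1 := by
      apply charOk_of_finite k K (w v)
      rw [Nat.cast_pow]
      exact pow_ne_zero _ hlΩ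
    have hsgmu : ∀ u : Ωˣ, u ^ (l ^ (r + 1)) = 1 → sg v • u = u := fun u hu =>
      mu_fix_inerM hM hsgI hu
    have hphmu : ∀ u : Ωˣ, u ^ (l ^ (r + 1)) = 1 → ph v • u = u ^ q := by
      intro u hu
      apply Units.ext
      change ph v (u : Ω) = _
      rw [hL.cst v _ (isC_muN hl.pos hlq hu), Units.val_pow_eq_pow_val]
    have hsgd : ∀ i : ℕ, d (sg v ^ i) = 0 := by
      intro i
      have h1 := hd.geo h2 hnpos (iner_le_GeoK (k := k) (w v) ((iner K (w v)).pow_mem hsgI i))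
      unfold Nat.ModEq at h1
      rwa [Nat.mod_eq_of_lt (hlt _), Nat.zero_mod] at h1
    have hrel : B (sg v ^ q * ph v) = B (ph v * sg v) := by
      have h1 := hL.rel v NB hNB
      have h3 : (sg v ^ q * ph v)⁻¹ * (ph v * sg v) ∈ NB := by
        have h4 := (hN.normal _ hNB).conj_mem _ h1 (ph v)⁻¹
        rw [inv_inv] at h4
        have h5 : (sg v ^ q * ph v)⁻¹ * (ph v * sg v) = (ph v)⁻¹ * ((sg v ^ q)⁻¹ *
            (ph v * sg v * (ph v)⁻¹)) * ph v := by group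
        rw [h5]
        exact h4
      have h4 := hBN (sg v ^ q * ph v) _ h3
      rw [mul_inv_cancel_left] at h4
      exact h4.symm
    have hR : (zt hζl (linv (sg v) (ph v) q z)).toMul =
        (sg v • y * y⁻¹) ^ (q * d (ph v)) := by
      rw [← RM_zt hζl]
      have e1 : (fun s t => (zt hζl (z s t)).toMul) = fun s t =>
          (fun s t : Ω ≃ₐ[K] Ω => (s • (t • y * y⁻¹)) ^ d s) s t *
            (fun s t : Ω ≃ₐ[K] Ω => B s * s • B t * (B (s * t))⁻¹) s t := by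
        funext s t
        exact hB s t
      rw [e1, RM_mul, RM_cob hq1 hBM hsgmu hphmu hrel, mul_one,
        RM_cup (κ := fun t => t • y * y⁻¹) hκ hsgd hphmu]
    -- the Kummer character
    have := v.dvr
    obtain ⟨π, hπ⟩ := IsDiscreteValuationRing.exists_irreducible v.ring
    have hπ0 : algebraMap K Ω (π : K) ≠ 0 := by
      rw [Ne, map_eq_zero]
      exact ((irreducible_iff v π).1 hπ).1
    obtain ⟨ρ, hρ⟩ := exists_rootM (Ω := Ω) (M := l ^ (r + 1)) (by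
      rw [Nat.cast_pow]
      exact pow_ne_zero _ hlΩ) (Units.mk0 _ hπ0)
    have hρ' : (ρ : Ω) ^ (l ^ (r + 1)) = algebraMap K Ω (π : K) := by
      rw [← Units.val_pow_eq_pow_val, hρ, Units.val_mk0]
    have hkum := kum_ord (hL.below v) hM hn0 hsgI hπ hρ' ha0 hya
    set ω : Ωˣ := sg v • ρ * ρ⁻¹ with hω
    have hωn : ω ^ (l ^ (r + 1)) = 1 := by
      have h1 : sg v • (ρ ^ (l ^ (r + 1))) = ρ ^ (l ^ (r + 1)) := by
        apply Units.ext
        change sg v ((ρ ^ (l ^ (r + 1)) : Ωˣ) : Ω) = _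
        rw [Units.val_pow_eq_pow_val, hρ', AlgEquiv.commutes]
      rw [hω, mul_pow, inv_pow, ← smul_pow', h1, mul_inv_cancel]
    have hωζ : ω ^ (l ^ r) = ζ := by
      have h1 := hL.val v π hπ ((ρ : Ω) ^ (l ^ r)) (by rw [← pow_mul, ← pow_succ, hρ'])
      have h3 : sg v • (ρ ^ (l ^ r)) = ζ * ρ ^ (l ^ r) := by
        apply Units.ext
        change sg v ((ρ ^ (l ^ r) : Ωˣ) : Ω) = _
        rw [Units.val_mul, Units.val_pow_eq_pow_val, h1]
      rw [hω, mul_pow, inv_pow, ← smul_pow', h3, mul_inv_cancel_right]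
    have hωord : orderOf ω = l ^ (r + 1) := by
      have hlf : Fact l.Prime := ⟨hl⟩
      refine orderOf_eq_prime_pow ?_ hωn
      rw [hωζ]
      intro h
      rw [h, orderOf_one] at hord
      exact hl.one_lt.ne hord
    rw [hkum] at hR
    have hdφ : d (ph v) ≡ v.degree [MOD l ^ (r + 1)] := hd.val h2 hnpos (hL.cst v)
    have hR2 : (zt hζl (linv (sg v) (ph v) q z)).toMul =
        ω ^ ((q : ℤ) * ((v.degree : ℤ) * ord v a)) := by
      rw [hR, ← zpow_natCast, ← zpow_mul]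
      rw [zpow_eq_zpow_iff_modEq, hωord]
      have h5 : ((d (ph v) : ℕ) : ℤ) ≡ (v.degree : ℤ) [ZMOD ((l ^ (r + 1) : ℕ) : ℤ)] :=
        Int.natCast_modEq_iff.2 hdφ
      have h6 := (h5.mul_left (ord v a * q))
      have e1 : ord v a * ((q * d (ph v) : ℕ) : ℤ) = ord v a * q * (d (ph v) : ℤ) := by
        push_cast
        ring
      have e2 : (q : ℤ) * ((v.degree : ℤ) * ord v a) = ord v a * q * (v.degree : ℤ) := by ring
      rw [e1, e2]
      exact h6
    -- divisibility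
    have hdvd : ((l : ℤ) ^ r) ∣ (v.degree : ℤ) * ord v a := by
      have h1 := zt_pow hζl (linv (sg v) (ph v) q z)
      rw [hR2, ← zpow_natCast, ← zpow_mul] at h1
      have h3 := orderOf_dvd_iff_zpow_eq_one.2 h1
      rw [hωord] at h3
      have h4 : ((l : ℤ) ^ r) * l ∣ ((q : ℤ) * ((v.degree : ℤ) * ord v a)) * l := by
        rw [← pow_succ]
        exact_mod_cast h3
      have h5 : ((l : ℤ) ^ r) ∣ (q : ℤ) * ((v.degree : ℤ) * ord v a) :=
        Int.dvd_of_mul_dvd_mul_right (by exact_mod_cast hl.ne_zero) h4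
      have h6 : IsCoprime ((l : ℤ) ^ r) (q : ℤ) := by
        apply IsCoprime.pow_left
        rw [Nat.isCoprime_iff_coprime]
        have h7 := hql.gcd_eq
        rw [Nat.gcd_one_left] at h7
        rw [Nat.coprime_comm]
        exact h7
      exact h6.dvd_of_dvd_mul_left h5
    obtain ⟨D, hD⟩ := hdvd
    refine ⟨D, hD, ?_⟩
    rw [hD] at hR2
    have h1 : ω ^ ((q : ℤ) * ((l : ℤ) ^ r * D)) = (zt hζl ((D : ZMod l))).toMul := by
      have e1 : (q : ℤ) * ((l : ℤ) ^ r * D) = ((l ^ r : ℕ) : ℤ) * (q * D) := by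
        push_cast
        ring
      rw [e1, zpow_mul, zpow_natCast, hωζ, zt_int, zpow_eq_zpow_iff_modEq, hord]
      have h5 : ((q : ℕ) : ℤ) ≡ ((1 : ℕ) : ℤ) [ZMOD ((l : ℕ) : ℤ)] := Int.natCast_modEq_iff.2 hql
      have h6 := h5.mul_right D
      rwa [Nat.cast_one, one_mul] at h6
    rw [h1] at hR2
    have h3 : (zt hζl (linv (sg v) (ph v) q z - (D : ZMod l))).toMul = 1 := by
      rw [map_sub, toMul_sub, hR2, div_self']
    exact sub_eq_zero.1 (zt_inj hζl hord h3)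
  choose D hD using key
  exact ⟨r, a, y, d, c, β, D, ha0, ha, hd, hlt, hc, hβ, hF, hD⟩

end Pool.Agent.SmL.C
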